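import Pool.Agent.Run7.h894.Mit2

/-!
# Arcs: the sets of points of a fibre whose lines lie on a bilinear surface
-/

namespace Run7.h894

section

variable {p : ℕ} [Fact p.Prime] {K : Type} [Field K] [Algebra (ZMod p) K]

/-- the coefficient map -/
abbrev am (K : Type) [Field K] [Algebra (ZMod p) K] (a : ZMod p) : K := algebraMap (ZMod p) K a

/-- `b₁ + ω b₂` -/
def cpx (ω : K) (b : ZMod p × ZMod p) : K := am K b.1 + ω * am K b.2

/-- `b₁ - ω b₂` -/
def cj (ω : K) (b : ZMod p × ZMod p) : K := am K b.1 - ω * am K b.2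

/-- `b₁² - μ b₂²` -/
def nrm (μ : ZMod p) (b : ZMod p × ZMod p) : ZMod p := b.1 ^ 2 - μ * b.2 ^ 2

/-- the two points of the fibres over `c` and `c'`, `κ = c - c'`, are null related. -/
def NullR (μ κ : ZMod p) (u v : (ZMod p × ZMod p) × ZMod p) : Prop :=
  4 * κ * (u.2 - v.2) = nrm μ (u.1 - v.1)

/-- the red line of a point -/
def redP (ω : K) (μ κ : ZMod p) (u : (ZMod p × ZMod p) × ZMod p) : K × K × K :=
  (cpx ω u.1, am K (4 * κ * u.2 - nrm μ u.1), - cj ω u.1)

/-- the blue line of a point -/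
def blueP (ω : K) (μ κ : ZMod p) (v : (ZMod p × ZMod p) × ZMod p) : K × K × K :=
  (- cpx ω v.1, am K (4 * κ * v.2 + nrm μ v.1), - cj ω v.1)

/-- the point lies on the arc `(κ, q)`. -/
def arc (ω : K) (μ κ : ZMod p) (q : K × K × K × K) (u : (ZMod p × ZMod p) × ZMod p) : Prop :=
  am K (4 * κ * u.2 - nrm μ u.1) = q.1 + q.2.1 * cpx ω u.1 ∧
    - cj ω u.1 = q.2.2.1 + q.2.2.2 * cpx ω u.1

/-- the dual parameter -/
def star (q : K × K × K × K) : K × K × K × K := (-q.1, q.2.2.1, q.2.1, -q.2.2.2)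

theorem star_star (q : K × K × K × K) : star (star q) = q := by
  simp [star]

variable {ω : K} {μ : ZMod p}

theorem am_injective : Function.Injective (am K : ZMod p → K) :=
  (algebraMap (ZMod p) K).injective

theorem cpx_cj (hω : ω ^ 2 = am K μ) (b : ZMod p × ZMod p) :
    cpx ω b * cj ω b = am K (nrm μ b) := by
  unfold cpx cj nrm
  simp only [am, map_sub, map_mul, map_pow]
  simp only [am] at hω
  linear_combination (-(algebraMap (ZMod p) K b.2) ^ 2) * hω

theorem cpx_eq_zero (hω : ω ^ 2 = am K μ) (hμ : ¬ IsSquare μ) {b : ZMod p × ZMod p}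
    (h : cpx ω b = 0) : b = 0 := by
  unfold cpx at h
  have h2 : b.2 = 0 := by
    by_contra hne
    apply hμ
    refine ⟨b.1 / b.2, ?_⟩
    apply am_injective (K := K)
    have hne' : am K b.2 ≠ 0 := by
      intro h0
      exact hne (am_injective (K := K) (by rw [h0]; simp [am]))
    have h3 : ω = -(am K b.1 / am K b.2) := by
      field_simp
      linear_combination h
    rw [← hω, h3]
    simp only [am, map_mul, map_div₀]
    ring
  have h1 : b.1 = 0 := by
    rw [h2] at h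
    apply am_injective (K := K)
    simpa [am] using h
  exact Prod.ext h1 h2

theorem cpx_injective (hω : ω ^ 2 = am K μ) (hμ : ¬ IsSquare μ) :
    Function.Injective (cpx ω : ZMod p × ZMod p → K) := by
  intro b b' h
  have h1 : cpx ω (b - b') = 0 := by
    have : cpx ω (b - b') = cpx ω b - cpx ω b' := by
      unfold cpx
      simp only [am, Prod.fst_sub, Prod.snd_sub, map_sub]
      ring
    rw [this, h, sub_self]
  exact sub_eq_zero.mp (cpx_eq_zero hω hμ h1)

theorem cj_injective (hω : ω ^ 2 = am K μ) (hμ : ¬ IsSquare μ) :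
    Function.Injective (cj ω : ZMod p × ZMod p → K) := by
  intro b b' h
  have h1 : cpx (-ω) b = cpx (-ω) b' := by
    unfold cpx
    unfold cj at h
    linear_combination h
  exact cpx_injective (ω := -ω) (by rw [neg_sq, hω]) hμ h1

theorem cross_iff (hω : ω ^ 2 = am K μ) (κ : ZMod p) (u v : (ZMod p × ZMod p) × ZMod p) :
    Cross (redP ω μ κ u) (blueP ω μ κ v) ↔ NullR μ κ u v := by
  unfold Cross NullR redP blueP
  have hid : am K (4 * κ * u.2 - nrm μ u.1) + - cj ω u.1 * - cpx ω v.1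
      - (am K (4 * κ * v.2 + nrm μ v.1) + - cj ω v.1 * cpx ω u.1)
      = am K (4 * κ * (u.2 - v.2) - nrm μ (u.1 - v.1)) := by
    unfold cpx cj nrm
    simp only [am, map_sub, map_mul, map_pow, map_add, Prod.fst_sub, Prod.snd_sub]
    simp only [am] at hω
    linear_combination (-2 * (algebraMap (ZMod p) K u.1.2) * (algebraMap (ZMod p) K v.1.2)) * hω
  constructor
  · intro h
    have h1 : am K (4 * κ * (u.2 - v.2) - nrm μ (u.1 - v.1)) = 0 := by
      rw [← hid]
      exact sub_eq_zero.mpr h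
    have h2 : 4 * κ * (u.2 - v.2) - nrm μ (u.1 - v.1) = 0 :=
      am_injective (K := K) (by rw [h1]; simp [am])
    exact sub_eq_zero.mp h2
  · intro h
    have h1 : am K (4 * κ * (u.2 - v.2) - nrm μ (u.1 - v.1)) = 0 := by
      rw [h, sub_self]
      simp [am]
    rw [← hid] at h1
    exact sub_eq_zero.mp h1

theorem redOn_iff (κ : ZMod p) (q : K × K × K × K) (u : (ZMod p × ZMod p) × ZMod p) :
    RedOn q (redP ω μ κ u) ↔ arc ω μ κ q u := Iff.rfl

theorem blueOn_iff (κ : ZMod p) (q : K × K × K × K) (v : (ZMod p × ZMod p) × ZMod p) :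
    BlueOn q (blueP ω μ κ v) ↔ arc ω μ (-κ) (star q) v := by
  unfold BlueOn arc blueP star
  have h1 : am K (4 * -κ * v.2 - nrm μ v.1) = - am K (4 * κ * v.2 + nrm μ v.1) := by
    simp only [am, map_sub, map_mul, map_add, map_neg]
    ring
  simp only [h1]
  constructor
  · rintro ⟨h2, h3⟩
    exact ⟨by linear_combination -h2, by linear_combination h3⟩
  · rintro ⟨h2, h3⟩
    exact ⟨by linear_combination -h2, by linear_combination h3⟩

theorem redP_injective (hω : ω ^ 2 = am K μ) (hμ : ¬ IsSquare μ) (h2 : (2 : ZMod p) ≠ 0)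
    {κ : ZMod p} (hκ : κ ≠ 0) : Function.Injective (redP ω μ κ) := by
  intro u v h
  have h1 : u.1 = v.1 := cpx_injective hω hμ (congrArg (fun x => x.1) h)
  have h3 : am K (4 * κ * u.2 - nrm μ u.1) = am K (4 * κ * v.2 - nrm μ v.1) :=
    congrArg (fun x => x.2.1) h
  have h4 := am_injective (K := K) h3
  rw [h1] at h4
  have h5 : (4 : ZMod p) * κ ≠ 0 := by
    have : (4 : ZMod p) = 2 * 2 := by norm_num
    rw [this]
    exact mul_ne_zero (mul_ne_zero h2 h2) hκ
  have h6 : 4 * κ * u.2 = 4 * κ * v.2 := by linear_combination h4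
  exact Prod.ext h1 (mul_left_cancel₀ h5 h6)

theorem blueP_injective (hω : ω ^ 2 = am K μ) (hμ : ¬ IsSquare μ) (h2 : (2 : ZMod p) ≠ 0)
    {κ : ZMod p} (hκ : κ ≠ 0) : Function.Injective (blueP ω μ κ) := by
  intro u v h
  have h1 : u.1 = v.1 := cpx_injective hω hμ (neg_injective (congrArg (fun x => x.1) h))
  have h3 : am K (4 * κ * u.2 + nrm μ u.1) = am K (4 * κ * v.2 + nrm μ v.1) :=
    congrArg (fun x => x.2.1) h
  have h4 := am_injective (K := K) h3
  rw [h1] at h4
  have h5 : (4 : ZMod p) * κ ≠ 0 := by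
    have : (4 : ZMod p) = 2 * 2 := by norm_num
    rw [this]
    exact mul_ne_zero (mul_ne_zero h2 h2) hκ
  have h6 : 4 * κ * u.2 = 4 * κ * v.2 := by linear_combination h4
  exact Prod.ext h1 (mul_left_cancel₀ h5 h6)

theorem blue_unique (hω : ω ^ 2 = am K μ) (hμ : ¬ IsSquare μ) {κ : ZMod p}
    (u v v' : (ZMod p × ZMod p) × ZMod p) (h : Cross (redP ω μ κ u) (blueP ω μ κ v))
    (h' : Cross (redP ω μ κ u) (blueP ω μ κ v'))
    (he : (blueP ω μ κ v).1 = (blueP ω μ κ v').1) : blueP ω μ κ v = blueP ω μ κ v' := by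
  have h1 : v.1 = v'.1 := cpx_injective hω hμ (neg_injective he)
  have h3 : (blueP ω μ κ v).2.2 = (blueP ω μ κ v').2.2 := by
    simp only [blueP, h1]
  unfold Cross at h h'
  rw [he] at h
  have h4 : (blueP ω μ κ v).2.1 = (blueP ω μ κ v').2.1 := by
    rw [h3] at h
    linear_combination h' - h
  exact Prod.ext he (Prod.ext h4 h3)

theorem red_unique (hω : ω ^ 2 = am K μ) (hμ : ¬ IsSquare μ) {κ : ZMod p}
    (v u u' : (ZMod p × ZMod p) × ZMod p) (h : Cross (redP ω μ κ u) (blueP ω μ κ v))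
    (h' : Cross (redP ω μ κ u') (blueP ω μ κ v))
    (he : (redP ω μ κ u).1 = (redP ω μ κ u').1) : redP ω μ κ u = redP ω μ κ u' := by
  have h1 : u.1 = u'.1 := cpx_injective hω hμ he
  have h3 : (redP ω μ κ u).2.2 = (redP ω μ κ u').2.2 := by
    simp only [redP, h1]
  unfold Cross at h h'
  rw [h3] at h
  rw [he] at h
  have h4 : (redP ω μ κ u).2.1 = (redP ω μ κ u').2.1 := by
    linear_combination h - h'
  exact Prod.ext he (Prod.ext h4 h3)

/-- different points of an arc have different first coordinates -/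
theorem arc_fst_ne (h2 : (2 : ZMod p) ≠ 0) {κ : ZMod p} (hκ : κ ≠ 0) {q : K × K × K × K}
    {u v : (ZMod p × ZMod p) × ZMod p} (hu : arc ω μ κ q u) (hv : arc ω μ κ q v) (hne : u ≠ v) :
    u.1 ≠ v.1 := by
  intro h1
  apply hne
  have h3 := hu.1
  rw [h1, ← hv.1] at h3
  have h4 := am_injective (K := K) h3
  have h5 : (4 : ZMod p) * κ ≠ 0 := by
    have : (4 : ZMod p) = 2 * 2 := by norm_num
    rw [this]
    exact mul_ne_zero (mul_ne_zero h2 h2) hκ
  have h6 : 4 * κ * u.2 = 4 * κ * v.2 := by linear_combination h4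
  exact Prod.ext h1 (mul_left_cancel₀ h5 h6)

/-- two points of an arc: the leading coefficient is not zero -/
theorem arc_lead (hω : ω ^ 2 = am K μ) (hμ : ¬ IsSquare μ) (h2 : (2 : ZMod p) ≠ 0)
    {κ : ZMod p} (hκ : κ ≠ 0) {q : K × K × K × K}
    {u v : (ZMod p × ZMod p) × ZMod p} (hu : arc ω μ κ q u) (hv : arc ω μ κ q v) (hne : u ≠ v) :
    q.2.2.2 ≠ 0 := by
  intro h0
  have h1 := hu.2
  have h3 := hv.2
  rw [h0, zero_mul, add_zero] at h1 h3
  exact arc_fst_ne h2 hκ hu hv hne (cj_injective hω hμ (neg_injective (h1.trans h3.symm)))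

/-- the quadratic equation of an arc -/
theorem arc_quad (hω : ω ^ 2 = am K μ) {κ : ZMod p} {q : K × K × K × K}
    {u : (ZMod p × ZMod p) × ZMod p} (hu : arc ω μ κ q u) :
    am K (4 * κ * u.2) = q.1 + (q.2.1 - q.2.2.1) * cpx ω u.1 - q.2.2.2 * cpx ω u.1 ^ 2 := by
  have h1 := hu.1
  have h2 := hu.2
  have h3 := cpx_cj hω u.1
  have h4 : am K (4 * κ * u.2 - nrm μ u.1) = am K (4 * κ * u.2) - am K (nrm μ u.1) := by
    simp only [am, map_sub]
  rw [h4] at h1
  linear_combination h1 - h3 + cpx ω u.1 * (-h2)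

/-- three common points determine the arc -/
theorem arc_inter (hω : ω ^ 2 = am K μ) (hμ : ¬ IsSquare μ) (h2 : (2 : ZMod p) ≠ 0)
    {κ κ' : ZMod p} (hκ : κ ≠ 0) (hκ' : κ' ≠ 0) {q q' : K × K × K × K}
    {u v w : (ZMod p × ZMod p) × ZMod p} (huv : u ≠ v) (huw : u ≠ w) (hvw : v ≠ w)
    (hu : arc ω μ κ q u) (hv : arc ω μ κ q v) (hw : arc ω μ κ q w)
    (hu' : arc ω μ κ' q' u) (hv' : arc ω μ κ' q' v) (hw' : arc ω μ κ' q' w) :
    κ = κ' ∧ q = q' := by
  have cuv : cpx ω u.1 - cpx ω v.1 ≠ 0 := fun h =>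
    arc_fst_ne h2 hκ hu hv huv (cpx_injective hω hμ (sub_eq_zero.mp h))
  have cuw : cpx ω u.1 - cpx ω w.1 ≠ 0 := fun h =>
    arc_fst_ne h2 hκ hu hw huw (cpx_injective hω hμ (sub_eq_zero.mp h))
  have cvw : cpx ω v.1 - cpx ω w.1 ≠ 0 := fun h =>
    arc_fst_ne h2 hκ hv hw hvw (cpx_injective hω hμ (sub_eq_zero.mp h))
  have hq3 := arc_lead hω hμ h2 hκ hu hv huv
  -- q₃ and q₂
  have e3 : q.2.2.2 = q'.2.2.2 := by
    apply mul_right_cancel₀ cuv
    linear_combination hu'.2 - hv'.2 - hu.2 + hv.2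
  have e2 : q.2.2.1 = q'.2.2.1 := by
    have h := hu.2
    have h' := hu'.2
    rw [e3] at h
    linear_combination h' - h
  -- the quadratic equations
  have a1 := arc_quad hω hu
  have a2 := arc_quad hω hv
  have a3 := arc_quad hω hw
  have b1 := arc_quad hω hu'
  have b2 := arc_quad hω hv'
  have b3 := arc_quad hω hw'
  have hm : ∀ (κ₁ κ₂ a : ZMod p), am K κ₂ * am K (4 * κ₁ * a) = am K κ₁ * am K (4 * κ₂ * a) := by
    intro κ₁ κ₂ a
    simp only [am, map_mul]
    ring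
  have d1 := hm κ κ' u.2
  have d2 := hm κ κ' v.2
  have d3 := hm κ κ' w.2
  rw [a1, b1] at d1
  rw [a2, b2] at d2
  rw [a3, b3] at d3
  set x := cpx ω u.1 with hx
  set y := cpx ω v.1 with hy
  set z := cpx ω w.1 with hz
  -- subtract: first divided differences
  have f1 : am K κ' * ((q.2.1 - q.2.2.1) - q.2.2.2 * (x + y))
      = am K κ * ((q'.2.1 - q'.2.2.1) - q'.2.2.2 * (x + y)) := by
    apply mul_right_cancel₀ cuv
    linear_combination d1 - d2
  have f2 : am K κ' * ((q.2.1 - q.2.2.1) - q.2.2.2 * (x + z))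
      = am K κ * ((q'.2.1 - q'.2.2.1) - q'.2.2.2 * (x + z)) := by
    apply mul_right_cancel₀ cuw
    linear_combination d1 - d3
  have f3 : am K κ' * q.2.2.2 = am K κ * q'.2.2.2 := by
    apply mul_right_cancel₀ cvw
    linear_combination f2 - f1
  have hκκ : κ = κ' := by
    rw [← e3] at f3
    exact (am_injective (K := K) (mul_right_cancel₀ hq3 f3)).symm
  refine ⟨hκκ, ?_⟩
  subst hκκ
  have hκK : am K κ ≠ 0 := by
    intro h
    exact hκ (am_injective (K := K) (by rw [h]; simp [am]))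
  have e1 : q.2.1 = q'.2.1 := by
    have := mul_left_cancel₀ hκK f1
    rw [e2, e3] at this
    linear_combination this
  have e0 : q.1 = q'.1 := by
    have := a1.symm.trans b1
    rw [e1, e2, e3] at this
    linear_combination this
  exact Prod.ext e0 (Prod.ext e1 (Prod.ext e2 e3))

open Classical in
theorem arc_inter_card (hω : ω ^ 2 = am K μ) (hμ : ¬ IsSquare μ) (h2 : (2 : ZMod p) ≠ 0)
    {κ κ' : ZMod p} (hκ : κ ≠ 0) (hκ' : κ' ≠ 0) {q q' : K × K × K × K} (hne : (κ, q) ≠ (κ', q'))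
    (S : Finset ((ZMod p × ZMod p) × ZMod p)) :
    (S.filter (fun u => arc ω μ κ q u) ∩ S.filter (fun u => arc ω μ κ' q' u)).card ≤ 2 := by
  by_contra hcon
  push Not at hcon
  obtain ⟨u, v, w, hu, hv, hw, huv, huw, hvw⟩ := Finset.two_lt_card_iff.mp hcon
  rw [Finset.mem_inter, Finset.mem_filter, Finset.mem_filter] at hu hv hw
  obtain ⟨h1, h3⟩ := arc_inter hω hμ h2 hκ hκ' huv huw hvw hu.1.2 hv.1.2 hw.1.2
    hu.2.2 hv.2.2 hw.2.2
  exact hne (by rw [h1, h3])

open Classical in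
/-- an arc has at most two points with a given last coordinate -/
theorem arc_card (hω : ω ^ 2 = am K μ) (hμ : ¬ IsSquare μ) (h2 : (2 : ZMod p) ≠ 0)
    {κ : ZMod p} (hκ : κ ≠ 0) (q : K × K × K × K) (S : Finset ((ZMod p × ZMod p) × ZMod p))
    (A₀ : Finset (ZMod p)) (hA : ∀ u ∈ S, u.2 ∈ A₀) :
    (S.filter (fun u => arc ω μ κ q u)).card ≤ 2 * A₀.card := by
  refine Finset.card_le_mul_card_image_of_maps_to (f := fun u => u.2) ?_ 2 ?_
  · intro u hu
    exact hA u (Finset.mem_filter.mp hu).1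
  · intro a _
    by_contra hcon
    push Not at hcon
    obtain ⟨u, v, w, hu, hv, hw, huv, huw, hvw⟩ := Finset.two_lt_card_iff.mp hcon
    simp only [Finset.mem_filter] at hu hv hw
    have cuv : cpx ω u.1 - cpx ω v.1 ≠ 0 := fun h =>
      arc_fst_ne h2 hκ hu.1.2 hv.1.2 huv (cpx_injective hω hμ (sub_eq_zero.mp h))
    have cuw : cpx ω u.1 - cpx ω w.1 ≠ 0 := fun h =>
      arc_fst_ne h2 hκ hu.1.2 hw.1.2 huw (cpx_injective hω hμ (sub_eq_zero.mp h))
    have cvw : cpx ω v.1 - cpx ω w.1 ≠ 0 := fun h =>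
      arc_fst_ne h2 hκ hv.1.2 hw.1.2 hvw (cpx_injective hω hμ (sub_eq_zero.mp h))
    have a1 := arc_quad hω hu.1.2
    have a2 := arc_quad hω hv.1.2
    have a3 := arc_quad hω hw.1.2
    rw [hu.2] at a1
    rw [hv.2] at a2
    rw [hw.2] at a3
    have f1 : (q.2.1 - q.2.2.1) - q.2.2.2 * (cpx ω u.1 + cpx ω v.1) = 0 := by
      apply mul_right_cancel₀ cuv
      linear_combination a2 - a1
    have f2 : (q.2.1 - q.2.2.1) - q.2.2.2 * (cpx ω u.1 + cpx ω w.1) = 0 := by
      apply mul_right_cancel₀ cuw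
      linear_combination a3 - a1
    have f3 : q.2.2.2 * (cpx ω v.1 - cpx ω w.1) = 0 := by linear_combination f2 - f1
    exact mul_ne_zero (arc_lead hω hμ h2 hκ hu.1.2 hv.1.2 huv) cvw f3

end

end Run7.h894
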