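import Pool.Agent.Run7.h894.Defs

/-!
# Restriction to lines, hitting sets, interpolation
-/

namespace Run7.h894

open MvPolynomial

section Lines

variable {K : Type*} [Field K]

theorem eval_lsub (a v : Fin 3 → K) (f : MvPolynomial (Fin 3) K) (τ : K) :
    (lsub a v f).eval τ = MvPolynomial.eval (fun i => a i + v i * τ) f := by
  have h : (Polynomial.evalRingHom τ).comp (lsub a v : MvPolynomial (Fin 3) K →+* Polynomial K)
      = MvPolynomial.eval (fun i => a i + v i * τ) := by
    apply MvPolynomial.ringHom_ext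
    · intro r
      simp [lsub]
    · intro i
      simp [lsub]
  have := congrArg (fun φ : MvPolynomial (Fin 3) K →+* K => φ f) h
  simpa using this

theorem natDegree_lsub_le (a v : Fin 3 → K) (f : MvPolynomial (Fin 3) K) :
    (lsub a v f).natDegree ≤ f.totalDegree := by
  classical
  unfold lsub
  rw [aeval_def, eval₂_eq]
  apply Polynomial.natDegree_sum_le_of_forall_le
  intro s hs
  refine (Polynomial.natDegree_mul_le).trans ?_
  have h1 : (algebraMap K (Polynomial K) (coeff s f)).natDegree = 0 := by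
    rw [Polynomial.algebraMap_eq]
    exact Polynomial.natDegree_C _
  rw [h1, zero_add]
  refine (Polynomial.natDegree_prod_le _ _).trans ?_
  refine le_trans ?_ (le_totalDegree hs)
  rw [Finsupp.sum]
  apply Finset.sum_le_sum
  intro i _
  refine (Polynomial.natDegree_pow_le).trans ?_
  have h2 : (Polynomial.C (a i) + Polynomial.C (v i) * Polynomial.X).natDegree ≤ 1 := by
    refine (Polynomial.natDegree_add_le _ _).trans ?_
    simp only [Polynomial.natDegree_C, zero_le, sup_of_le_right]
    exact (Polynomial.natDegree_C_mul_le _ _).trans Polynomial.natDegree_X_le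
  calc s i * (Polynomial.C (a i) + Polynomial.C (v i) * Polynomial.X).natDegree
      ≤ s i * 1 := Nat.mul_le_mul_left _ h2
    _ = s i := mul_one _

theorem eval_rsub (l : K × K × K) (f : MvPolynomial (Fin 3) K) (τ : K) :
    (rsub l f).eval τ = MvPolynomial.eval ![l.1, τ, l.2.1 + l.2.2 * τ] f := by
  unfold rsub
  rw [eval_lsub]
  congr 1
  congr 1
  funext i
  fin_cases i <;> simp

theorem eval_bsub (l : K × K × K) (f : MvPolynomial (Fin 3) K) (τ : K) :
    (bsub l f).eval τ = MvPolynomial.eval ![τ, l.1, l.2.1 + l.2.2 * τ] f := by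
  unfold bsub
  rw [eval_lsub]
  congr 1
  congr 1
  funext i
  fin_cases i <;> simp

theorem eval_cross {l b : K × K × K} (h : Cross l b) (f : MvPolynomial (Fin 3) K) :
    (rsub l f).eval b.1 = (bsub b f).eval l.1 := by
  rw [eval_rsub, eval_bsub, show l.2.1 + l.2.2 * b.1 = b.2.1 + b.2.2 * l.1 from h]

theorem natDegree_rsub_le (l : K × K × K) (f : MvPolynomial (Fin 3) K) :
    (rsub l f).natDegree ≤ f.totalDegree := natDegree_lsub_le _ _ _

theorem natDegree_bsub_le (l : K × K × K) (f : MvPolynomial (Fin 3) K) :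
    (bsub l f).natDegree ≤ f.totalDegree := natDegree_lsub_le _ _ _

/-- a polynomial with more zeros than its degree is zero. -/
theorem eq_zero_of_card {q : Polynomial K} {Z : Finset K} (h : ∀ z ∈ Z, q.eval z = 0)
    (hc : q.natDegree < Z.card) : q = 0 :=
  Polynomial.eq_zero_of_natDegree_lt_card_of_eval_eq_zero' q Z h hc

end Lines

section Hit

/-- a small set which hits all the given sets -/
theorem exists_hitting {α ι : Type*} [DecidableEq α] (X : Finset α) (I : Finset ι)
    (W : ι → Finset α) (hW : ∀ i ∈ I, W i ⊆ X) (g : ℕ) (hg : ∀ i ∈ I, g ≤ (W i).card) (k : ℕ)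
    (h : I.card * (X.card - g) ^ k < X.card ^ k) :
    ∃ X₀ ⊆ X, X₀.card ≤ k ∧ ∀ i ∈ I, ∃ a ∈ W i, a ∈ X₀ := by
  classical
  -- maps `Fin k → α` with values in `X`
  let All : Finset (Fin k → α) := Fintype.piFinset (fun _ => X)
  let Bad : ι → Finset (Fin k → α) := fun i => Fintype.piFinset (fun _ => X \ W i)
  have hAll : All.card = X.card ^ k := by
    simp [All]
  have hBad : ∀ i ∈ I, (Bad i).card ≤ (X.card - g) ^ k := by
    intro i hi
    have h1 : (Bad i).card = (X \ W i).card ^ k := by simp [Bad]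
    rw [h1]
    apply Nat.pow_le_pow_left
    rw [Finset.card_sdiff_of_subset (hW i hi)]
    exact Nat.sub_le_sub_left (hg i hi) _
  have hU : (I.biUnion Bad).card < All.card := by
    calc (I.biUnion Bad).card ≤ ∑ i ∈ I, (Bad i).card := Finset.card_biUnion_le
      _ ≤ ∑ _i ∈ I, (X.card - g) ^ k := Finset.sum_le_sum hBad
      _ = I.card * (X.card - g) ^ k := by simp
      _ < X.card ^ k := h
      _ = All.card := hAll.symm
  obtain ⟨φ, hφ, hφ'⟩ := Finset.exists_mem_notMem_of_card_lt_card hU
  refine ⟨Finset.univ.image φ, ?_, ?_, ?_⟩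
  · intro a ha
    obtain ⟨j, -, rfl⟩ := Finset.mem_image.mp ha
    exact (Fintype.mem_piFinset.mp hφ) j
  · exact (Finset.card_image_le).trans (by simp)
  · intro i hi
    by_contra hcon
    push Not at hcon
    apply hφ'
    rw [Finset.mem_biUnion]
    refine ⟨i, hi, ?_⟩
    rw [Fintype.mem_piFinset]
    intro j
    rw [Finset.mem_sdiff]
    refine ⟨(Fintype.mem_piFinset.mp hφ) j, ?_⟩
    intro hj
    exact hcon _ hj (Finset.mem_image_of_mem _ (Finset.mem_univ j))

end Hit

section Interp

variable {K : Type*} [Field K]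

/-- exponents -/
noncomputable def expo (e : ℕ) (t : Fin (e + 1) × Fin (e + 1) × Fin (e + 1)) : Fin 3 →₀ ℕ :=
  Finsupp.equivFunOnFinite.symm ![(t.1 : ℕ), (t.2.1 : ℕ), (t.2.2 : ℕ)]

theorem expo_injective (e : ℕ) : Function.Injective (expo e) := by
  intro t t' h
  have h1 : (![(t.1 : ℕ), (t.2.1 : ℕ), (t.2.2 : ℕ)] : Fin 3 → ℕ)
      = ![(t'.1 : ℕ), (t'.2.1 : ℕ), (t'.2.2 : ℕ)] :=
    Finsupp.equivFunOnFinite.symm.injective h
  have e0 := congrFun h1 0
  have e1 := congrFun h1 1
  have e2 := congrFun h1 2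
  simp at e0 e1 e2
  refine Prod.ext (Fin.ext e0) (Prod.ext (Fin.ext e1) (Fin.ext e2))

/-- the polynomial with the given coefficients -/
noncomputable def polyOf (K : Type*) [Field K] (e : ℕ) :
    ((Fin (e + 1) × Fin (e + 1) × Fin (e + 1)) → K) →ₗ[K] MvPolynomial (Fin 3) K :=
  Fintype.linearCombination K (fun t => monomial (expo e t) (1 : K))

theorem coeff_polyOf (e : ℕ) (a : (Fin (e + 1) × Fin (e + 1) × Fin (e + 1)) → K)
    (t : Fin (e + 1) × Fin (e + 1) × Fin (e + 1)) : coeff (expo e t) (polyOf K e a) = a t := by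
  classical
  unfold polyOf
  rw [Fintype.linearCombination_apply, coeff_sum]
  rw [Finset.sum_eq_single t]
  · rw [coeff_smul, coeff_monomial, if_pos rfl]
    simp
  · intro t' _ ht'
    rw [coeff_smul, coeff_monomial, if_neg]
    · simp
    · intro h
      exact ht' (expo_injective e h)
  · intro h
    exact absurd (Finset.mem_univ t) h

theorem polyOf_injective (e : ℕ) : Function.Injective (polyOf K e) := by
  intro a b h
  funext t
  rw [← coeff_polyOf e a t, ← coeff_polyOf e b t, h]

theorem totalDegree_polyOf (e : ℕ) (a : (Fin (e + 1) × Fin (e + 1) × Fin (e + 1)) → K) :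
    (polyOf K e a).totalDegree ≤ 3 * e := by
  unfold polyOf
  rw [Fintype.linearCombination_apply]
  refine MvPolynomial.totalDegree_finsetSum_le ?_
  intro t _
  refine (MvPolynomial.totalDegree_smul_le _ _).trans ?_
  refine (MvPolynomial.totalDegree_monomial_le _ _).trans ?_
  rw [Finsupp.sum_fintype _ _ (by simp)]
  rw [Fin.sum_univ_three]
  simp only [expo, Finsupp.equivFunOnFinite_symm_apply_apply]
  have h0 := t.1.2
  have h1 := t.2.1.2
  have h2 := t.2.2.2
  simp
  omega

/-- **Interpolation**: few lines lie on a surface of small degree. -/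
theorem exists_poly (S : Finset ((Fin 3 → K) × (Fin 3 → K))) (e : ℕ)
    (h : S.card * (3 * e + 1) < (e + 1) ^ 3) :
    ∃ f : MvPolynomial (Fin 3) K, f ≠ 0 ∧ f.totalDegree ≤ 3 * e ∧
      ∀ l ∈ S, lsub l.1 l.2 f = 0 := by
  classical
  let Ψ : ((Fin (e + 1) × Fin (e + 1) × Fin (e + 1)) → K) →ₗ[K] ((S × Fin (3 * e + 1)) → K) :=
    LinearMap.pi (fun lj => (Polynomial.lcoeff K (lj.2 : ℕ)) ∘ₗ
      ((lsub lj.1.1.1 lj.1.1.2).toLinearMap ∘ₗ polyOf K e))
  have hker : LinearMap.ker Ψ ≠ ⊥ := by
    apply LinearMap.ker_ne_bot_of_finrank_lt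
    rw [Module.finrank_fintype_fun_eq_card, Module.finrank_fintype_fun_eq_card]
    simp only [Fintype.card_prod, Fintype.card_fin, Fintype.card_coe]
    calc S.card * (3 * e + 1) < (e + 1) ^ 3 := h
      _ = (e + 1) * ((e + 1) * (e + 1)) := by ring
  obtain ⟨a, ha, ha0⟩ := (Submodule.ne_bot_iff _).mp hker
  refine ⟨polyOf K e a, ?_, totalDegree_polyOf e a, ?_⟩
  · intro h0
    apply ha0
    apply polyOf_injective e
    rw [h0, map_zero]
  · intro l hl
    have hdeg := (natDegree_lsub_le l.1 l.2 (polyOf K e a)).trans (totalDegree_polyOf e a)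
    ext j
    rw [Polynomial.coeff_zero]
    by_cases hj : j < 3 * e + 1
    · have h1 := congrFun (LinearMap.mem_ker.mp ha) (⟨l, hl⟩, ⟨j, hj⟩)
      simpa [Ψ] using h1
    · apply Polynomial.coeff_eq_zero_of_natDegree_lt
      omega

end Interp

end Run7.h894
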