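import Mathlib

/-!
# Basic definitions: lines in 3-space, red and blue lines, regulus, restricted isometry

`lsub a v` is the restriction of a polynomial in three variables to the line `τ ↦ a + τ v`.
A red line `(r, s, t)` is the line `{(r, η, s + t η)}`, a blue line `(r, s, t)` is the line
`{(ξ, r, s + t ξ)}`.
-/

namespace Run7.h894

open MvPolynomial

variable {K : Type*} [Field K]

/-- restriction of a polynomial in three variables to the line `τ ↦ a + τ v`. -/
noncomputable def lsub (a v : Fin 3 → K) : MvPolynomial (Fin 3) K →ₐ[K] Polynomial K :=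
  aeval (fun i => Polynomial.C (a i) + Polynomial.C (v i) * Polynomial.X)

/-- restriction to the red line `(r, s, t)`, that is `{(r, η, s + t η)}`. -/
noncomputable def rsub (l : K × K × K) : MvPolynomial (Fin 3) K →ₐ[K] Polynomial K :=
  lsub ![l.1, 0, l.2.1] ![0, 1, l.2.2]

/-- restriction to the blue line `(r, s, t)`, that is `{(ξ, r, s + t ξ)}`. -/
noncomputable def bsub (l : K × K × K) : MvPolynomial (Fin 3) K →ₐ[K] Polynomial K :=
  lsub ![0, l.1, l.2.1] ![1, 0, l.2.2]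

/-- the red line `l` and the blue line `b` meet. -/
def Cross (l b : K × K × K) : Prop := l.2.1 + l.2.2 * b.1 = b.2.1 + b.2.2 * l.1

/-- the polynomial `U - (q₀ + q₁ ξ + q₂ η + q₃ ξ η)`. -/
noncomputable def bil (q : K × K × K × K) : MvPolynomial (Fin 3) K :=
  X 2 - C q.1 - C q.2.1 * X 0 - C q.2.2.1 * X 1 - C q.2.2.2 * X 0 * X 1

/-- the red line lies on the surface `bil q = 0`. -/
def RedOn (q : K × K × K × K) (l : K × K × K) : Prop :=
  l.2.1 = q.1 + q.2.1 * l.1 ∧ l.2.2 = q.2.2.1 + q.2.2.2 * l.1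

/-- the blue line lies on the surface `bil q = 0`. -/
def BlueOn (q : K × K × K × K) (l : K × K × K) : Prop :=
  l.2.1 = q.1 + q.2.2.1 * l.1 ∧ l.2.2 = q.2.1 + q.2.2.2 * l.1

/-- the set of indices where the vector is not zero -/
noncomputable def supp {D : Type*} [Fintype D] (x : D → ℂ) : Finset D := by
  classical exact Finset.univ.filter (fun j => x j ≠ 0)

/-- The matrix `Φ` has the `m`-RIP: after multiplication by a suitable positive number `s`
it satisfies `‖x‖ ≤ ‖s Φ x‖ ≤ 2 ‖x‖` for all vectors `x` with at most `m` nonzero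
coordinates (the squares of the Euclidean norms are compared). -/
def HasRIP {R D : Type*} [Fintype R] [Fintype D] (m : ℕ) (Φ : Matrix R D ℂ) : Prop :=
  ∃ s : ℝ, 0 < s ∧ ∀ x : D → ℂ, (supp x).card ≤ m →
    (∑ j, ‖x j‖ ^ 2 ≤ ∑ i, ‖(s : ℂ) * ∑ j, Φ i j * x j‖ ^ 2) ∧
    (∑ i, ‖(s : ℂ) * ∑ j, Φ i j * x j‖ ^ 2 ≤ 4 * ∑ j, ‖x j‖ ^ 2)

/-- The matrix: the row `(t, x, y)` and the column `(c, b₁, b₂, a)` have the entry
`exp (2 π i t (c (x² - ν y²) + b₁ x + b₂ y + a) / p)`. -/
noncomputable def Phi (p : ℕ) [Fact p.Prime] (ν : ZMod p) (L A : ℕ) :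
    Matrix ((ZMod p)ˣ × ZMod p × ZMod p) (Fin L × ZMod p × ZMod p × Fin A) ℂ :=
  fun r u => ZMod.stdAddChar
    ((r.1 : ZMod p) * (((u.1 : ℕ) : ZMod p) * (r.2.1 ^ 2 - ν * r.2.2 ^ 2) + u.2.1 * r.2.1
      + u.2.2.1 * r.2.2 + ((u.2.2.2 : ℕ) : ZMod p)))

end Run7.h894
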