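import Mathlib

/-!
# Families of sets with small intersections
-/

namespace Run7.h894

section

variable {α ι : Type*} [DecidableEq α] [DecidableEq ι]

omit [DecidableEq ι] in
theorem sum_sq_fam (I : Finset ι) (W : ι → Finset α) (S : Finset α) (hW : ∀ i ∈ I, W i ⊆ S)
    (y : ι → ℝ) :
    ∑ u ∈ S, (∑ i ∈ I, if u ∈ W i then y i else 0) ^ 2
      = ∑ i ∈ I, ∑ j ∈ I, y i * y j * ((W i ∩ W j).card : ℝ) := by
  have h1 : ∀ u ∈ S, (∑ i ∈ I, if u ∈ W i then y i else 0) ^ 2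
      = ∑ i ∈ I, ∑ j ∈ I, if u ∈ W i ∩ W j then y i * y j else 0 := by
    intro u _
    rw [sq, Finset.sum_mul_sum]
    apply Finset.sum_congr rfl
    intro i _
    apply Finset.sum_congr rfl
    intro j _
    by_cases hi : u ∈ W i
    · by_cases hj : u ∈ W j
      · simp [hi, hj]
      · simp [hj]
    · simp [hi]
  rw [Finset.sum_congr rfl h1, Finset.sum_comm]
  apply Finset.sum_congr rfl
  intro i hi
  rw [Finset.sum_comm]
  apply Finset.sum_congr rfl
  intro j _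
  rw [← Finset.sum_filter, Finset.sum_const, nsmul_eq_mul, mul_comm]
  congr 2
  congr 1
  ext u
  rw [Finset.mem_filter]
  constructor
  · intro h
    exact h.2
  · intro h
    exact ⟨hW i hi (Finset.mem_inter.mp h).1, h⟩

/-- the double sum of the intersections is small -/
theorem double_sum_le (I : Finset ι) (W : ι → Finset α) (A c : ℝ) (hc0 : 0 ≤ c)
    (hA : ∀ i ∈ I, ((W i).card : ℝ) ≤ A)
    (hc : ∀ i ∈ I, ∀ j ∈ I, i ≠ j → ((W i ∩ W j).card : ℝ) ≤ c) (y : ι → ℝ) :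
    ∑ i ∈ I, ∑ j ∈ I, y i * y j * ((W i ∩ W j).card : ℝ)
      ≤ A * (∑ i ∈ I, y i ^ 2) + c * (I.card * ∑ i ∈ I, y i ^ 2) := by
  have h1 : ∀ i ∈ I, ∀ j ∈ I, y i * y j * ((W i ∩ W j).card : ℝ) ≤
      (if i = j then A * y i ^ 2 else 0) + c * (|y i| * |y j|) := by
    intro i hi j hj
    have h0 : 0 ≤ c * (|y i| * |y j|) := by positivity
    by_cases hij : i = j
    · subst hij
      rw [if_pos rfl, Finset.inter_self]
      have := mul_le_mul_of_nonneg_left (hA i hi) (sq_nonneg (y i))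
      nlinarith
    · rw [if_neg hij, zero_add]
      calc y i * y j * ((W i ∩ W j).card : ℝ) ≤ |y i * y j| * ((W i ∩ W j).card : ℝ) :=
            mul_le_mul_of_nonneg_right (le_abs_self _) (Nat.cast_nonneg _)
        _ ≤ |y i * y j| * c := mul_le_mul_of_nonneg_left (hc i hi j hj hij) (abs_nonneg _)
        _ = c * (|y i| * |y j|) := by rw [abs_mul]; ring
  refine (Finset.sum_le_sum (fun i hi => Finset.sum_le_sum (fun j hj => h1 i hi j hj))).trans ?_
  simp only [Finset.sum_add_distrib, Finset.sum_ite_eq]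
  have h2 : ∑ i ∈ I, (if i ∈ I then A * y i ^ 2 else 0) = A * ∑ i ∈ I, y i ^ 2 := by
    rw [Finset.mul_sum]
    apply Finset.sum_congr rfl
    intro i hi
    rw [if_pos hi]
  rw [h2]
  have h3 : ∑ i ∈ I, ∑ j ∈ I, c * (|y i| * |y j|) = c * (∑ i ∈ I, |y i|) ^ 2 := by
    rw [sq, Finset.sum_mul_sum, Finset.mul_sum]
    apply Finset.sum_congr rfl
    intro i _
    rw [Finset.mul_sum]
  rw [h3]
  have h4 : (∑ i ∈ I, |y i|) ^ 2 ≤ I.card * ∑ i ∈ I, y i ^ 2 := by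
    have := sq_sum_le_card_mul_sum_sq (s := I) (f := fun i => |y i|)
    simpa using this
  have h5 := mul_le_mul_of_nonneg_left h4 hc0
  linarith

/-- **Weighted bound for a family of sets with small pairwise intersections.** -/
theorem fam_bound (I : Finset ι) (W : ι → Finset α) (S : Finset α) (hW : ∀ i ∈ I, W i ⊆ S)
    (A c : ℝ) (hA0 : 0 ≤ A) (hc0 : 0 ≤ c)
    (hA : ∀ i ∈ I, ((W i).card : ℝ) ≤ A)
    (hc : ∀ i ∈ I, ∀ j ∈ I, i ≠ j → ((W i ∩ W j).card : ℝ) ≤ c) (x : α → ℝ) :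
    ∑ i ∈ I, (∑ u ∈ W i, x u) ^ 2 ≤ (A + c * I.card) * ∑ u ∈ S, x u ^ 2 := by
  set y : ι → ℝ := fun i => ∑ u ∈ W i, x u with hy
  set Q := ∑ i ∈ I, y i ^ 2 with hQ
  have hQ0 : 0 ≤ Q := Finset.sum_nonneg (fun i _ => sq_nonneg _)
  have hQ' : Q = ∑ u ∈ S, x u * (∑ i ∈ I, if u ∈ W i then y i else 0) := by
    have h1 : ∀ i ∈ I, y i ^ 2 = ∑ u ∈ S, x u * (if u ∈ W i then y i else 0) := by
      intro i hi
      have h2 : y i = ∑ u ∈ S, if u ∈ W i then x u else 0 := by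
        rw [← Finset.sum_filter, hy]
        simp only
        congr 1
        ext u
        rw [Finset.mem_filter]
        exact ⟨fun h => ⟨hW i hi h, h⟩, fun h => h.2⟩
      rw [sq]
      conv_lhs => rw [h2]
      rw [Finset.sum_mul]
      apply Finset.sum_congr rfl
      intro u _
      split_ifs
      · rw [← h2]
      · simp
    rw [hQ, Finset.sum_congr rfl h1, Finset.sum_comm]
    apply Finset.sum_congr rfl
    intro u _
    rw [Finset.mul_sum]
  have hCS : Q ^ 2 ≤ (∑ u ∈ S, x u ^ 2) * (∑ u ∈ S, (∑ i ∈ I, if u ∈ W i then y i else 0) ^ 2) := by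
    rw [hQ']
    exact Finset.sum_mul_sq_le_sq_mul_sq _ _ _
  rw [sum_sq_fam I W S hW] at hCS
  have hd := double_sum_le I W A c hc0 hA hc y
  have hX0 : 0 ≤ ∑ u ∈ S, x u ^ 2 := Finset.sum_nonneg (fun i _ => sq_nonneg _)
  have h3 : Q ^ 2 ≤ (∑ u ∈ S, x u ^ 2) * ((A + c * I.card) * Q) := by
    refine hCS.trans (mul_le_mul_of_nonneg_left ?_ hX0)
    refine hd.trans (le_of_eq ?_)
    rw [← hQ]; ring
  rcases hQ0.eq_or_lt with h0 | hpos
  · rw [← h0]
    have h5 : 0 ≤ (I.card : ℝ) := Nat.cast_nonneg _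
    exact mul_nonneg (add_nonneg hA0 (mul_nonneg hc0 h5)) hX0
  · have h4 : Q * Q ≤ ((A + c * I.card) * ∑ u ∈ S, x u ^ 2) * Q := by
      calc Q * Q = Q ^ 2 := by ring
        _ ≤ _ := h3
        _ = _ := by ring
    exact le_of_mul_le_mul_right h4 hpos

/-- **Few large sets.** -/
theorem fam_count (I : Finset ι) (W : ι → Finset α) (S : Finset α) (hW : ∀ i ∈ I, W i ⊆ S)
    (τ : ℝ) (hτ0 : 0 < τ) (hτ : ∀ i ∈ I, τ ≤ ((W i).card : ℝ)) (hS : 4 * (S.card : ℝ) ≤ τ ^ 2)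
    (hc : ∀ i ∈ I, ∀ j ∈ I, i ≠ j → ((W i ∩ W j).card : ℝ) ≤ 2) :
    (I.card : ℝ) * τ ≤ 2 * S.card := by
  set s : ℝ := ∑ i ∈ I, ((W i).card : ℝ) with hs
  have hs0 : 0 ≤ s := Finset.sum_nonneg (fun i _ => Nat.cast_nonneg _)
  have hMs : (I.card : ℝ) * τ ≤ s := by
    rw [hs, ← nsmul_eq_mul, ← Finset.sum_const]
    exact Finset.sum_le_sum hτ
  have h1 : s = ∑ u ∈ S, ∑ i ∈ I, if u ∈ W i then (1 : ℝ) else 0 := by
    rw [Finset.sum_comm, hs]
    apply Finset.sum_congr rfl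
    intro i hi
    rw [← Finset.sum_filter, Finset.sum_const, nsmul_eq_mul, mul_one]
    congr 2
    ext u
    rw [Finset.mem_filter]
    exact ⟨fun h => ⟨hW i hi h, h⟩, fun h => h.2⟩
  have h2 : s ^ 2 ≤ S.card * ∑ u ∈ S, (∑ i ∈ I, if u ∈ W i then (1 : ℝ) else 0) ^ 2 := by
    rw [h1]
    exact sq_sum_le_card_mul_sum_sq
  rw [sum_sq_fam I W S hW (fun _ => (1 : ℝ))] at h2
  have h3 : ∑ i ∈ I, ∑ j ∈ I, (1 : ℝ) * 1 * ((W i ∩ W j).card : ℝ)
      ≤ s + 2 * (I.card : ℝ) ^ 2 := by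
    have h4 : ∀ i ∈ I, ∀ j ∈ I, (1 : ℝ) * 1 * ((W i ∩ W j).card : ℝ) ≤
        (if i = j then ((W i).card : ℝ) else 0) + 2 := by
      intro i hi j hj
      by_cases hij : i = j
      · subst hij
        rw [if_pos rfl, Finset.inter_self]
        linarith
      · rw [if_neg hij, zero_add]
        have := hc i hi j hj hij
        linarith
    refine (Finset.sum_le_sum (fun i hi => Finset.sum_le_sum (fun j hj => h4 i hi j hj))).trans ?_
    simp only [Finset.sum_add_distrib, Finset.sum_ite_eq, Finset.sum_const, nsmul_eq_mul]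
    have h5 : ∑ i ∈ I, (if i ∈ I then ((W i).card : ℝ) else 0) = s := by
      rw [hs]
      apply Finset.sum_congr rfl
      intro i hi
      rw [if_pos hi]
    rw [h5]
    apply le_of_eq
    ring
  have hS0 : (0 : ℝ) ≤ S.card := Nat.cast_nonneg _
  have h6 : s ^ 2 ≤ S.card * (s + 2 * (I.card : ℝ) ^ 2) :=
    h2.trans (mul_le_mul_of_nonneg_left h3 hS0)
  have h7 : S.card * (2 * (I.card : ℝ) ^ 2) ≤ s ^ 2 / 2 := by
    have h8 : (I.card : ℝ) ^ 2 * τ ^ 2 ≤ s ^ 2 := by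
      rw [← mul_pow]
      exact pow_le_pow_left₀ (mul_nonneg (Nat.cast_nonneg _) hτ0.le) hMs 2
    have h9 : (I.card : ℝ) ^ 2 * (4 * S.card) ≤ (I.card : ℝ) ^ 2 * τ ^ 2 :=
      mul_le_mul_of_nonneg_left hS (sq_nonneg _)
    nlinarith
  have h10 : s ^ 2 ≤ 2 * S.card * s := by nlinarith
  have h11 : s ≤ 2 * S.card := by
    rcases hs0.eq_or_lt with h0 | hpos
    · linarith
    · have : s * s ≤ 2 * S.card * s := by rw [← sq]; exact h10
      exact le_of_mul_le_mul_right this hpos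
  exact hMs.trans h11

end

end Run7.h894
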