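import Pool.Agent.Run7.h894.Rip

/-!
# The restricted isometry property of `Phi`: conclusion
-/

namespace Run7.h894

theorem one_lt_log {p : ℝ} (hp : 3 ≤ p) : 1 < Real.log p := by
  have h1 : Real.exp 1 < p := lt_of_lt_of_le Real.exp_one_lt_d9 (by linarith)
  have h2 := Real.log_lt_log (Real.exp_pos 1) h1
  rwa [Real.log_exp] at h2

/-- the numerical inequality -/
theorem numeric (p m L A : ℝ) (hp : 3 ≤ p) (hm1 : 1 ≤ m) (hL1 : 1 ≤ L)
    (h : 10 ^ 16 * (m * L * (Real.log p) ^ 4) ≤ p ^ 2) (hA : 30 * A ≤ p) (J : ℝ)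
    (hJ : J ≤ Real.log m + 1) :
    p * m + p ^ 2 * (A + (2 * A + 4 * Real.sqrt (L * m) +
        5 * (J + 1) * (120000 * (1 + Real.log m)) * (2 * Real.sqrt (L * m)))) ≤
      3 / 5 * (p ^ 2 * (p - 1)) := by
  have hℓ := one_lt_log hp
  set ℓ := Real.log p with hℓdef
  have hℓ4 : 1 ≤ ℓ ^ 4 := one_le_pow₀ hℓ.le
  have hmL : 0 ≤ m * L := mul_nonneg (by linarith) (by linarith)
  have h1 : m ≤ m * L * ℓ ^ 4 := by
    have h2 : m ≤ m * L := le_mul_of_one_le_right (by linarith) hL1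
    exact h2.trans (le_mul_of_one_le_right hmL hℓ4)
  have hm2 : m ≤ p ^ 2 / 10 ^ 16 := by linarith
  have hmp : m ≤ p ^ 2 := by nlinarith
  have hlogm : Real.log m ≤ 2 * ℓ := by
    have h2 := Real.log_le_log (by linarith) hmp
    rw [Real.log_pow] at h2
    exact_mod_cast h2
  have hlogm0 : 0 ≤ Real.log m := Real.log_nonneg hm1
  set r := Real.sqrt (L * m) with hr
  have hr0 : 0 ≤ r := Real.sqrt_nonneg _
  have hrr : r ^ 2 = L * m := Real.sq_sqrt (by nlinarith)
  have hrl : ℓ ^ 2 * r ≤ p / 10 ^ 8 := by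
    have h3 : (ℓ ^ 2 * r) ^ 2 ≤ (p / 10 ^ 8) ^ 2 := by
      have h4 : (ℓ ^ 2 * r) ^ 2 = m * L * ℓ ^ 4 := by
        rw [mul_pow, hrr]; ring
      rw [h4]
      have h5 : (p / 10 ^ 8) ^ 2 = p ^ 2 / 10 ^ 16 := by ring
      rw [h5]
      linarith
    exact le_of_sq_le_sq h3 (by positivity)
  have hr1 : r ≤ ℓ ^ 2 * r := le_mul_of_one_le_left hr0 (one_le_pow₀ hℓ.le)
  have h6 : (J + 1) * (1 + Real.log m) ≤ 12 * ℓ ^ 2 := by
    have h7 : J + 1 ≤ 4 * ℓ := by linarith
    have h8 : 1 + Real.log m ≤ 3 * ℓ := by linarith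
    calc (J + 1) * (1 + Real.log m) ≤ (4 * ℓ) * (3 * ℓ) :=
          mul_le_mul h7 h8 (by linarith) (by linarith)
      _ = 12 * ℓ ^ 2 := by ring
  have h9 : 5 * (J + 1) * (120000 * (1 + Real.log m)) * (2 * r) ≤ 14400000 * (ℓ ^ 2 * r) := by
    have h10 := mul_le_mul_of_nonneg_right h6 hr0
    nlinarith
  have h11 : A + (2 * A + 4 * r + 5 * (J + 1) * (120000 * (1 + Real.log m)) * (2 * r)) ≤
      p / 10 + 4 * (p / 10 ^ 8) + 14400000 * (p / 10 ^ 8) := by
    linarith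
  have h12 : p * m ≤ p * (p ^ 2 / 10 ^ 16) := mul_le_mul_of_nonneg_left hm2 (by linarith)
  have h13 := mul_le_mul_of_nonneg_left h11 (sq_nonneg p)
  have h14 : 3 * p ^ 2 ≤ p ^ 3 := by nlinarith [sq_nonneg p]
  calc _ ≤ p * (p ^ 2 / 10 ^ 16) +
        p ^ 2 * (p / 10 + 4 * (p / 10 ^ 8) + 14400000 * (p / 10 ^ 8)) := add_le_add h12 h13
    _ = p ^ 3 * (1 / 10 ^ 16 + 1 / 10 + 4 / 10 ^ 8 + 14400000 / 10 ^ 8) := by ring
    _ ≤ p ^ 3 * (2 / 5) := by
        apply mul_le_mul_of_nonneg_left _ (by positivity)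
        norm_num
    _ ≤ 3 / 5 * (p ^ 2 * (p - 1)) := by nlinarith
  
theorem supp_empty {D : Type*} [Fintype D] {x : D → ℂ} (h : (supp x).card = 0) (j : D) :
    x j = 0 := by
  classical
  by_contra hne
  have : j ∈ supp x := by
    unfold supp
    rw [Finset.mem_filter]
    exact ⟨Finset.mem_univ _, hne⟩
  rw [Finset.card_eq_zero.mp h] at this
  simp at this

/-- **The matrix `Phi` has the restricted isometry property.** -/
theorem rip_phi (p : ℕ) [Fact p.Prime] (hp : p ≠ 2) (ν : ZMod p) (hν : ¬ IsSquare ν)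
    (L A m : ℕ) (hL1 : 1 ≤ L) (hL : L ≤ p) (hA : 30 * A ≤ p)
    (hm : (10 : ℝ) ^ 16 * (m * L * (Real.log p) ^ 4) ≤ (p : ℝ) ^ 2) :
    HasRIP m (Phi p ν L A) := by
  have hp3 : 3 ≤ p := by
    have := (Fact.out : p.Prime).two_le
    omega
  have hp3' : (3 : ℝ) ≤ p := by exact_mod_cast hp3
  set g : ℝ := (p : ℝ) ^ 2 * (p - 1) with hg
  have hg0 : 0 < g := by
    rw [hg]
    have : (0 : ℝ) < p - 1 := by linarith
    positivity
  have hs2 : (1 / Real.sqrt (2 / 5 * g)) ^ 2 = 1 / (2 / 5 * g) := by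
    rw [div_pow, one_pow, Real.sq_sqrt (by positivity)]
  refine ⟨1 / Real.sqrt (2 / 5 * g), by positivity, ?_⟩
  intro x hx
  have hkey : |∑ i, ‖∑ j, Phi p ν L A i j * x j‖ ^ 2 - g * ∑ j, ‖x j‖ ^ 2| ≤
      3 / 5 * g * ∑ j, ‖x j‖ ^ 2 := by
    rcases Nat.eq_zero_or_pos (supp x).card with h0 | hpos
    · have h1 := supp_empty h0
      have h2 : ∀ i, ∑ j, Phi p ν L A i j * x j = 0 := by
        intro i
        apply Finset.sum_eq_zero
        intro j _
        rw [h1, mul_zero]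
      have h3 : ∑ j, ‖x j‖ ^ 2 = 0 := by
        apply Finset.sum_eq_zero
        intro j _
        rw [h1, norm_zero]
        norm_num
      have h4 : ∑ i, ‖∑ j, Phi p ν L A i j * x j‖ ^ 2 = 0 := by
        apply Finset.sum_eq_zero
        intro i _
        rw [h2, norm_zero]
        norm_num
      rw [h3, h4]
      simp
    · set n := (supp x).card with hn
      have hn1 : (1 : ℝ) ≤ n := by exact_mod_cast hpos
      have hnm : (n : ℝ) ≤ m := by exact_mod_cast hx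
      have hL1' : (1 : ℝ) ≤ L := by exact_mod_cast hL1
      have hℓ := one_lt_log hp3'
      have hcond : (10 : ℝ) ^ 16 * (n * L * (Real.log p) ^ 4) ≤ (p : ℝ) ^ 2 := by
        refine le_trans ?_ hm
        have h5 : (n : ℝ) * (L * (Real.log p) ^ 4) ≤ m * (L * (Real.log p) ^ 4) :=
          mul_le_mul_of_nonneg_right hnm (by positivity)
        nlinarith
      have hnp : (n : ℝ) ≤ (p : ℝ) ^ 2 := by
        have hℓ4 : 1 ≤ (Real.log p) ^ 4 := one_le_pow₀ hℓ.le
        have h2 : (n : ℝ) ≤ n * L := le_mul_of_one_le_right (by linarith) hL1'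
        have h3 : (n : ℝ) ≤ n * L * (Real.log p) ^ 4 :=
          h2.trans (le_mul_of_one_le_right (by positivity) hℓ4)
        nlinarith
      have hsq : Real.sqrt n ≤ p := by
        rw [Real.sqrt_le_left (by positivity)]
        exact hnp
      have hJ : (n : ℝ) ≤ 4 ^ (Nat.log 4 n + 1) := by
        have := Nat.lt_pow_succ_log_self (b := 4) (by norm_num) n
        exact_mod_cast this.le
      have hJ' : ((Nat.log 4 n + 1 : ℕ) : ℝ) ≤ Real.log n + 1 := by
        have h5 : 4 ^ (Nat.log 4 n) ≤ n := Nat.pow_log_le_self 4 (by omega)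
        have h6 : ((4 : ℝ) ^ (Nat.log 4 n)) ≤ n := by exact_mod_cast h5
        have h7 := Real.log_le_log (by positivity) h6
        rw [Real.log_pow] at h7
        have h8 : 1 < Real.log 4 := one_lt_log (by norm_num)
        have h9 : (Nat.log 4 n : ℝ) ≤ Nat.log 4 n * Real.log 4 :=
          le_mul_of_one_le_right (Nat.cast_nonneg _) h8.le
        push_cast
        linarith
      have hA' : 30 * (A : ℝ) ≤ p := by exact_mod_cast hA
      have hb := main_bound hp hL (by omega) ν hν x n hpos le_rfl hsq (Nat.log 4 n + 1) hJ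
      have hnum := numeric p n L A hp3' hn1 hL1' hcond hA' ((Nat.log 4 n + 1 : ℕ) : ℝ)
        hJ'
      refine hb.trans (mul_le_mul_of_nonneg_right ?_ (Finset.sum_nonneg (fun _ _ => sq_nonneg _)))
      rw [hg]
      exact hnum
  have habs := abs_le.mp hkey
  have hnorm : ∀ i, ‖((1 / Real.sqrt (2 / 5 * g) : ℝ) : ℂ) * ∑ j, Phi p ν L A i j * x j‖ ^ 2 =
      1 / (2 / 5 * g) * ‖∑ j, Phi p ν L A i j * x j‖ ^ 2 := by
    intro i
    rw [norm_mul, mul_pow, Complex.norm_real, Real.norm_eq_abs, sq_abs, hs2]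
  rw [Finset.sum_congr rfl (fun i _ => hnorm i), ← Finset.mul_sum]
  set N := ∑ i, ‖∑ j, Phi p ν L A i j * x j‖ ^ 2 with hN
  set X := ∑ j, ‖x j‖ ^ 2 with hX
  constructor
  · rw [div_mul_eq_mul_div, one_mul, le_div_iff₀ (by positivity)]
    linarith [habs.1]
  · rw [div_mul_eq_mul_div, one_mul, div_le_iff₀ (by positivity)]
    linarith [habs.2]

end Run7.h894
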