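import Pool.Agent.Run7.h894.Stm

/-!
# The Gram matrix (piece P8)
-/

namespace Run7.h894

open ZMod

section

variable {p : ℕ} [Fact p.Prime]

theorem prim : (ZMod.stdAddChar (N := p) : AddChar (ZMod p) ℂ).IsPrimitive :=
  ZMod.isPrimitive_stdAddChar p

theorem sum_lin (b : ZMod p) :
    ∑ x : ZMod p, (ZMod.stdAddChar (x * b) : ℂ) = if b = 0 then (p : ℂ) else 0 := by
  classical
  rw [AddChar.sum_mulShift b (prim (p := p)), ZMod.card]
  split_ifs <;> simp

/-- the quadratic Gauss sum -/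
noncomputable def GS (s : ZMod p) : ℂ := ∑ x : ZMod p, ZMod.stdAddChar (s * x ^ 2)

theorem GS_mul_neg (hp : p ≠ 2) (s : ZMod p) (hs : s ≠ 0) : GS s * GS (-s) = p := by
  classical
  have h2 : (2 : ZMod p) ≠ 0 := by
    intro h
    have h' : ((2 : ℕ) : ZMod p) = 0 := by exact_mod_cast h
    rw [ZMod.natCast_eq_zero_iff] at h'
    have := (Nat.prime_dvd_prime_iff_eq (Fact.out : p.Prime) Nat.prime_two).mp h'
    exact hp this
  unfold GS
  rw [Finset.sum_mul_sum, ← Finset.sum_product', Finset.univ_product_univ]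
  let e : ZMod p × ZMod p ≃ ZMod p × ZMod p :=
    { toFun := fun z => (z.1 - z.2, z.1 + z.2)
      invFun := fun z => ((z.1 + z.2) / 2, (z.2 - z.1) / 2)
      left_inv := by
        intro z
        refine Prod.ext ?_ ?_
        · field_simp; ring
        · field_simp; ring
      right_inv := by
        intro z
        refine Prod.ext ?_ ?_
        · field_simp; ring
        · field_simp; ring }
  have h1 : ∀ z : ZMod p × ZMod p,
      (ZMod.stdAddChar (s * z.1 ^ 2) : ℂ) * ZMod.stdAddChar (-s * z.2 ^ 2)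
      = (fun w : ZMod p × ZMod p => (ZMod.stdAddChar (w.1 * (s * w.2)) : ℂ)) (e z) := by
    intro z
    rw [← AddChar.map_add_eq_mul]
    congr 1
    simp only [e, Equiv.coe_fn_mk]
    ring
  rw [Finset.sum_congr rfl (fun z _ => h1 z),
    Equiv.sum_comp e (fun w : ZMod p × ZMod p => (ZMod.stdAddChar (w.1 * (s * w.2)) : ℂ)),
    Fintype.sum_prod_type_right]
  simp only [sum_lin]
  rw [Finset.sum_eq_single (0 : ZMod p)]
  · simp
  · intro y _ hy
    rw [if_neg (mul_ne_zero hs hy)]
  · intro h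
    exact absurd (Finset.mem_univ _) h

theorem GS_add (hp : p ≠ 2) (ν : ZMod p) (hν : ¬ IsSquare ν) (s : ZMod p) (hs : s ≠ 0) :
    GS s + GS (ν * s) = 0 := by
  classical
  have hν0 : ν ≠ 0 := by
    rintro rfl
    exact hν ⟨0, by simp⟩
  have hchar : ringChar (ZMod p) ≠ 2 := by
    rw [ZMod.ringChar_zmod_n]; exact hp
  have h1 : ∀ c : ZMod p, GS (c * s) = ∑ w : ZMod p,
      ((Finset.univ.filter (fun x : ZMod p => c * x ^ 2 = w)).card : ℂ)
        * ZMod.stdAddChar (s * w) := by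
    intro c
    unfold GS
    rw [← Finset.sum_fiberwise (s := Finset.univ) (g := fun x : ZMod p => c * x ^ 2)]
    apply Finset.sum_congr rfl
    intro w _
    rw [← nsmul_eq_mul, ← Finset.sum_const]
    apply Finset.sum_congr rfl
    intro x hx
    rw [Finset.mem_filter] at hx
    rw [← hx.2]
    congr 1
    ring
  have h2 : ∀ w : ZMod p,
      ((Finset.univ.filter (fun x : ZMod p => (1 : ZMod p) * x ^ 2 = w)).card : ℤ)
      + ((Finset.univ.filter (fun x : ZMod p => ν * x ^ 2 = w)).card : ℤ) = 2 := by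
    intro w
    have h3 := quadraticChar_card_sqrts hchar w
    have h4 := quadraticChar_card_sqrts hchar (ν⁻¹ * w)
    have e3 : (Finset.univ.filter (fun x : ZMod p => (1 : ZMod p) * x ^ 2 = w))
        = {x : ZMod p | x ^ 2 = w}.toFinset := by
      ext x; simp
    have e4 : (Finset.univ.filter (fun x : ZMod p => ν * x ^ 2 = w))
        = {x : ZMod p | x ^ 2 = ν⁻¹ * w}.toFinset := by
      ext x
      simp only [Finset.mem_filter, Finset.mem_univ, true_and, Set.mem_toFinset,
        Set.mem_ofPred_eq]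
      constructor
      · intro h
        rw [← h, ← mul_assoc, inv_mul_cancel₀ hν0, one_mul]
      · intro h
        rw [h, ← mul_assoc, mul_inv_cancel₀ hν0, one_mul]
    rw [e3, e4, h3, h4, map_mul]
    have h5 : quadraticChar (ZMod p) ν⁻¹ = -1 := by
      rw [quadraticChar_neg_one_iff_not_isSquare]
      intro h
      exact hν (by simpa using h.inv)
    rw [h5]
    ring
  have h6 := h1 1
  rw [one_mul] at h6
  rw [h6, h1 ν, ← Finset.sum_add_distrib]
  have h7 : ∀ w : ZMod p,
      ((Finset.univ.filter (fun x : ZMod p => (1 : ZMod p) * x ^ 2 = w)).card : ℂ)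
        * ZMod.stdAddChar (s * w)
      + ((Finset.univ.filter (fun x : ZMod p => ν * x ^ 2 = w)).card : ℂ)
        * ZMod.stdAddChar (s * w) = 2 * ZMod.stdAddChar (w * s) := by
    intro w
    rw [← add_mul, mul_comm w s]
    congr 1
    exact_mod_cast h2 w
  rw [Finset.sum_congr rfl (fun w _ => h7 w), ← Finset.mul_sum, sum_lin, if_neg hs, mul_zero]

theorem GS_norm (hp : p ≠ 2) (ν : ZMod p) (hν : ¬ IsSquare ν) (s : ZMod p) (hs : s ≠ 0) :
    GS s * GS (-(ν * s)) = -p := by
  have h1 := GS_add hp ν hν (-s) (neg_ne_zero.mpr hs)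
  have h2 : ν * -s = -(ν * s) := by ring
  rw [h2] at h1
  have h3 : GS (-(ν * s)) = - GS (-s) := by linear_combination h1
  rw [h3, mul_neg, GS_mul_neg hp s hs]

theorem sum_units (b : ZMod p) :
    ∑ t : (ZMod p)ˣ, (ZMod.stdAddChar ((t : ZMod p) * b) : ℂ)
      = (if b = 0 then (p : ℂ) else 0) - 1 := by
  classical
  have h1 : ∑ x : ZMod p, (ZMod.stdAddChar (x * b) : ℂ) =
      ∑ t : (ZMod p)ˣ, (ZMod.stdAddChar ((t : ZMod p) * b) : ℂ) + 1 := by
    rw [← Finset.sum_erase_add _ _ (Finset.mem_univ (0 : ZMod p))]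
    congr 1
    · symm
      apply Finset.sum_bij (fun (t : (ZMod p)ˣ) _ => (t : ZMod p))
      · intro t _
        exact Finset.mem_erase.mpr ⟨t.ne_zero, Finset.mem_univ _⟩
      · intro t _ t' _ h
        exact Units.ext h
      · intro x hx
        exact ⟨Units.mk0 x (Finset.ne_of_mem_erase hx), Finset.mem_univ _, rfl⟩
      · intro t _
        rfl
    · simp
  rw [sum_lin] at h1
  rw [h1]
  ring

end

/-- **P8.** -/
theorem p8 : S_P8 := by
  classical
  intro p _ hp ν hν κ b₁ b₂ a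
  have hν0 : ν ≠ 0 := by
    rintro rfl
    exact hν ⟨0, by simp⟩
  have h2 : (2 : ZMod p) ≠ 0 := by
    intro h
    have h' : ((2 : ℕ) : ZMod p) = 0 := by exact_mod_cast h
    rw [ZMod.natCast_eq_zero_iff] at h'
    have := (Nat.prime_dvd_prime_iff_eq (Fact.out : p.Prime) Nat.prime_two).mp h'
    exact hp this
  have h4 : (4 : ZMod p) ≠ 0 := by
    have : (4 : ZMod p) = 2 * 2 := by norm_num
    rw [this]
    exact mul_ne_zero h2 h2
  rw [Fintype.sum_prod_type]
  by_cases hκ : κ = 0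
  · rw [if_pos hκ]
    have hin : ∀ t : (ZMod p)ˣ, ∑ z : ZMod p × ZMod p, (ZMod.stdAddChar
        ((t : ZMod p) * (κ * (z.1 ^ 2 - ν * z.2 ^ 2) + b₁ * z.1 + b₂ * z.2 + a)) : ℂ)
        = (if b₁ = 0 ∧ b₂ = 0 then (p : ℂ) ^ 2 else 0) * ZMod.stdAddChar ((t : ZMod p) * a) := by
      intro t
      rw [Fintype.sum_prod_type]
      have h5 : ∀ x y : ZMod p, (ZMod.stdAddChar
          ((t : ZMod p) * (κ * (x ^ 2 - ν * y ^ 2) + b₁ * x + b₂ * y + a)) : ℂ)
          = ZMod.stdAddChar (x * ((t : ZMod p) * b₁)) * (ZMod.stdAddChar (y * ((t : ZMod p) * b₂)) *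
            ZMod.stdAddChar ((t : ZMod p) * a)) := by
        intro x y
        rw [← AddChar.map_add_eq_mul, ← AddChar.map_add_eq_mul, hκ]
        congr 1
        ring
      simp only [h5]
      simp only [← Finset.mul_sum, ← Finset.sum_mul]
      rw [sum_lin, sum_lin]
      have ht : (t : ZMod p) ≠ 0 := t.ne_zero
      by_cases h6 : b₁ = 0
      · by_cases h7 : b₂ = 0
        · simp only [h6, h7, mul_zero, if_true, and_self]
          ring
        · have : (t : ZMod p) * b₂ ≠ 0 := mul_ne_zero ht h7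
          simp [h6, h7, this]
      · have : (t : ZMod p) * b₁ ≠ 0 := mul_ne_zero ht h6
        simp [h6, this]
    rw [Finset.sum_congr rfl (fun t _ => hin t), ← Finset.mul_sum, sum_units]
    by_cases h6 : b₁ = 0 ∧ b₂ = 0
    · rw [if_pos h6, if_pos h6]
      by_cases h7 : a = 0
      · rw [if_pos h7, if_pos h7]
      · rw [if_neg h7, if_neg h7]
        ring
    · rw [if_neg h6, if_neg h6, zero_mul]
  · rw [if_neg hκ]
    set D := a - b₁ ^ 2 / (4 * κ) + b₂ ^ 2 / (4 * κ * ν) with hD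
    have hin : ∀ t : (ZMod p)ˣ, ∑ z : ZMod p × ZMod p, (ZMod.stdAddChar
        ((t : ZMod p) * (κ * (z.1 ^ 2 - ν * z.2 ^ 2) + b₁ * z.1 + b₂ * z.2 + a)) : ℂ)
        = -(p : ℂ) * ZMod.stdAddChar ((t : ZMod p) * D) := by
      intro t
      have ht : (t : ZMod p) ≠ 0 := t.ne_zero
      rw [Fintype.sum_prod_type]
      have h5 : ∀ x y : ZMod p, (ZMod.stdAddChar
          ((t : ZMod p) * (κ * (x ^ 2 - ν * y ^ 2) + b₁ * x + b₂ * y + a)) : ℂ)
          = ZMod.stdAddChar (((t : ZMod p) * κ) * (x + b₁ / (2 * κ)) ^ 2) *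
            (ZMod.stdAddChar (-(ν * ((t : ZMod p) * κ)) * (y - b₂ / (2 * κ * ν)) ^ 2) *
            ZMod.stdAddChar ((t : ZMod p) * D)) := by
        intro x y
        rw [← AddChar.map_add_eq_mul, ← AddChar.map_add_eq_mul]
        congr 1
        rw [hD]
        field_simp
        ring
      simp only [h5]
      simp only [← Finset.mul_sum, ← Finset.sum_mul]
      have e1 : ∑ x : ZMod p, (ZMod.stdAddChar (((t : ZMod p) * κ) * (x + b₁ / (2 * κ)) ^ 2) : ℂ)
          = GS ((t : ZMod p) * κ) := by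
        unfold GS
        exact Equiv.sum_comp (Equiv.addRight (b₁ / (2 * κ)))
          (fun x => (ZMod.stdAddChar (((t : ZMod p) * κ) * x ^ 2) : ℂ))
      have e2 : ∑ y : ZMod p, (ZMod.stdAddChar (-(ν * ((t : ZMod p) * κ)) * (y - b₂ / (2 * κ * ν)) ^ 2) : ℂ)
          = GS (-(ν * ((t : ZMod p) * κ))) := by
        unfold GS
        exact Equiv.sum_comp (Equiv.subRight (b₂ / (2 * κ * ν)))
          (fun x => (ZMod.stdAddChar (-(ν * ((t : ZMod p) * κ)) * x ^ 2) : ℂ))
      rw [e1, e2, ← mul_assoc, GS_norm hp ν hν _ (mul_ne_zero ht hκ)]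
    rw [Finset.sum_congr rfl (fun t _ => hin t), ← Finset.mul_sum, sum_units]
    have hiff : D = 0 ↔ 4 * κ * a = b₁ ^ 2 - ν⁻¹ * b₂ ^ 2 := by
      have h5 : 4 * κ * D = 4 * κ * a - (b₁ ^ 2 - ν⁻¹ * b₂ ^ 2) := by
        rw [hD]
        field_simp
        ring
      constructor
      · intro h
        rw [h, mul_zero] at h5
        exact (sub_eq_zero.mp h5.symm)
      · intro h
        rw [h, sub_self] at h5
        rcases mul_eq_zero.mp h5 with h6 | h6
        · exact absurd h6 (mul_ne_zero h4 hκ)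
        · exact h6
    by_cases h6 : D = 0
    · rw [if_pos h6, if_pos (hiff.mp h6)]
      ring
    · rw [if_neg h6, if_neg (fun h => h6 (hiff.mpr h))]
      ring

end Run7.h894
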