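import Pool.Agent.Run7.h894.Total
import Pool.Agent.Run7.h894.Gauss

/-!
# The Gram expansion
-/

namespace Run7.h894

/-- the Gram expansion with a bound for the off-diagonal entries -/
theorem gram_bound {R D : Type*} [Fintype R] [Fintype D] [DecidableEq D] (Φ : Matrix R D ℂ)
    (g : ℝ) (N : D → D → ℝ)
    (hd : ∀ j, ∑ i, Φ i j * (starRingEnd ℂ) (Φ i j) = (g : ℂ))
    (ho : ∀ j j', j ≠ j' → ‖∑ i, Φ i j * (starRingEnd ℂ) (Φ i j')‖ ≤ N j j')
    (hN : ∀ j, 0 ≤ N j j) (x : D → ℂ) :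
    |∑ i, ‖∑ j, Φ i j * x j‖ ^ 2 - g * ∑ j, ‖x j‖ ^ 2| ≤
      ∑ j, ∑ j', N j j' * (‖x j‖ * ‖x j'‖) := by
  have h1 : ((∑ i, ‖∑ j, Φ i j * x j‖ ^ 2 : ℝ) : ℂ) =
      ∑ j, ∑ j', (∑ i, Φ i j * (starRingEnd ℂ) (Φ i j')) * (x j * (starRingEnd ℂ) (x j')) := by
    push_cast
    have h2 : ∀ i, ((‖∑ j, Φ i j * x j‖ : ℂ)) ^ 2 =
        ∑ j, ∑ j', (Φ i j * (starRingEnd ℂ) (Φ i j')) * (x j * (starRingEnd ℂ) (x j')) := by
      intro i
      rw [← Complex.mul_conj', map_sum, Finset.sum_mul_sum]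
      apply Finset.sum_congr rfl
      intro j _
      apply Finset.sum_congr rfl
      intro j' _
      rw [map_mul]
      ring
    rw [Finset.sum_congr rfl (fun i _ => h2 i), Finset.sum_comm]
    apply Finset.sum_congr rfl
    intro j _
    rw [Finset.sum_comm]
    apply Finset.sum_congr rfl
    intro j' _
    rw [Finset.sum_mul]
  have h3 : ((∑ i, ‖∑ j, Φ i j * x j‖ ^ 2 - g * ∑ j, ‖x j‖ ^ 2 : ℝ) : ℂ) =
      ∑ j, ∑ j', (if j = j' then 0 else
        (∑ i, Φ i j * (starRingEnd ℂ) (Φ i j')) * (x j * (starRingEnd ℂ) (x j'))) := by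
    rw [Complex.ofReal_sub, h1]
    have h4 : ((g * ∑ j, ‖x j‖ ^ 2 : ℝ) : ℂ) = ∑ j, ∑ j', (if j = j' then
        (∑ i, Φ i j * (starRingEnd ℂ) (Φ i j')) * (x j * (starRingEnd ℂ) (x j')) else 0) := by
      push_cast
      rw [Finset.mul_sum]
      apply Finset.sum_congr rfl
      intro j _
      rw [Finset.sum_ite_eq, if_pos (Finset.mem_univ _), hd j, Complex.mul_conj']
    rw [h4, ← Finset.sum_sub_distrib]
    apply Finset.sum_congr rfl
    intro j _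
    rw [← Finset.sum_sub_distrib]
    apply Finset.sum_congr rfl
    intro j' _
    split_ifs <;> simp
  have h5 : |∑ i, ‖∑ j, Φ i j * x j‖ ^ 2 - g * ∑ j, ‖x j‖ ^ 2| =
      ‖((∑ i, ‖∑ j, Φ i j * x j‖ ^ 2 - g * ∑ j, ‖x j‖ ^ 2 : ℝ) : ℂ)‖ := by
    rw [Complex.norm_real, Real.norm_eq_abs]
  rw [h5, h3]
  refine (norm_sum_le _ _).trans (Finset.sum_le_sum (fun j _ => ?_))
  refine (norm_sum_le _ _).trans (Finset.sum_le_sum (fun j' _ => ?_))
  by_cases h : j = j'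
  · rw [if_pos h, norm_zero, ← h]
    exact mul_nonneg (hN j) (by positivity)
  · rw [if_neg h, norm_mul, norm_mul, RCLike.norm_conj]
    exact mul_le_mul_of_nonneg_right (ho j j' h) (by positivity)

section

variable {p : ℕ} [Fact p.Prime]

/-- the fibre of a column -/
def fc {L A : ℕ} (j : Fin L × ZMod p × ZMod p × Fin A) : ZMod p := ((j.1 : ℕ) : ZMod p)

/-- the point of a column -/
def fu {L A : ℕ} (j : Fin L × ZMod p × ZMod p × Fin A) : (ZMod p × ZMod p) × ZMod p :=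
  ((j.2.1, j.2.2.1), ((j.2.2.2 : ℕ) : ZMod p))

theorem cast_fin_inj {n : ℕ} (hn : n ≤ p) {a b : Fin n}
    (h : ((a : ℕ) : ZMod p) = ((b : ℕ) : ZMod p)) : a = b := by
  have h1 := (ZMod.natCast_eq_natCast_iff _ _ _).mp h
  have ha := a.2
  have hb := b.2
  have h2 := Nat.ModEq.eq_of_lt_of_lt h1 (by omega) (by omega)
  exact Fin.ext h2

theorem col_inj {L A : ℕ} (hL : L ≤ p) (hA : A ≤ p) {j j' : Fin L × ZMod p × ZMod p × Fin A}
    (h1 : fc j = fc j') (h2 : fu j = fu j') : j = j' := by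
  unfold fc at h1
  unfold fu at h2
  have h3 : j.1 = j'.1 := cast_fin_inj hL h1
  have h4 := Prod.ext_iff.mp h2
  have h5 := Prod.ext_iff.mp h4.1
  have h6 : j.2.2.2 = j'.2.2.2 := cast_fin_inj hA h4.2
  exact Prod.ext h3 (Prod.ext h5.1 (Prod.ext h5.2 h6))

/-- the Gram matrix entry -/
theorem gram_entry {L A : ℕ} (ν : ZMod p) (j j' : Fin L × ZMod p × ZMod p × Fin A) :
    ∑ i, Phi p ν L A i j * (starRingEnd ℂ) (Phi p ν L A i j') =
    ∑ r : (ZMod p)ˣ × ZMod p × ZMod p, (ZMod.stdAddChar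
      ((r.1 : ZMod p) * ((fc j - fc j') * (r.2.1 ^ 2 - ν * r.2.2 ^ 2) +
        ((fu j).1.1 - (fu j').1.1) * r.2.1 + ((fu j).1.2 - (fu j').1.2) * r.2.2
        + ((fu j).2 - (fu j').2))) : ℂ) := by
  apply Finset.sum_congr rfl
  intro r _
  unfold Phi fc fu
  rw [← AddChar.map_neg_eq_conj, ← AddChar.map_add_eq_mul]
  congr 1
  ring

theorem gram_diag (hp : p ≠ 2) {L A : ℕ} (ν : ZMod p) (hν : ¬ IsSquare ν)
    (j : Fin L × ZMod p × ZMod p × Fin A) :
    ∑ i, Phi p ν L A i j * (starRingEnd ℂ) (Phi p ν L A i j) =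
      (((p : ℝ) ^ 2 * (p - 1) : ℝ) : ℂ) := by
  rw [gram_entry]
  simp only [sub_self]
  rw [p8 p hp ν hν]
  simp

open Classical in
theorem gram_off (hp : p ≠ 2) {L A : ℕ} (hL : L ≤ p) (hA : A ≤ p) (ν : ZMod p)
    (hν : ¬ IsSquare ν) (j j' : Fin L × ZMod p × ZMod p × Fin A) (hne : j ≠ j') :
    ‖∑ i, Phi p ν L A i j * (starRingEnd ℂ) (Phi p ν L A i j')‖ ≤
      (p : ℝ) + (p : ℝ) ^ 2 * ((if fc j ≠ fc j' ∧ NullR ν⁻¹ (fc j - fc j') (fu j) (fu j')
        then 1 else 0) + (if fc j = fc j' ∧ (fu j).1 = (fu j').1 then 1 else 0)) := by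
  have hp1 : (1 : ℝ) ≤ p := by exact_mod_cast (Fact.out : p.Prime).one_lt.le
  rw [gram_entry, p8 p hp ν hν]
  by_cases hκ : fc j = fc j'
  · rw [if_pos (sub_eq_zero.mpr hκ)]
    by_cases hb : (fu j).1 = (fu j').1
    · have hb1 : (fu j).1.1 - (fu j').1.1 = 0 ∧ (fu j).1.2 - (fu j').1.2 = 0 := by
        rw [hb]
        simp
      rw [if_pos hb1]
      have ha : ¬ ((fu j).2 - (fu j').2 = 0) := by
        intro h
        exact hne (col_inj hL hA hκ (Prod.ext hb (sub_eq_zero.mp h)))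
      rw [if_neg ha, if_neg (fun h => h.1 hκ), if_pos ⟨hκ, hb⟩, norm_neg, norm_pow,
        Complex.norm_natCast]
      nlinarith
    · have hb1 : ¬ ((fu j).1.1 - (fu j').1.1 = 0 ∧ (fu j).1.2 - (fu j').1.2 = 0) := by
        intro h
        exact hb (Prod.ext (sub_eq_zero.mp h.1) (sub_eq_zero.mp h.2))
      rw [if_neg hb1, if_neg (fun h => h.1 hκ), if_neg (fun h => hb h.2), norm_zero]
      positivity
  · rw [if_neg (fun h => hκ (sub_eq_zero.mp h))]
    by_cases hn : NullR ν⁻¹ (fc j - fc j') (fu j) (fu j')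
    · have hn' : 4 * (fc j - fc j') * ((fu j).2 - (fu j').2) =
        ((fu j).1.1 - (fu j').1.1) ^ 2 - ν⁻¹ * ((fu j).1.2 - (fu j').1.2) ^ 2 := by
        have := hn
        unfold NullR nrm at this
        simpa using this
      rw [if_pos hn', if_pos ⟨hκ, hn⟩, if_neg (fun h => hκ h.1)]
      have h7 : ((p : ℂ) - (p : ℂ) ^ 2) = (((p : ℝ) - (p : ℝ) ^ 2 : ℝ) : ℂ) := by
        push_cast
        rfl
      rw [h7, Complex.norm_real, Real.norm_eq_abs, abs_le]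
      constructor <;> nlinarith
    · have hn' : ¬ (4 * (fc j - fc j') * ((fu j).2 - (fu j').2) =
        ((fu j).1.1 - (fu j').1.1) ^ 2 - ν⁻¹ * ((fu j).1.2 - (fu j').1.2) ^ 2) := by
        intro h
        apply hn
        unfold NullR nrm
        simpa using h
      rw [if_neg hn', if_neg (fun h => hn h.2), if_neg (fun h => hκ h.1), Complex.norm_natCast]
      linarith

end

end Run7.h894
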