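import Mathlib

/-!
# Numbers of edges between finite sets, the densest pair, layers
-/

namespace Run7.h894

open Classical in
/-- number of edges of the bipartite graph `G` between `X` and `Z` -/
noncomputable def eG {α β : Type*} (G : α → β → Prop) (X : Finset α) (Z : Finset β) : ℕ :=
  ((X ×ˢ Z).filter (fun e => G e.1 e.2)).card

section

variable {α β : Type*} (G : α → β → Prop)

open Classical in
theorem eG_left (X : Finset α) (Z : Finset β) :
    eG G X Z = ∑ x ∈ X, (Z.filter (fun b => G x b)).card := by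
  unfold eG
  rw [Finset.card_filter, Finset.sum_product]
  apply Finset.sum_congr rfl
  intro x _
  rw [Finset.card_filter]

open Classical in
theorem eG_right (X : Finset α) (Z : Finset β) :
    eG G X Z = ∑ b ∈ Z, (X.filter (fun x => G x b)).card := by
  unfold eG
  rw [Finset.card_filter, Finset.sum_product_right]
  apply Finset.sum_congr rfl
  intro x _
  rw [Finset.card_filter]

open Classical in
theorem eG_le_mul (X : Finset α) (Z : Finset β) : eG G X Z ≤ X.card * Z.card := by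
  unfold eG
  exact (Finset.card_filter_le _ _).trans (Finset.card_product _ _).le

theorem eG_empty_left (Z : Finset β) : eG G (∅ : Finset α) Z = 0 := by
  rw [eG_left]; simp

theorem eG_empty_right (X : Finset α) : eG G X (∅ : Finset β) = 0 := by
  rw [eG_right]; simp

theorem eG_split_left [DecidableEq α] (X X' : Finset α) (Z : Finset β) (h : X' ⊆ X) :
    eG G X Z = eG G (X \ X') Z + eG G X' Z := by
  rw [eG_left, eG_left, eG_left, Finset.sum_sdiff h]

theorem eG_split_right [DecidableEq β] (X : Finset α) (Z Z' : Finset β) (h : Z' ⊆ Z) :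
    eG G X Z = eG G X (Z \ Z') + eG G X Z' := by
  rw [eG_right, eG_right, eG_right, Finset.sum_sdiff h]

open Classical in
theorem eG_mono (X X' : Finset α) (Z Z' : Finset β) (h : X' ⊆ X) (h' : Z' ⊆ Z) :
    eG G X' Z' ≤ eG G X Z := by
  unfold eG
  apply Finset.card_le_card
  apply Finset.filter_subset_filter
  exact Finset.product_subset_product h h'

/-- **The densest pair.** -/
theorem exists_densest (R : Finset α) (B : Finset β) (Λ₀ : ℝ) (hΛ₀ : 0 ≤ Λ₀)
    (h : ∃ X ⊆ R, ∃ Z ⊆ B, Λ₀ * Real.sqrt (X.card * Z.card) < eG G X Z) :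
    ∃ Λ : ℝ, Λ₀ < Λ ∧ ∃ X ⊆ R, ∃ Z ⊆ B, X.Nonempty ∧ Z.Nonempty ∧
      (eG G X Z : ℝ) = Λ * Real.sqrt (X.card * Z.card) ∧
      ∀ X' ⊆ R, ∀ Z' ⊆ B, (eG G X' Z' : ℝ) ≤ Λ * Real.sqrt (X'.card * Z'.card) := by
  classical
  obtain ⟨X₁, hX₁, Z₁, hZ₁, h₁⟩ := h
  let P : Finset (Finset α × Finset β) :=
    (R.powerset ×ˢ B.powerset).filter (fun q => q.1.Nonempty ∧ q.2.Nonempty)
  have hne : ∀ X : Finset α, ∀ Z : Finset β, 0 < (eG G X Z : ℝ) → X.Nonempty ∧ Z.Nonempty := by
    intro X Z hXZ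
    refine ⟨?_, ?_⟩
    · rw [Finset.nonempty_iff_ne_empty]
      rintro rfl
      rw [eG_empty_left] at hXZ
      simp at hXZ
    · rw [Finset.nonempty_iff_ne_empty]
      rintro rfl
      rw [eG_empty_right] at hXZ
      simp at hXZ
  have hpos₁ : 0 < (eG G X₁ Z₁ : ℝ) := lt_of_le_of_lt (by positivity) h₁
  have hmem₁ : (X₁, Z₁) ∈ P := by
    simp only [P, Finset.mem_filter, Finset.mem_product, Finset.mem_powerset]
    exact ⟨⟨hX₁, hZ₁⟩, hne _ _ hpos₁⟩
  obtain ⟨q, hq, hmax⟩ := P.exists_max_image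
    (fun q => (eG G q.1 q.2 : ℝ) / Real.sqrt (q.1.card * q.2.card)) ⟨_, hmem₁⟩
  have hq' := hq
  simp only [P, Finset.mem_filter, Finset.mem_product, Finset.mem_powerset] at hq'
  have hs : ∀ X : Finset α, ∀ Z : Finset β, X.Nonempty → Z.Nonempty →
      0 < Real.sqrt (X.card * Z.card) := by
    intro X Z hX hZ
    apply Real.sqrt_pos.mpr
    have h1 : (0 : ℝ) < X.card := by exact_mod_cast hX.card_pos
    have h2 : (0 : ℝ) < Z.card := by exact_mod_cast hZ.card_pos
    positivity
  have hn₁ := hne _ _ hpos₁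
  refine ⟨(eG G q.1 q.2 : ℝ) / Real.sqrt (q.1.card * q.2.card), ?_, q.1, hq'.1.1, q.2, hq'.1.2,
    hq'.2.1, hq'.2.2, ?_, ?_⟩
  · refine lt_of_lt_of_le ?_ (hmax _ hmem₁)
    rw [lt_div_iff₀ (hs _ _ hn₁.1 hn₁.2)]
    exact h₁
  · rw [div_mul_cancel₀ _ (hs _ _ hq'.2.1 hq'.2.2).ne']
  · intro X' hX' Z' hZ'
    by_cases hXZ : X'.Nonempty ∧ Z'.Nonempty
    · have := hmax (X', Z') (by
        simp only [P, Finset.mem_filter, Finset.mem_product, Finset.mem_powerset]
        exact ⟨⟨hX', hZ'⟩, hXZ⟩)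
      rw [div_le_iff₀ (hs _ _ hXZ.1 hXZ.2)] at this
      exact this
    · have h0 : ¬ 0 < (eG G X' Z' : ℝ) := fun h => hXZ (hne _ _ h)
      refine (not_lt.mp h0).trans ?_
      apply mul_nonneg
      · apply div_nonneg (Nat.cast_nonneg _) (Real.sqrt_nonneg _)
      · exact Real.sqrt_nonneg _

theorem sqrt_pred {x : ℝ} (z : ℝ) (hx : 1 ≤ x) (hz : 0 ≤ z) :
    Real.sqrt ((x - 1) * z) ≤ Real.sqrt (x * z) * (1 - 1 / (2 * x)) := by
  have hx0 : 0 < x := by linarith
  have h1 : 0 ≤ 1 - 1 / (2 * x) := by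
    rw [sub_nonneg, div_le_one (by positivity)]
    linarith
  rw [Real.sqrt_le_left (by positivity)]
  rw [mul_pow, Real.sq_sqrt (by positivity)]
  have h2 : (1 - 1 / (2 * x)) ^ 2 = 1 - 1 / x + 1 / (4 * x ^ 2) := by
    field_simp
    ring
  rw [h2]
  have h3 : x * z * (1 - 1 / x + 1 / (4 * x ^ 2)) = (x - 1) * z + z / (4 * x) := by
    field_simp
  rw [h3]
  have : 0 ≤ z / (4 * x) := by positivity
  linarith

open Classical in
/-- the degrees in the densest pair are large (left). -/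
theorem deg_left {Λ : ℝ} (hΛ : 0 ≤ Λ) {R : Finset α} {B : Finset β} {X : Finset α}
    {Z : Finset β} (hX : X ⊆ R) (hZ : Z ⊆ B)
    (he : (eG G X Z : ℝ) = Λ * Real.sqrt (X.card * Z.card))
    (hmax : ∀ X' ⊆ R, ∀ Z' ⊆ B, (eG G X' Z' : ℝ) ≤ Λ * Real.sqrt (X'.card * Z'.card))
    (x : α) (hx : x ∈ X) :
    Λ * Real.sqrt (X.card * Z.card) / (2 * X.card) ≤ (Z.filter (fun b => G x b)).card := by
  have h1 : eG G X Z = eG G (X \ {x}) Z + eG G {x} Z :=
    eG_split_left G X {x} Z (by simpa using hx)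
  have h2 : eG G {x} Z = (Z.filter (fun b => G x b)).card := by
    rw [eG_left]; simp
  have h3 := hmax (X \ {x}) ((Finset.sdiff_subset).trans hX) Z hZ
  have hcard : ((X \ {x}).card : ℝ) = X.card - 1 := by
    have h4 : (X \ {x}).card = X.card - 1 := by
      rw [Finset.card_sdiff_of_subset (by simpa using hx)]
      simp
    rw [h4]
    have : 1 ≤ X.card := Finset.card_pos.mpr ⟨x, hx⟩
    push_cast [Nat.cast_sub this]
    ring
  have hx1 : (1 : ℝ) ≤ X.card := by
    have : 1 ≤ X.card := Finset.card_pos.mpr ⟨x, hx⟩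
    exact_mod_cast this
  rw [hcard] at h3
  have h5 := sqrt_pred (Z.card : ℝ) hx1 (Nat.cast_nonneg _)
  have h6 : Λ * Real.sqrt (((X.card : ℝ) - 1) * Z.card) ≤
      Λ * (Real.sqrt (X.card * Z.card) * (1 - 1 / (2 * X.card))) :=
    mul_le_mul_of_nonneg_left h5 hΛ
  have h7 : (eG G X Z : ℝ) = (eG G (X \ {x}) Z : ℝ) + (Z.filter (fun b => G x b)).card := by
    rw [h1, h2]; push_cast; ring
  have h8 : Λ * (Real.sqrt (X.card * Z.card) * (1 - 1 / (2 * X.card)))
      = Λ * Real.sqrt (X.card * Z.card) - Λ * Real.sqrt (X.card * Z.card) / (2 * X.card) := by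
    field_simp
  linarith

theorem eG_swap (X : Finset α) (Z : Finset β) : eG (fun b a => G a b) Z X = eG G X Z := by
  classical
  rw [eG_left, eG_right]

open Classical in
/-- the degrees in the densest pair are large (right). -/
theorem deg_right {Λ : ℝ} (hΛ : 0 ≤ Λ) {R : Finset α} {B : Finset β} {X : Finset α}
    {Z : Finset β} (hX : X ⊆ R) (hZ : Z ⊆ B)
    (he : (eG G X Z : ℝ) = Λ * Real.sqrt (X.card * Z.card))
    (hmax : ∀ X' ⊆ R, ∀ Z' ⊆ B, (eG G X' Z' : ℝ) ≤ Λ * Real.sqrt (X'.card * Z'.card))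
    (b : β) (hb : b ∈ Z) :
    Λ * Real.sqrt (X.card * Z.card) / (2 * Z.card) ≤ (X.filter (fun a => G a b)).card := by
  have := deg_left (fun b a => G a b) hΛ hZ hX (by rw [eG_swap, he, mul_comm (X.card : ℝ)])
    (fun Z' hZ' X' hX' => by rw [eG_swap, mul_comm (Z'.card : ℝ)]; exact hmax X' hX' Z' hZ') b hb
  rw [mul_comm (Z.card : ℝ) (X.card : ℝ)] at this
  exact this

end

/-- disjoint groups -/
theorem exists_groups {α : Type*} [DecidableEq α] (g : ℕ) : ∀ (E : ℕ) (W : Finset α),
    E * g ≤ W.card → ∃ F : ℕ → Finset α, (∀ j < E, F j ⊆ W ∧ (F j).card = g) ∧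
      ∀ i < E, ∀ j < E, i ≠ j → Disjoint (F i) (F j) := by
  intro E
  induction E with
  | zero =>
    intro W _
    exact ⟨fun _ => ∅, fun j hj => absurd hj (Nat.not_lt_zero _),
      fun i hi => absurd hi (Nat.not_lt_zero _)⟩
  | succ E ih =>
    intro W hW
    have h1 : g ≤ W.card := le_trans (by nlinarith [Nat.zero_le (E * g)]) hW
    obtain ⟨F₀, hF₀, hc⟩ := Finset.exists_subset_card_eq h1
    obtain ⟨F, hF, hd⟩ := ih (W \ F₀) (by
      rw [Finset.card_sdiff_of_subset hF₀, hc]
      have : (E + 1) * g = E * g + g := by ring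
      omega)
    refine ⟨fun j => if j = E then F₀ else F j, ?_, ?_⟩
    · intro j hj
      by_cases hjE : j = E
      · simp [hjE, hF₀, hc]
      · have hj' : j < E := by omega
        simp only [hjE, if_false]
        exact ⟨(hF j hj').1.trans Finset.sdiff_subset, (hF j hj').2⟩
    · intro i hi j hj hij
      by_cases hiE : i = E
      · have hjE : j ≠ E := fun h => hij (hiE.trans h.symm)
        have hj' : j < E := by omega
        simp only [hiE, hjE, if_true, if_false]
        exact (Finset.disjoint_of_subset_left (hF j hj').1 Finset.sdiff_disjoint).symm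
      · have hi' : i < E := by omega
        by_cases hjE : j = E
        · simp only [hiE, hjE, if_true, if_false]
          exact Finset.disjoint_of_subset_left (hF i hi').1 Finset.sdiff_disjoint
        · have hj' : j < E := by omega
          simp only [hiE, hjE, if_false]
          exact hd i hi' j hj' hij

end Run7.h894
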