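import Pool.Agent.Run7.h894.Graph

/-!
# From numbers of edges to a bilinear bound
-/

namespace Run7.h894

open Classical in
/-- dyadic layers of a nonnegative function -/
theorem exists_layers {α : Type*} (R : Finset α) (x : α → ℝ) (hx : ∀ a ∈ R, 0 ≤ x a) (J : ℕ)
    (hR : R.card ≤ 4 ^ J) :
    ∃ l : α → ℕ, ∃ M : ℝ, 0 ≤ M ∧ (∀ a ∈ R, l a ≤ J) ∧ (∀ a ∈ R, x a ≤ M / 2 ^ (l a)) ∧
      ∑ i ∈ Finset.range (J + 1), M / 2 ^ i * Real.sqrt ((R.filter (fun a => l a = i)).card)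
        ≤ Real.sqrt (5 * (J + 1)) * Real.sqrt (∑ a ∈ R, x a ^ 2) := by
  set M : ℝ := Real.sqrt (∑ a ∈ R, x a ^ 2) with hM
  have hM0 : 0 ≤ M := Real.sqrt_nonneg _
  have hMM : M ^ 2 = ∑ a ∈ R, x a ^ 2 :=
    Real.sq_sqrt (Finset.sum_nonneg (fun a _ => sq_nonneg _))
  have hex : ∀ a, ∃ i : ℕ, J ≤ i ∨ M / 2 ^ (i + 1) < x a := fun a => ⟨J, Or.inl le_rfl⟩
  let l : α → ℕ := fun a => Nat.find (hex a)
  have hlJ : ∀ a, l a ≤ J := fun a => Nat.find_min' (hex a) (Or.inl le_rfl)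
  have hl1 : ∀ a, l a < J → M / 2 ^ (l a + 1) < x a := by
    intro a ha
    rcases Nat.find_spec (hex a) with h | h
    · exact absurd h (not_le.mpr ha)
    · exact h
  have hl2 : ∀ a ∈ R, x a ≤ M / 2 ^ (l a) := by
    intro a ha
    rcases Nat.eq_zero_or_pos (l a) with h0 | hpos
    · rw [h0, pow_zero, div_one]
      rw [hM]
      apply Real.le_sqrt_of_sq_le
      exact Finset.single_le_sum (f := fun a => x a ^ 2) (fun a _ => sq_nonneg _) ha
    · have h1 : ¬ (J ≤ l a - 1 ∨ M / 2 ^ (l a - 1 + 1) < x a) :=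
        Nat.find_min (hex a) (Nat.sub_lt hpos Nat.one_pos)
      push Not at h1
      have h2 := h1.2
      rwa [Nat.sub_add_cancel hpos] at h2
  refine ⟨l, M, hM0, fun a _ => hlJ a, hl2, ?_⟩
  clear_value l M
  rw [← Real.sqrt_sq hM0, ← Real.sqrt_mul (by positivity)]
  apply Real.le_sqrt_of_sq_le
  have hCS := sq_sum_le_card_mul_sum_sq (s := Finset.range (J + 1))
    (f := fun i => Real.sqrt (M ^ 2) / 2 ^ i * Real.sqrt ((R.filter (fun a => l a = i)).card))
  refine hCS.trans ?_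
  rw [Finset.card_range]
  have hterm : ∀ i ∈ Finset.range (J + 1),
      (Real.sqrt (M ^ 2) / 2 ^ i * Real.sqrt ((R.filter (fun a => l a = i)).card)) ^ 2 ≤
      4 * (∑ a ∈ R.filter (fun a => l a = i), x a ^ 2) + (if i = J then M ^ 2 else 0) := by
    intro i hi
    rw [mul_pow, div_pow, Real.sq_sqrt (by positivity), Real.sq_sqrt (by positivity)]
    by_cases hiJ : i = J
    · rw [if_pos hiJ]
      have h1 : ((R.filter (fun a => l a = i)).card : ℝ) ≤ 4 ^ J := by
        have : (R.filter (fun a => l a = i)).card ≤ 4 ^ J := (Finset.card_filter_le _ _).trans hR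
        exact_mod_cast this
      have h2 : M ^ 2 / (2 ^ i) ^ 2 * ((R.filter (fun a => l a = i)).card : ℝ) ≤
          M ^ 2 / (2 ^ i) ^ 2 * 4 ^ J := mul_le_mul_of_nonneg_left h1 (by positivity)
      have h3 : M ^ 2 / (2 ^ i) ^ 2 * 4 ^ J = M ^ 2 := by
        rw [hiJ, ← pow_mul, mul_comm J 2, pow_mul]
        norm_num
      have h4 : 0 ≤ 4 * (∑ a ∈ R.filter (fun a => l a = i), x a ^ 2) := by positivity
      linarith
    · rw [if_neg hiJ, add_zero]
      have hiJ' : i < J := by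
        rw [Finset.mem_range] at hi
        omega
      have h1 : ∀ a ∈ R.filter (fun a => l a = i), M ^ 2 / (2 ^ i) ^ 2 ≤ 4 * x a ^ 2 := by
        intro a ha
        rw [Finset.mem_filter] at ha
        have h2 := hl1 a (by rw [ha.2]; exact hiJ')
        rw [ha.2] at h2
        have h3 : (M / 2 ^ (i + 1)) ^ 2 ≤ x a ^ 2 := pow_le_pow_left₀ (by positivity) h2.le 2
        have h4 : (M / 2 ^ (i + 1)) ^ 2 = M ^ 2 / (2 ^ i) ^ 2 / 4 := by
          rw [pow_succ]
          field_simp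
          ring
        rw [h4] at h3
        linarith
      calc M ^ 2 / (2 ^ i) ^ 2 * ((R.filter (fun a => l a = i)).card : ℝ)
          = ∑ _a ∈ R.filter (fun a => l a = i), M ^ 2 / (2 ^ i) ^ 2 := by
            rw [Finset.sum_const, nsmul_eq_mul]; ring
        _ ≤ ∑ a ∈ R.filter (fun a => l a = i), 4 * x a ^ 2 := Finset.sum_le_sum h1
        _ = 4 * (∑ a ∈ R.filter (fun a => l a = i), x a ^ 2) := by rw [Finset.mul_sum]
  have hsum : ∑ i ∈ Finset.range (J + 1),
      (Real.sqrt (M ^ 2) / 2 ^ i * Real.sqrt ((R.filter (fun a => l a = i)).card)) ^ 2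
      ≤ 5 * M ^ 2 := by
    refine (Finset.sum_le_sum hterm).trans ?_
    rw [Finset.sum_add_distrib, ← Finset.mul_sum]
    have h1 : ∑ i ∈ Finset.range (J + 1), ∑ a ∈ R.filter (fun a => l a = i), x a ^ 2
        = ∑ a ∈ R, x a ^ 2 := by
      apply Finset.sum_fiberwise_of_maps_to
      intro a _
      rw [Finset.mem_range]
      exact Nat.lt_succ_of_le (hlJ a)
    rw [h1, Finset.sum_ite_eq', if_pos (Finset.mem_range.mpr (Nat.lt_succ_self J)), ← hMM]
    linarith
  calc ((J + 1 : ℕ) : ℝ) * _ ≤ ((J + 1 : ℕ) : ℝ) * (5 * M ^ 2) :=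
        mul_le_mul_of_nonneg_left hsum (by positivity)
    _ = 5 * (J + 1) * M ^ 2 := by push_cast; ring

open Classical in
/-- **The bilinear bound.** -/
theorem layering {α β : Type*} (G : α → β → Prop) (R : Finset α) (B : Finset β) (Λ : ℝ)
    (hΛ : 0 ≤ Λ)
    (h : ∀ X ⊆ R, ∀ Z ⊆ B, (eG G X Z : ℝ) ≤ Λ * Real.sqrt (X.card * Z.card)) (J : ℕ)
    (hR : R.card ≤ 4 ^ J) (hB : B.card ≤ 4 ^ J) (x : α → ℝ) (hx : ∀ a ∈ R, 0 ≤ x a)
    (y : β → ℝ) (hy : ∀ b ∈ B, 0 ≤ y b) :
    ∑ a ∈ R, ∑ b ∈ B, (if G a b then x a * y b else 0) ≤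
      5 * (J + 1) * Λ * (Real.sqrt (∑ a ∈ R, x a ^ 2) * Real.sqrt (∑ b ∈ B, y b ^ 2)) := by
  obtain ⟨l, M, hM0, hlJ, hlx, hlS⟩ := exists_layers R x hx J hR
  obtain ⟨l', M', hM0', hlJ', hlx', hlS'⟩ := exists_layers B y hy J hB
  set S := ∑ i ∈ Finset.range (J + 1), M / 2 ^ i *
    Real.sqrt ((R.filter (fun a => l a = i)).card) with hS
  set S' := ∑ i ∈ Finset.range (J + 1), M' / 2 ^ i *
    Real.sqrt ((B.filter (fun a => l' a = i)).card) with hS'
  have hS0 : 0 ≤ S := Finset.sum_nonneg (fun i _ => by positivity)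
  have hS0' : 0 ≤ S' := Finset.sum_nonneg (fun i _ => by positivity)
  have h1 : ∑ a ∈ R, ∑ b ∈ B, (if G a b then x a * y b else 0) ≤
      ∑ a ∈ R, ∑ b ∈ B, (if G a b then M / 2 ^ (l a) * (M' / 2 ^ (l' b)) else 0) := by
    apply Finset.sum_le_sum
    intro a ha
    apply Finset.sum_le_sum
    intro b hb
    split_ifs
    · exact mul_le_mul (hlx a ha) (hlx' b hb) (hy b hb) (by positivity)
    · exact le_rfl
  have h2 : ∑ a ∈ R, ∑ b ∈ B, (if G a b then M / 2 ^ (l a) * (M' / 2 ^ (l' b)) else 0)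
      = ∑ i ∈ Finset.range (J + 1), ∑ j ∈ Finset.range (J + 1),
        M / 2 ^ i * (M' / 2 ^ j) *
          (eG G (R.filter (fun a => l a = i)) (B.filter (fun b => l' b = j)) : ℝ) := by
    rw [← Finset.sum_fiberwise_of_maps_to (s := R) (t := Finset.range (J + 1)) (g := l)
      (fun a ha => Finset.mem_range.mpr (Nat.lt_succ_of_le (hlJ a ha)))]
    apply Finset.sum_congr rfl
    intro i _
    have h3 : ∀ a ∈ R.filter (fun a => l a = i),
        ∑ b ∈ B, (if G a b then M / 2 ^ (l a) * (M' / 2 ^ (l' b)) else 0)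
        = ∑ j ∈ Finset.range (J + 1), M / 2 ^ i * (M' / 2 ^ j) *
          (((B.filter (fun b => l' b = j)).filter (fun b => G a b)).card : ℝ) := by
      intro a ha
      rw [Finset.mem_filter] at ha
      rw [← Finset.sum_fiberwise_of_maps_to (s := B) (t := Finset.range (J + 1)) (g := l')
        (fun a ha => Finset.mem_range.mpr (Nat.lt_succ_of_le (hlJ' a ha)))]
      apply Finset.sum_congr rfl
      intro j _
      rw [Finset.card_filter]
      push_cast
      rw [Finset.mul_sum]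
      apply Finset.sum_congr rfl
      intro b hb
      rw [Finset.mem_filter] at hb
      rw [ha.2, hb.2]
      split_ifs <;> simp
    rw [Finset.sum_congr rfl h3, Finset.sum_comm]
    apply Finset.sum_congr rfl
    intro j _
    rw [← Finset.mul_sum, eG_left]
    push_cast
    rfl
  have h4 : ∑ i ∈ Finset.range (J + 1), ∑ j ∈ Finset.range (J + 1),
        M / 2 ^ i * (M' / 2 ^ j) *
          (eG G (R.filter (fun a => l a = i)) (B.filter (fun b => l' b = j)) : ℝ)
      ≤ Λ * (S * S') := by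
    have h5 : ∀ i ∈ Finset.range (J + 1), ∀ j ∈ Finset.range (J + 1),
        M / 2 ^ i * (M' / 2 ^ j) *
          (eG G (R.filter (fun a => l a = i)) (B.filter (fun b => l' b = j)) : ℝ)
        ≤ Λ * ((M / 2 ^ i * Real.sqrt ((R.filter (fun a => l a = i)).card)) *
          (M' / 2 ^ j * Real.sqrt ((B.filter (fun b => l' b = j)).card))) := by
      intro i _ j _
      have h6 := h (R.filter (fun a => l a = i)) (Finset.filter_subset _ _)
        (B.filter (fun b => l' b = j)) (Finset.filter_subset _ _)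
      rw [Real.sqrt_mul (Nat.cast_nonneg _)] at h6
      calc _ ≤ M / 2 ^ i * (M' / 2 ^ j) * (Λ * (Real.sqrt ((R.filter (fun a => l a = i)).card)
            * Real.sqrt ((B.filter (fun b => l' b = j)).card))) :=
            mul_le_mul_of_nonneg_left h6 (by positivity)
        _ = _ := by ring
    refine (Finset.sum_le_sum (fun i hi => Finset.sum_le_sum (fun j hj => h5 i hi j hj))).trans ?_
    apply le_of_eq
    rw [hS, hS', Finset.sum_mul_sum, Finset.mul_sum]
    apply Finset.sum_congr rfl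
    intro i _
    rw [Finset.mul_sum]
  have h7 : S * S' ≤ 5 * (J + 1) *
      (Real.sqrt (∑ a ∈ R, x a ^ 2) * Real.sqrt (∑ b ∈ B, y b ^ 2)) := by
    calc S * S' ≤ (Real.sqrt (5 * (J + 1)) * Real.sqrt (∑ a ∈ R, x a ^ 2)) *
          (Real.sqrt (5 * (J + 1)) * Real.sqrt (∑ b ∈ B, y b ^ 2)) :=
          mul_le_mul hlS hlS' hS0' (by positivity)
      _ = (Real.sqrt (5 * (J + 1)) * Real.sqrt (5 * (J + 1))) *
          (Real.sqrt (∑ a ∈ R, x a ^ 2) * Real.sqrt (∑ b ∈ B, y b ^ 2)) := by ring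
      _ = _ := by rw [Real.mul_self_sqrt (by positivity)]
  calc _ ≤ _ := h1
    _ = _ := h2
    _ ≤ _ := h4
    _ ≤ Λ * (5 * (J + 1) *
      (Real.sqrt (∑ a ∈ R, x a ^ 2) * Real.sqrt (∑ b ∈ B, y b ^ 2))) :=
        mul_le_mul_of_nonneg_left h7 hΛ
    _ = _ := by ring

end Run7.h894
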