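import Pool.Agent.Run7.h894.Defs

/-!
# The independent pieces (statements as propositions)
-/

namespace Run7.h894

open MvPolynomial

/-- **P1 (Bezout for lines).**  If `f` is irreducible and does not divide `g` then at most
`deg f * deg g` distinct lines lie in the common zero set.

Proof (Hilbert functions).  Put `a = deg f`, `b = deg g`, `N = S.card`, `V D` = polynomials of
total degree at most `D` (`MvPolynomial.restrictTotalDegree (Fin 3) K D`), of dimension
`choose (D+3) 3`.  For large `D` consider `(u, v) ↦ f u + g v` from `V (D-a) × V (D-b)` to `V D`;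
its kernel is (via `v = f w`, `u = -g w`, as `f` is prime and does not divide `g`) of dimension at
most `dim V (D-a-b)`, so its image has dimension at least
`dim V (D-a) + dim V (D-b) - dim V (D-a-b)`, and the image is killed by all `lsub`.
On the other hand the joint restriction map `V D → ∏ K[X]` has rank at least `N (D - N + 2)`:
for each `i ∈ S` let `h_i` be the product over `j ≠ i` of linear polynomials which vanish on
the line `j` but not on the line `i`, and for `q ∈ K[X]`, `deg q ≤ D-N+1` let `Q_i` be a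
polynomial with `lsub i Q_i = q` (choose a coordinate `k` with `v k ≠ 0` and substitute
`(X k - a k) / v k` in `q`); then `h_i Q_i` restricts to `(lsub i h_i) q` on the line `i` and to
`0` on all others.  So `N (D - N + 2) ≤ C(D+3,3) - C(D-a+3,3) - C(D-b+3,3) + C(D-a-b+3,3)
≤ a b (D+1)` for all large `D`, whence `N ≤ a b`. -/
def S_P1 : Prop := ∀ (K : Type) [Field K] (f g : MvPolynomial (Fin 3) K)
  (S : Finset ((Fin 3 → K) × (Fin 3 → K))),
  Irreducible f → ¬ f ∣ g → (∀ l ∈ S, l.2 ≠ 0) →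
  (∀ l ∈ S, ∀ l' ∈ S, l ≠ l' → ∃ w : MvPolynomial (Fin 3) K, w.totalDegree ≤ 1 ∧
    lsub l'.1 l'.2 w = 0 ∧ lsub l.1 l.2 w ≠ 0) →
  (∀ l ∈ S, lsub l.1 l.2 f = 0) → (∀ l ∈ S, lsub l.1 l.2 g = 0) →
  S.card ≤ f.totalDegree * g.totalDegree

/-- **P4 (surfaces with many red and many blue lines).**

Write `ξ, η, U` for `X 0, X 1, X 2` and `f_ξ, ...` for `pderiv`.  `d = deg f < p`.
Step 0. `P1` for red and for blue lines (distinct red lines are separated by `X 0 - C r` or
`X 2 - C s - C t * X 1`).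
Step 1. `g₁ = f_ξξ f_U² - 2 f_ξU f_ξ f_U + f_UU f_ξ²` has degree at most `3 d` and vanishes on every
blue line `{(ξ, r, s + t ξ)}` in `Z(f)` (differentiate `f(ξ, r, s + t ξ) = 0` twice).  As there are
more than `3 d²` such lines, `f ∣ g₁` by `P1`.  In the same way `f ∣ g₂` with `η` in place of `ξ`.
Step 2. `f_U ≠ 0`: otherwise (char `p > d`) `f` does not involve `U`, so all red lines `(r, s', t')`
with the same `r` lie in `Z(f)`, infinitely many lines in `Z(f) ∩ Z(X 0 - C r)`, `f ∣ X 0 - C r` by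
`P1`, but then no blue line lies in `Z(f)`.
Step 3. `f ∤ f_U` (degree), so by `P1` some red line in `Z(f)` is not in `Z(f_U)` and there is a
point `P` with `f(P) = 0`, `f_U(P) ≠ 0`.
Step 4 (key). If `f(P) = 0`, `f_U(P) ≠ 0` then the line `τ ↦ P + τ (1, 0, m)`, `m = - f_ξ(P)/f_U(P)`
lies in `Z(f)`: let `H(τ) = f(P + τ (1,0,m))`, suppose `H = τ^e H₁`, `H₁(0) ≠ 0`, `2 ≤ e ≤ d < p`
(`H(0) = H'(0) = 0`).  Along the line `f_ξ = H' - m f_U` whence
`g₁ = f_U² H'' + H' W` for a polynomial `W`, which has order exactly `e - 2`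
(as `e (e-1) ≠ 0` in `K`), but `H ∣ g₁` on the line, so the order is at least `e`; contradiction.
In the same way for the line `τ ↦ P + τ (0, 1, n)`, `n = - f_η(P)/f_U(P)`.
Step 5. Start from `P = (ξ₀, η₀, U₀)`; `V₀ = U₀ + m (ξ - ξ₀)`.  For all but finitely many `ξ ∈ K`
we have `f_U(ξ, η₀, V₀(ξ)) ≠ 0`, so the line `η ↦ (ξ, η, V₀(ξ) + n(ξ) (η - η₀))` lies in `Z(f)`
and `f_U` has at most `d` zeros on it.  By pigeonhole there is `η₁ ≠ η₀` such that for infinitely
many `ξ` also `f_U ≠ 0` at the point `W_ξ = (ξ, η₁, V₀(ξ) + n(ξ)(η₁ - η₀))`; by Step 4 the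
line in the plane `η = η₁` through `W_ξ` lies in `Z(f)`, it is a root in `K[ξ]` of the nonzero
polynomial `f(ξ, η₁, U) ∈ K[ξ][U]`, so there are finitely many such lines and by pigeonhole for
infinitely many `ξ` it is the same line `U = V₁(ξ)`.  So for infinitely many `ξ` the line
`η ↦ (ξ, η, V₀(ξ) + (V₁(ξ) - V₀(ξ)) (η - η₀)/(η₁ - η₀))` lies in `Z(f)` and in `Z(bil q)` for the
obvious `q`.  By `P1` `f ∣ bil q`. -/
def S_P4 : Prop := ∀ (K : Type) [Field K] [Infinite K] (p : ℕ) [Fact p.Prime] [CharP K p]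
  (f : MvPolynomial (Fin 3) K) (RR BB : Finset (K × K × K)),
  Irreducible f → f.totalDegree < p →
  (∀ l ∈ RR, rsub l f = 0) → (∀ l ∈ BB, bsub l f = 0) →
  3 * f.totalDegree ^ 2 < RR.card → 3 * f.totalDegree ^ 2 < BB.card →
  ∃ q : K × K × K × K, f ∣ bil q

/-- **P8 (the Gram matrix).**  For the columns `u`, `v` put `κ = c - c'` etc.
The sum over the rows of `exp (2 π i t (κ (x² - ν y²) + b₁ x + b₂ y + a)/p)` is
* for `κ ≠ 0`: `p` if `4 κ a ≠ b₁² - b₂²/ν` and `p - p²` otherwise,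
* for `κ = 0`: `0` if `(b₁, b₂) ≠ 0`, `- p²` if `b = 0`, `a ≠ 0` and `p² (p-1)` if all are `0`. -/
def S_P8 : Prop := ∀ (p : ℕ) [Fact p.Prime], p ≠ 2 → ∀ ν : ZMod p, ¬ IsSquare ν →
  ∀ κ b₁ b₂ a : ZMod p,
  ∑ r : (ZMod p)ˣ × ZMod p × ZMod p, (ZMod.stdAddChar
      ((r.1 : ZMod p) * (κ * (r.2.1 ^ 2 - ν * r.2.2 ^ 2) + b₁ * r.2.1 + b₂ * r.2.2 + a)) : ℂ)
    = if κ = 0 then (if b₁ = 0 ∧ b₂ = 0 then (if a = 0 then (p:ℂ) ^ 2 * (p - 1) else - (p:ℂ) ^ 2)
        else 0)
      else (if 4 * κ * a = b₁ ^ 2 - ν⁻¹ * b₂ ^ 2 then (p:ℂ) - p ^ 2 else p)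

end Run7.h894
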