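import Pool.Agent.Run7.h894.Basic
import Pool.Agent.Run7.h894.Stm

/-!
# Bezout's theorem for lines (piece P1)

The two lemmas on the dimension of the spaces of polynomials are taken from `Pool.Agent.N98.Cnt`.
-/

namespace Run7.h894

open MvPolynomial

section count

variable (E : Type*) [Field E] (τ : Type*) [Fintype τ]

omit [Fintype τ] in
lemma finrank_restrict (t : ℕ) :
    Module.finrank E (restrictTotalDegree τ E t) =
      Nat.card {n : τ →₀ ℕ | (n.sum fun _ e => e) ≤ t} :=
  Module.finrank_eq_nat_card_basis (basisRestrictSupport E _)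

lemma card_eq_sum (t : ℕ) :
    Nat.card {n : τ →₀ ℕ | (n.sum fun _ e => e) ≤ t} =
      ∑ s ∈ Finset.range (t + 1), (Fintype.card τ + s - 1).choose s := by
  classical
  have h1 : {n : τ →₀ ℕ | (n.sum fun _ e => e) ≤ t} =
      ((Finset.range (t + 1)).biUnion fun s =>
        Finset.finsuppAntidiag (Finset.univ : Finset τ) s : Finset (τ →₀ ℕ)) := by
    ext n
    simp only [Set.mem_ofPred_eq, Finset.coe_biUnion, Set.mem_iUnion, Finset.mem_coe,
      Finset.mem_range, Finset.mem_finsuppAntidiag', exists_prop]
    constructor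
    · intro h
      exact ⟨_, by omega, rfl, Finset.subset_univ _⟩
    · rintro ⟨s, hs, h, -⟩
      omega
  rw [h1, Nat.card_coe_set_eq, Set.ncard_coe_finset, Finset.card_biUnion]
  · refine Finset.sum_congr rfl fun s _ => ?_
    rw [Finset.card_finsuppAntidiag_nat_eq_choose, Finset.card_univ]
  · intro a _ b _ hab
    rw [Function.onFun, Finset.disjoint_left]
    intro n hn hn'
    rw [Finset.mem_finsuppAntidiag'] at hn hn'
    exact hab (hn.1.symm.trans hn'.1)

lemma finrank_restrict_three (t : ℕ) :
    6 * Module.finrank E (restrictTotalDegree (Fin 3) E t) = (t + 1) * (t + 2) * (t + 3) := by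
  rw [finrank_restrict, card_eq_sum, Fintype.card_fin]
  induction t with
  | zero => simp
  | succ t ih =>
    rw [Finset.sum_range_succ, mul_add, ih]
    have h1 : (3 + (t + 1) - 1).choose (t + 1) = (t + 3).choose 2 := by
      rw [show 3 + (t + 1) - 1 = t + 1 + 2 by omega, Nat.choose_symm_add]
    have h2 : 2 * (t + 3).choose 2 = (t + 3) * (t + 2) := by
      rw [Nat.choose_two_right, Nat.mul_div_cancel']
      · rfl
      · exact (Nat.even_mul_pred_self (t + 3)).two_dvd
    rw [h1]
    nlinarith

end count

variable {K : Type} [Field K]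

theorem totalDegree_aeval_le (Y : MvPolynomial (Fin 3) K) (hY : Y.totalDegree ≤ 1)
    (q : Polynomial K) : (Polynomial.aeval Y q).totalDegree ≤ q.natDegree := by
  rw [Polynomial.aeval_eq_sum_range]
  refine MvPolynomial.totalDegree_finsetSum_le ?_
  intro i hi
  rw [Finset.mem_range] at hi
  refine (MvPolynomial.totalDegree_smul_le _ _).trans ?_
  refine (MvPolynomial.totalDegree_pow _ _).trans ?_
  calc i * Y.totalDegree ≤ i * 1 := Nat.mul_le_mul_left _ hY
    _ ≤ q.natDegree := by omega

theorem exists_coord (a v : Fin 3 → K) (hv : v ≠ 0) :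
    ∃ Y : MvPolynomial (Fin 3) K, Y.totalDegree ≤ 1 ∧ lsub a v Y = Polynomial.X := by
  obtain ⟨k, hk⟩ := Function.ne_iff.mp hv
  rw [Pi.zero_apply] at hk
  refine ⟨C (v k)⁻¹ * (X k - C (a k)), ?_, ?_⟩
  · refine (totalDegree_mul _ _).trans ?_
    rw [totalDegree_C, zero_add]
    refine (totalDegree_sub _ _).trans ?_
    rw [totalDegree_C, totalDegree_X]
    simp
  · unfold lsub
    rw [map_mul, map_sub, aeval_C, aeval_C, aeval_X, Polynomial.algebraMap_eq, add_sub_cancel_left,
      ← mul_assoc, ← Polynomial.C_mul, inv_mul_cancel₀ hk, Polynomial.C_1, one_mul]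

theorem arith_contra (a b N u m : ℕ) (hcon : a * b < N) (hu : u = (a * b + 1) * N)
    (hmN : m + N = u + a + b + 2)
    (hmain : 6 * (N * m) + (u + b + 1) * (u + b + 2) * (u + b + 3)
      + (u + a + 1) * (u + a + 2) * (u + a + 3)
      ≤ (u + a + b + 1) * (u + a + b + 2) * (u + a + b + 3) + (u + 1) * (u + 2) * (u + 3)) :
    False := by
  have hNab : a * b + 1 ≤ N := hcon
  zify at hmain hmN hNab hu
  have hm' : (m : ℤ) = u + a + b + 2 - N := by linarith
  have hid : ((u : ℤ) + a + b + 1) * (u + a + b + 2) * (u + a + b + 3) + (u + 1) * (u + 2) * (u + 3)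
      - (u + b + 1) * (u + b + 2) * (u + b + 3) - (u + a + 1) * (u + a + 2) * (u + a + 3)
      = 6 * (a * b) * (u + 2) + 3 * (a * b) * (a + b) := by ring
  have h6 : 6 * ((N : ℤ) * m) ≤ 6 * (a * b) * (u + 2) + 3 * (a * b) * (a + b) := by
    rw [← hid]; linarith
  have hmpos : (0 : ℤ) ≤ m := by positivity
  have h7 : ((a : ℤ) * b + 1) * m ≤ N * m := mul_le_mul_of_nonneg_right hNab hmpos
  have hab0 : (0 : ℤ) ≤ a * b * (a + b) := by positivity
  have ha0 : (0 : ℤ) ≤ a := by positivity
  have hb0 : (0 : ℤ) ≤ b := by positivity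
  have h8 : 6 * (((a : ℤ) * b + 1) * m) ≤ 6 * (a * b) * (u + 2) + 3 * (a * b) * (a + b) := by
    linarith
  have h9 : 6 * (((a : ℤ) * b + 1) * m) = 6 * (a * b) * (u + 2) + 6 * (a * b) * (a + b)
      + 6 * (a + b + 2) + 6 * (u - (a * b + 1) * N) := by
    rw [hm']; ring
  rw [h9] at h8
  linarith

/-- **P1.** -/
theorem p1 : S_P1 := by
  classical
  intro K _ f g S hf hfg hv hsep hfS hgS
  by_contra hcon
  push Not at hcon
  have hf0 : f ≠ 0 := hf.ne_zero
  have hg0 : g ≠ 0 := by
    rintro rfl
    exact hfg (dvd_zero f)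
  have hprime : Prime f := UniqueFactorizationMonoid.irreducible_iff_prime.mp hf
  set a := f.totalDegree with ha
  set b := g.totalDegree with hb
  set N := S.card with hN
  set u := (a * b + 1) * N with hu
  have hNpos : 0 < N := lt_of_le_of_lt (Nat.zero_le _) hcon
  have hNu : N ≤ u := by
    rw [hu]
    exact Nat.le_mul_of_pos_left _ (Nat.succ_pos _)
  set m := u + a + b + 2 - N with hm
  -- spaces
  let V : ℕ → Submodule K (MvPolynomial (Fin 3) K) := fun D => restrictTotalDegree (Fin 3) K D
  have hV : ∀ D, 6 * Module.finrank K (V D) = (D + 1) * (D + 2) * (D + 3) :=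
    fun D => finrank_restrict_three K D
  -- the map M
  let M : (V (u + b) × V (u + a)) →ₗ[K] MvPolynomial (Fin 3) K :=
    ((LinearMap.mulLeft K f).comp (V (u + b)).subtype).coprod
      ((LinearMap.mulLeft K g).comp (V (u + a)).subtype)
  have hMapply : ∀ vw, M vw = f * (vw.1 : MvPolynomial (Fin 3) K) + g * vw.2 := by
    intro vw
    simp [M]
  -- kernel of M
  let c : V u →ₗ[K] (V (u + b) × V (u + a)) :=
    LinearMap.prod
      (LinearMap.codRestrict (V (u + b)) (-((LinearMap.mulLeft K g).comp (V u).subtype)) (by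
        intro x
        rw [mem_restrictTotalDegree]
        simp only [LinearMap.neg_apply, LinearMap.comp_apply, Submodule.subtype_apply,
          LinearMap.mulLeft_apply, totalDegree_neg]
        refine (totalDegree_mul _ _).trans ?_
        have := (mem_restrictTotalDegree (Fin 3) u _).mp x.2
        omega))
      (LinearMap.codRestrict (V (u + a)) ((LinearMap.mulLeft K f).comp (V u).subtype) (by
        intro x
        rw [mem_restrictTotalDegree]
        simp only [LinearMap.comp_apply, Submodule.subtype_apply, LinearMap.mulLeft_apply]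
        refine (totalDegree_mul _ _).trans ?_
        have := (mem_restrictTotalDegree (Fin 3) u _).mp x.2
        omega))
  have hker : LinearMap.ker M ≤ LinearMap.range c := by
    rintro ⟨v, w⟩ hvw
    rw [LinearMap.mem_ker, hMapply] at hvw
    have hvw' : f * (v : MvPolynomial (Fin 3) K) = - (g * w) := eq_neg_of_add_eq_zero_left hvw
    have hdvd : f ∣ g * w := by
      rw [← dvd_neg, ← hvw']
      exact dvd_mul_right _ _
    obtain ⟨x, hx⟩ := (hprime.dvd_or_dvd hdvd).resolve_left hfg
    have hxdeg : x.totalDegree ≤ u := by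
      by_cases hx0 : x = 0
      · rw [hx0]; simp
      · have h1 := (mem_restrictTotalDegree (Fin 3) (u + a) _).mp w.2
        rw [hx, totalDegree_mul_of_isDomain hf0 hx0] at h1
        omega
    refine ⟨⟨x, (mem_restrictTotalDegree (Fin 3) u _).mpr hxdeg⟩, ?_⟩
    have hv' : (v : MvPolynomial (Fin 3) K) = -(g * x) := by
      apply mul_left_cancel₀ hf0
      rw [hvw', hx]
      ring
    refine Prod.ext (Subtype.ext ?_) (Subtype.ext ?_)
    · simp only [c, LinearMap.prod_apply, Function.prod_apply, LinearMap.codRestrict_apply,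
        LinearMap.neg_apply, LinearMap.comp_apply, Submodule.subtype_apply,
        LinearMap.mulLeft_apply]
      exact hv'.symm
    · simp only [c, LinearMap.prod_apply, Function.prod_apply, LinearMap.codRestrict_apply,
        LinearMap.comp_apply, Submodule.subtype_apply, LinearMap.mulLeft_apply]
      exact hx.symm
  have hker' : Module.finrank K (LinearMap.ker M) ≤ Module.finrank K (V u) :=
    (Submodule.finrank_mono hker).trans (LinearMap.finrank_range_le c)
  have hrk := LinearMap.finrank_range_add_finrank_ker M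
  rw [Module.finrank_prod] at hrk
  -- restriction to the lines
  let ρ : V (u + a + b) →ₗ[K] (S → Polynomial K) :=
    (LinearMap.pi (fun l : S => (lsub l.1.1 l.1.2).toLinearMap)).comp (V (u + a + b)).subtype
  have hρ : ∀ x l, ρ x l = lsub l.1.1 l.1.2 (x : MvPolynomial (Fin 3) K) := by
    intro x l
    simp [ρ]
  -- range of M in the kernel
  have hMV : ∀ vw, M vw ∈ V (u + a + b) := by
    intro vw
    rw [hMapply, mem_restrictTotalDegree]
    refine (totalDegree_add _ _).trans ?_
    have h1 := (mem_restrictTotalDegree (Fin 3) (u + b) _).mp vw.1.2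
    have h2 := (mem_restrictTotalDegree (Fin 3) (u + a) _).mp vw.2.2
    apply max_le
    · refine (totalDegree_mul _ _).trans ?_
      omega
    · refine (totalDegree_mul _ _).trans ?_
      omega
  have hrange : Module.finrank K (LinearMap.range M) ≤ Module.finrank K (LinearMap.ker ρ) := by
    let M' : (V (u + b) × V (u + a)) →ₗ[K] V (u + a + b) := LinearMap.codRestrict _ M hMV
    have h1 : LinearMap.range M' ≤ LinearMap.ker ρ := by
      rintro _ ⟨vw, rfl⟩
      rw [LinearMap.mem_ker]
      funext l
      rw [hρ]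
      simp only [M', LinearMap.codRestrict_apply, Pi.zero_apply]
      rw [hMapply, map_add, map_mul, map_mul, hfS _ l.2, hgS _ l.2]
      simp
    have h2 : Module.finrank K (LinearMap.range M) = Module.finrank K (LinearMap.range M') := by
      have h3 : M = (V (u + a + b)).subtype.comp M' := by
        ext x <;> simp [M']
      have h4 : LinearMap.range M = (LinearMap.range M').map (V (u + a + b)).subtype := by
        conv_lhs => rw [h3]
        rw [LinearMap.range_comp]
      rw [h4]
      exact (LinearEquiv.finrank_eq (Submodule.equivMapOfInjective (V (u + a + b)).subtype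
        (V (u + a + b)).subtype_injective (LinearMap.range M'))).symm
    rw [h2]
    exact Submodule.finrank_mono h1
  have hrk2 := LinearMap.finrank_range_add_finrank_ker ρ
  -- the lower bound for the rank of ρ
  have hY : ∀ l : S, ∃ Y : MvPolynomial (Fin 3) K, Y.totalDegree ≤ 1 ∧
      lsub l.1.1 l.1.2 Y = Polynomial.X := fun l => exists_coord _ _ (hv _ l.2)
  choose Y hY1 hY2 using hY
  have hw : ∀ l l' : S, ∃ w : MvPolynomial (Fin 3) K, l ≠ l' → w.totalDegree ≤ 1 ∧
      lsub l'.1.1 l'.1.2 w = 0 ∧ lsub l.1.1 l.1.2 w ≠ 0 := by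
    intro l l'
    by_cases h : l = l'
    · exact ⟨0, fun h' => absurd h h'⟩
    · obtain ⟨w, hw⟩ := hsep _ l.2 _ l'.2 (fun h' => h (Subtype.ext h'))
      exact ⟨w, fun _ => hw⟩
  choose w hw using hw
  let H : S → MvPolynomial (Fin 3) K := fun l => ∏ l' ∈ Finset.univ.erase l, w l l'
  have hH1 : ∀ l, (H l).totalDegree ≤ N - 1 := by
    intro l
    refine (totalDegree_finsetProd _ _).trans ?_
    refine (Finset.sum_le_card_nsmul _ _ 1 ?_).trans ?_
    · intro l' hl'
      exact (hw l l' (Finset.ne_of_mem_erase hl').symm).1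
    · rw [Finset.card_erase_of_mem (Finset.mem_univ _), Finset.card_univ, Fintype.card_coe]
      simp [hN]
  have hH2 : ∀ l l', l ≠ l' → lsub l'.1.1 l'.1.2 (H l) = 0 := by
    intro l l' hll'
    rw [map_prod]
    exact Finset.prod_eq_zero (Finset.mem_erase.mpr ⟨hll'.symm, Finset.mem_univ _⟩)
      (hw l l' hll').2.1
  have hH3 : ∀ l, lsub l.1.1 l.1.2 (H l) ≠ 0 := by
    intro l
    rw [map_prod]
    apply Finset.prod_ne_zero_iff.mpr
    intro l' hl'
    exact (hw l l' (Finset.ne_of_mem_erase hl').symm).2.2
  let q : (Fin m → K) →ₗ[K] Polynomial K :=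
    (Polynomial.degreeLT K m).subtype.comp (Polynomial.degreeLTEquiv K m).symm.toLinearMap
  have hqinj : Function.Injective q := by
    intro x y hxy
    exact (Polynomial.degreeLTEquiv K m).symm.injective (Subtype.ext hxy)
  have hqdeg : ∀ x, (q x).natDegree ≤ m - 1 := by
    intro x
    have h1 := ((Polynomial.degreeLTEquiv K m).symm x).2
    rw [Polynomial.mem_degreeLT] at h1
    by_cases h0 : q x = 0
    · rw [h0]; simp
    · have h2 : (q x).natDegree < m := (Polynomial.natDegree_lt_iff_degree_lt h0).mpr h1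
      omega
  let F : (S → (Fin m → K)) →ₗ[K] MvPolynomial (Fin 3) K :=
    ∑ l : S, ((LinearMap.mulLeft K (H l)).comp
      ((Polynomial.aeval (Y l) : Polynomial K →ₐ[K] MvPolynomial (Fin 3) K).toLinearMap.comp
        (q.comp (LinearMap.proj l))))
  have hF : ∀ x, F x = ∑ l : S, H l * Polynomial.aeval (Y l) (q (x l)) := by
    intro x
    simp [F]
  have hFV : ∀ x, F x ∈ V (u + a + b) := by
    intro x
    rw [hF, mem_restrictTotalDegree]
    refine MvPolynomial.totalDegree_finsetSum_le ?_
    intro l _
    refine (totalDegree_mul _ _).trans ?_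
    have h1 := hH1 l
    have h2 := (totalDegree_aeval_le (Y l) (hY1 l) (q (x l))).trans (hqdeg (x l))
    omega
  let F' : (S → (Fin m → K)) →ₗ[K] V (u + a + b) := LinearMap.codRestrict _ F hFV
  have hρF : ∀ x l, ρ (F' x) l = lsub l.1.1 l.1.2 (H l) * q (x l) := by
    intro x l
    rw [hρ]
    have h1 : ((F' x : V (u + a + b)) : MvPolynomial (Fin 3) K) = F x := rfl
    rw [h1, hF, map_sum, Finset.sum_eq_single l]
    · rw [map_mul]
      congr 1
      have h2 : lsub l.1.1 l.1.2 (Polynomial.aeval (Y l) (q (x l))) =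
          Polynomial.aeval (lsub l.1.1 l.1.2 (Y l)) (q (x l)) :=
        (Polynomial.aeval_algHom_apply (lsub l.1.1 l.1.2) (Y l) (q (x l))).symm
      rw [h2, hY2]
      exact Polynomial.aeval_X_left_apply _
    · intro l' _ hl'
      rw [map_mul, hH2 l' l hl', zero_mul]
    · intro h
      exact absurd (Finset.mem_univ l) h
  have hinj : Function.Injective (ρ.comp F') := by
    intro x y hxy
    funext l
    apply hqinj
    have h1 : ρ (F' x) l = ρ (F' y) l := congrFun hxy l
    rw [hρF, hρF] at h1
    exact mul_left_cancel₀ (hH3 l) h1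
  have hlow : N * m ≤ Module.finrank K (LinearMap.range ρ) := by
    have h1 : Module.finrank K (S → (Fin m → K)) ≤ Module.finrank K (LinearMap.range ρ) := by
      have h2 : LinearMap.range (ρ.comp F') ≤ LinearMap.range ρ := LinearMap.range_comp_le_range _ _
      have h3 := LinearMap.finrank_range_of_inj hinj
      rw [← h3]
      exact Submodule.finrank_mono h2
    have h4 : Module.finrank K (S → (Fin m → K)) = N * m := by
      rw [Module.finrank_pi_fintype]
      simp [hN]
    omega
  -- conclusion
  have e1 := hV (u + a + b)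
  have e2 := hV (u + b)
  have e3 := hV (u + a)
  have e4 := hV u
  have hmain : 6 * (N * m) + (u + b + 1) * (u + b + 2) * (u + b + 3)
      + (u + a + 1) * (u + a + 2) * (u + a + 3)
      ≤ (u + a + b + 1) * (u + a + b + 2) * (u + a + b + 3) + (u + 1) * (u + 2) * (u + 3) := by
    rw [← e1, ← e2, ← e3, ← e4]
    omega
  exact arith_contra a b N u m hcon hu (by omega) hmain

end Run7.h894
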