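import Pool.Agent.Run7.h894.Basic
import Pool.Agent.Run7.h894.Graph
import Pool.Agent.Run7.h894.Stm

/-!
# The incidence theorem for red and blue lines
-/

namespace Run7.h894

open MvPolynomial

variable {K : Type} [Field K]

/-- a line is on a surface -/
theorem redOn_of_dvd {f : MvPolynomial (Fin 3) K} {q : K × K × K × K} (h : f ∣ bil q)
    {l : K × K × K} (hl : rsub l f = 0) : RedOn q l := by
  obtain ⟨w, hw⟩ := h
  have h1 : rsub l (bil q) = 0 := by rw [hw, map_mul, hl, zero_mul]
  have h2 : rsub l (bil q) = Polynomial.C (l.2.1 - q.1 - q.2.1 * l.1)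
      + Polynomial.C (l.2.2 - q.2.2.1 - q.2.2.2 * l.1) * Polynomial.X := by
    unfold rsub lsub bil
    simp only [map_sub, map_mul, aeval_X, aeval_C, Polynomial.algebraMap_eq,
      Matrix.cons_val_zero, Matrix.cons_val_one, Matrix.cons_val_two, Matrix.head_cons,
      Matrix.tail_cons]
    simp only [map_zero, map_one, zero_mul, add_zero, zero_add, one_mul]
    ring
  rw [h2] at h1
  have c0 := congrArg (fun P => Polynomial.coeff P 0) h1
  have c1 := congrArg (fun P => Polynomial.coeff P 1) h1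
  simp at c0 c1
  exact ⟨by linear_combination c0, by linear_combination c1⟩

theorem blueOn_of_dvd {f : MvPolynomial (Fin 3) K} {q : K × K × K × K} (h : f ∣ bil q)
    {l : K × K × K} (hl : bsub l f = 0) : BlueOn q l := by
  obtain ⟨w, hw⟩ := h
  have h1 : bsub l (bil q) = 0 := by rw [hw, map_mul, hl, zero_mul]
  have h2 : bsub l (bil q) = Polynomial.C (l.2.1 - q.1 - q.2.2.1 * l.1)
      + Polynomial.C (l.2.2 - q.2.1 - q.2.2.2 * l.1) * Polynomial.X := by
    unfold bsub lsub bil
    simp only [map_sub, map_mul, aeval_X, aeval_C, Polynomial.algebraMap_eq,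
      Matrix.cons_val_zero, Matrix.cons_val_one, Matrix.cons_val_two, Matrix.head_cons,
      Matrix.tail_cons]
    simp only [map_zero, map_one, zero_mul, add_zero, zero_add, one_mul]
    ring
  rw [h2] at h1
  have c0 := congrArg (fun P => Polynomial.coeff P 0) h1
  have c1 := congrArg (fun P => Polynomial.coeff P 1) h1
  simp at c0 c1
  exact ⟨by linear_combination c0, by linear_combination c1⟩

open Classical in
/-- **A polynomial of small degree which vanishes on all lines.** -/
theorem exists_vanishing (G : K × K × K → K × K × K → Prop) (X Z : Finset (K × K × K))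
    (hG : ∀ a ∈ X, ∀ b ∈ Z, G a b → Cross a b)
    (hRu : ∀ a ∈ X, ∀ b ∈ Z, ∀ b' ∈ Z, Cross a b → Cross a b' → b.1 = b'.1 → b = b')
    (hBu : ∀ b ∈ Z, ∀ a ∈ X, ∀ a' ∈ X, Cross a b → Cross a' b → a.1 = a'.1 → a = a')
    (e g k : ℕ) (h1 : ∀ b ∈ Z, (3 * e + 1) * g ≤ (X.filter (fun a => G a b)).card)
    (h2 : Z.card * (3 * e + 1) * (X.card - g) ^ k < X.card ^ k)
    (h3 : k * (3 * e + 1) < (e + 1) ^ 3)
    (h4 : ∀ a ∈ X, 3 * e < (Z.filter (fun b => G a b)).card) :
    ∃ f : MvPolynomial (Fin 3) K, f ≠ 0 ∧ f.totalDegree ≤ 3 * e ∧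
      (∀ a ∈ X, rsub a f = 0) ∧ (∀ b ∈ Z, bsub b f = 0) := by
  have hgr : ∀ b ∈ Z, ∃ F : ℕ → Finset (K × K × K),
      (∀ j < 3 * e + 1, F j ⊆ X.filter (fun a => G a b) ∧ (F j).card = g) ∧
      ∀ i < 3 * e + 1, ∀ j < 3 * e + 1, i ≠ j → Disjoint (F i) (F j) :=
    fun b hb => exists_groups g (3 * e + 1) _ (h1 b hb)
  choose! F hF hFd using hgr
  obtain ⟨X₀, hX₀, hc₀, hhit⟩ := exists_hitting X (Z ×ˢ Finset.range (3 * e + 1))
    (fun i => F i.1 i.2) (by
      intro i hi
      rw [Finset.mem_product, Finset.mem_range] at hi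
      exact ((hF i.1 hi.1 i.2 hi.2).1).trans (Finset.filter_subset _ _)) g (by
      intro i hi
      rw [Finset.mem_product, Finset.mem_range] at hi
      exact (hF i.1 hi.1 i.2 hi.2).2.ge) k (by
      rw [Finset.card_product, Finset.card_range]
      exact h2)
  -- the interpolating polynomial
  let toL : K × K × K → (Fin 3 → K) × (Fin 3 → K) := fun l => (![l.1, 0, l.2.1], ![0, 1, l.2.2])
  obtain ⟨f, hf0, hfd, hfv⟩ := exists_poly (X₀.image toL) e (by
    refine lt_of_le_of_lt ?_ h3
    exact Nat.mul_le_mul_right _ ((Finset.card_image_le).trans hc₀))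
  have hfX₀ : ∀ a ∈ X₀, rsub a f = 0 := by
    intro a ha
    exact hfv (toL a) (Finset.mem_image_of_mem _ ha)
  have hblue : ∀ b ∈ Z, bsub b f = 0 := by
    intro b hb
    -- pick a hit in every group
    have hpick : ∀ j < 3 * e + 1, ∃ a ∈ F b j, a ∈ X₀ := by
      intro j hj
      exact hhit (b, j) (by
        rw [Finset.mem_product, Finset.mem_range]
        exact ⟨hb, hj⟩)
    choose! pk hpk hpk' using hpick
    apply eq_zero_of_card (Z := (Finset.range (3 * e + 1)).image (fun j => (pk j).1))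
    · intro z hz
      obtain ⟨j, hj, rfl⟩ := Finset.mem_image.mp hz
      rw [Finset.mem_range] at hj
      have ha := (hF b hb j hj).1 (hpk j hj)
      rw [Finset.mem_filter] at ha
      have hcr : Cross (pk j) b := hG _ ha.1 _ hb ha.2
      rw [← eval_cross hcr, hfX₀ _ (hpk' j hj)]
      simp
    · rw [Finset.card_image_of_injOn]
      · rw [Finset.card_range]
        exact lt_of_le_of_lt ((natDegree_bsub_le b f).trans hfd) (Nat.lt_succ_self _)
      · intro i hi j hj hij
        rw [Finset.coe_range, Set.mem_Iio] at hi hj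
        by_contra hne
        have hai := (hF b hb i hi).1 (hpk i hi)
        have haj := (hF b hb j hj).1 (hpk j hj)
        rw [Finset.mem_filter] at hai haj
        have : pk i = pk j := hBu b hb _ hai.1 _ haj.1 (hG _ hai.1 _ hb hai.2)
          (hG _ haj.1 _ hb haj.2) hij
        have hd := hFd b hb i hi j hj hne
        rw [Finset.disjoint_left] at hd
        exact hd (hpk i hi) (this ▸ hpk j hj)
  refine ⟨f, hf0, hfd, ?_, hblue⟩
  intro a ha
  apply eq_zero_of_card (Z := (Z.filter (fun b => G a b)).image (fun b => b.1))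
  · intro z hz
    obtain ⟨b, hb, rfl⟩ := Finset.mem_image.mp hz
    rw [Finset.mem_filter] at hb
    rw [eval_cross (hG a ha b hb.1 hb.2), hblue b hb.1]
    simp
  · rw [Finset.card_image_of_injOn]
    · exact lt_of_le_of_lt ((natDegree_rsub_le a f).trans hfd) (h4 a ha)
    · intro b hb b' hb' hbb
      rw [Finset.coe_filter] at hb hb'
      exact hRu a ha b hb.1 b' hb'.1 (hG a ha b hb.1 hb.2) (hG a ha b' hb'.1 hb'.2) hbb

theorem totalDegree_multiset_prod (M : Multiset (MvPolynomial (Fin 3) K))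
    (h : ∀ g ∈ M, g ≠ 0) : M.prod.totalDegree = (M.map totalDegree).sum := by
  induction M using Multiset.induction_on with
  | empty => simp
  | cons g M ih =>
    have h1 : ∀ g' ∈ M, g' ≠ 0 := fun g' hg' => h g' (Multiset.mem_cons_of_mem hg')
    rw [Multiset.prod_cons, Multiset.map_cons, Multiset.sum_cons,
      totalDegree_mul_of_isDomain (h g (Multiset.mem_cons_self g M)), ih h1]
    exact Multiset.prod_ne_zero (fun h0 => h1 0 h0 rfl)

theorem one_le_totalDegree_of_irreducible {g : MvPolynomial (Fin 3) K} (hg : Irreducible g) :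
    1 ≤ g.totalDegree := by
  by_contra h
  have h0 : g.totalDegree = 0 := by omega
  rw [totalDegree_eq_zero_iff_eq_C] at h0
  by_cases hc : coeff 0 g = 0
  · rw [hc, map_zero] at h0
    exact hg.ne_zero h0
  · apply hg.not_isUnit
    rw [h0]
    exact (IsUnit.mk0 _ hc).map C

open Classical in
/-- the irreducible factors -/
theorem exists_factors (f : MvPolynomial (Fin 3) K) (hf : f ≠ 0) :
    ∃ T : Finset (MvPolynomial (Fin 3) K), (∀ g ∈ T, Irreducible g) ∧
      ∑ g ∈ T, g.totalDegree ≤ f.totalDegree ∧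
      (∀ a v : Fin 3 → K, lsub a v f = 0 → ∃ g ∈ T, lsub a v g = 0) := by
  let M := UniqueFactorizationMonoid.factors f
  have hirr : ∀ g ∈ M, Irreducible g := fun g hg =>
    UniqueFactorizationMonoid.irreducible_of_factor g hg
  obtain ⟨u, hu⟩ := UniqueFactorizationMonoid.factors_prod hf
  have hM0 : M.prod ≠ 0 := Multiset.prod_ne_zero (fun h0 => (hirr 0 h0).ne_zero rfl)
  refine ⟨M.toFinset, fun g hg => hirr g (Multiset.mem_toFinset.mp hg), ?_, ?_⟩
  · have h1 : ∑ g ∈ M.toFinset, g.totalDegree ≤ (M.map totalDegree).sum := by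
      rw [Finset.sum_multiset_map_count]
      apply Finset.sum_le_sum
      intro g hg
      have h2 : 1 ≤ M.count g := Multiset.one_le_count_iff_mem.mpr (Multiset.mem_toFinset.mp hg)
      rw [smul_eq_mul]
      nlinarith
    have h3 : M.prod.totalDegree ≤ f.totalDegree := by
      rw [← hu, totalDegree_mul_of_isDomain hM0 u.isUnit.ne_zero]
      exact Nat.le_add_right _ _
    rw [totalDegree_multiset_prod M (fun g hg => (hirr g hg).ne_zero)] at h3
    exact h1.trans h3
  · intro a v h
    rw [← hu, map_mul] at h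
    have h1 : lsub a v (u : MvPolynomial (Fin 3) K) ≠ 0 := (u.isUnit.map (lsub a v)).ne_zero
    have h2 : lsub a v M.prod = 0 := by
      rcases mul_eq_zero.mp h with h | h
      · exact h
      · exact absurd h h1
    rw [map_multiset_prod, Multiset.prod_eq_zero_iff, Multiset.mem_map] at h2
    obtain ⟨g, hg, hg0⟩ := h2
    exact ⟨g, Multiset.mem_toFinset.mpr hg, hg0⟩

open Classical in
/-- **Most edges are few.** -/
theorem count_edges (G : K × K × K → K × K × K → Prop) (X Z : Finset (K × K × K))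
    (hG : ∀ a ∈ X, ∀ b ∈ Z, G a b → Cross a b)
    (hRu : ∀ a ∈ X, ∀ b ∈ Z, ∀ b' ∈ Z, Cross a b → Cross a b' → b.1 = b'.1 → b = b')
    (f : MvPolynomial (Fin 3) K) (hf : f ≠ 0) (d : ℕ) (hd : f.totalDegree ≤ d)
    (hZ : ∀ b ∈ Z, bsub b f = 0) (θr θb : ℝ) (hθr : 0 ≤ θr)
    (hθb : 0 ≤ θb)
    (hno : ∀ g : MvPolynomial (Fin 3) K, Irreducible g → g.totalDegree ≤ d →
      (3 * (g.totalDegree : ℝ) ^ 2 + θr < (X.filter (fun a => rsub a g = 0)).card) →
      (3 * (g.totalDegree : ℝ) ^ 2 + θb < (Z.filter (fun b => bsub b g = 0)).card) →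
      ∀ a ∈ X, ∀ b ∈ Z, rsub a g = 0 → bsub b g = 0 → ¬ G a b) :
    ∃ Xb ⊆ X, ∃ Zb ⊆ Z, ((Xb.card : ℝ) ≤ 3 * (d : ℝ) ^ 2 + θr * d) ∧
      ((Zb.card : ℝ) ≤ 3 * (d : ℝ) ^ 2 + θb * d) ∧
      eG G (X \ Xb) (Z \ Zb) ≤ d * X.card := by
  obtain ⟨T, hTirr, hTd, hTl⟩ := exists_factors f hf
  have hTd' : ∑ g ∈ T, g.totalDegree ≤ d := hTd.trans hd
  have hgd : ∀ g ∈ T, g.totalDegree ≤ d := fun g hg =>
    (Finset.single_le_sum (f := fun g : MvPolynomial (Fin 3) K => g.totalDegree)
      (fun _ _ => Nat.zero_le _) hg).trans hTd'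
  let J1 := T.filter (fun g => ((X.filter (fun a => rsub a g = 0)).card : ℝ)
    ≤ 3 * (g.totalDegree : ℝ) ^ 2 + θr)
  let J2 := T.filter (fun g => ((Z.filter (fun b => bsub b g = 0)).card : ℝ)
    ≤ 3 * (g.totalDegree : ℝ) ^ 2 + θb)
  have key : ∀ (J : Finset (MvPolynomial (Fin 3) K)) (W : MvPolynomial (Fin 3) K →
      Finset (K × K × K)) (θ : ℝ), 0 ≤ θ → J ⊆ T →
      (∀ g ∈ J, ((W g).card : ℝ) ≤ 3 * (g.totalDegree : ℝ) ^ 2 + θ) →
      ((J.biUnion W).card : ℝ) ≤ 3 * (d : ℝ) ^ 2 + θ * d := by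
    intro J W θ hθ hJ hW
    have h1 : ((J.biUnion W).card : ℝ) ≤ ∑ g ∈ J, ((W g).card : ℝ) := by
      exact_mod_cast Finset.card_biUnion_le
    have h2 : ∑ g ∈ J, ((W g).card : ℝ) ≤
        ∑ g ∈ J, (3 * (d : ℝ) * g.totalDegree + θ * g.totalDegree) := by
      apply Finset.sum_le_sum
      intro g hg
      have h3 : (1 : ℝ) ≤ g.totalDegree := by
        exact_mod_cast one_le_totalDegree_of_irreducible (hTirr g (hJ hg))
      have h4 : (g.totalDegree : ℝ) ≤ d := by exact_mod_cast hgd g (hJ hg)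
      have h5 := hW g hg
      nlinarith
    have h6 : ∑ g ∈ J, (3 * (d : ℝ) * g.totalDegree + θ * g.totalDegree)
        = (3 * (d : ℝ) + θ) * ∑ g ∈ J, (g.totalDegree : ℝ) := by
      rw [Finset.mul_sum]
      apply Finset.sum_congr rfl
      intro g _
      ring
    have h7 : ∑ g ∈ J, (g.totalDegree : ℝ) ≤ d := by
      have : ∑ g ∈ J, g.totalDegree ≤ d :=
        (Finset.sum_le_sum_of_subset hJ).trans hTd'
      exact_mod_cast this
    have h8 : (3 * (d : ℝ) + θ) * ∑ g ∈ J, (g.totalDegree : ℝ) ≤ (3 * (d : ℝ) + θ) * d :=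
      mul_le_mul_of_nonneg_left h7 (by positivity)
    calc ((J.biUnion W).card : ℝ) ≤ _ := h1
      _ ≤ _ := h2
      _ = _ := h6
      _ ≤ _ := h8
      _ = _ := by ring
  refine ⟨J1.biUnion (fun g => X.filter (fun a => rsub a g = 0)), ?_,
    J2.biUnion (fun g => Z.filter (fun b => bsub b g = 0)), ?_, ?_, ?_, ?_⟩
  · intro a ha
    rw [Finset.mem_biUnion] at ha
    obtain ⟨g, _, ha⟩ := ha
    exact (Finset.mem_filter.mp ha).1
  · intro a ha
    rw [Finset.mem_biUnion] at ha
    obtain ⟨g, _, ha⟩ := ha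
    exact (Finset.mem_filter.mp ha).1
  · exact key J1 _ θr hθr (Finset.filter_subset _ _) (fun g hg => (Finset.mem_filter.mp hg).2)
  · exact key J2 _ θb hθb (Finset.filter_subset _ _) (fun g hg => (Finset.mem_filter.mp hg).2)
  · rw [eG_left]
    have hdeg : ∀ a ∈ X \ J1.biUnion (fun g => X.filter (fun a => rsub a g = 0)),
        ((Z \ J2.biUnion (fun g => Z.filter (fun b => bsub b g = 0))).filter
          (fun b => G a b)).card ≤ d := by
      intro a ha
      rw [Finset.mem_sdiff] at ha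
      have hsub : ((Z \ J2.biUnion (fun g => Z.filter (fun b => bsub b g = 0))).filter
          (fun b => G a b)).image (fun b => b.1) ⊆
          (T.filter (fun g => rsub a g ≠ 0)).biUnion (fun g => (rsub a g).roots.toFinset) := by
        intro r hr
        obtain ⟨b, hb, rfl⟩ := Finset.mem_image.mp hr
        rw [Finset.mem_filter, Finset.mem_sdiff] at hb
        obtain ⟨⟨hbZ, hbn⟩, hbG⟩ := hb
        obtain ⟨g, hgT, hg0⟩ := hTl _ _ (hZ b hbZ)
        have hg0' : bsub b g = 0 := hg0
        have hne : rsub a g ≠ 0 := by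
          intro hag
          apply hno g (hTirr g hgT) (hgd g hgT) ?_ ?_ a ha.1 b hbZ hag hg0' hbG
          · by_contra hcon
            apply ha.2
            rw [Finset.mem_biUnion]
            exact ⟨g, Finset.mem_filter.mpr ⟨hgT, not_lt.mp hcon⟩,
              Finset.mem_filter.mpr ⟨ha.1, hag⟩⟩
          · by_contra hcon
            apply hbn
            rw [Finset.mem_biUnion]
            exact ⟨g, Finset.mem_filter.mpr ⟨hgT, not_lt.mp hcon⟩,
              Finset.mem_filter.mpr ⟨hbZ, hg0'⟩⟩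
        rw [Finset.mem_biUnion]
        refine ⟨g, Finset.mem_filter.mpr ⟨hgT, hne⟩, ?_⟩
        rw [Multiset.mem_toFinset, Polynomial.mem_roots hne, Polynomial.IsRoot.def,
          eval_cross (hG a ha.1 b hbZ hbG), hg0']
        simp
      have hinj : (((Z \ J2.biUnion (fun g => Z.filter (fun b => bsub b g = 0))).filter
          (fun b => G a b)).image (fun b => b.1)).card =
          ((Z \ J2.biUnion (fun g => Z.filter (fun b => bsub b g = 0))).filter
          (fun b => G a b)).card := by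
        apply Finset.card_image_of_injOn
        intro b hb b' hb' hbb
        rw [Finset.mem_coe, Finset.mem_filter, Finset.mem_sdiff] at hb hb'
        exact hRu a ha.1 b hb.1.1 b' hb'.1.1 (hG a ha.1 b hb.1.1 hb.2)
          (hG a ha.1 b' hb'.1.1 hb'.2) hbb
      rw [← hinj]
      refine (Finset.card_le_card hsub).trans ?_
      refine (Finset.card_biUnion_le).trans ?_
      refine le_trans ?_ hTd'
      refine le_trans ?_ (Finset.sum_le_sum_of_subset (Finset.filter_subset
        (fun g => rsub a g ≠ 0) T))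
      apply Finset.sum_le_sum
      intro g _
      exact (Multiset.toFinset_card_le _).trans ((Polynomial.card_roots' _).trans
        (natDegree_rsub_le a g))
    refine (Finset.sum_le_sum hdeg).trans ?_
    rw [Finset.sum_const, smul_eq_mul, mul_comm]
    exact Nat.mul_le_mul_left _ (Finset.card_le_card Finset.sdiff_subset)

end Run7.h894
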