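import Pool.Agent.Run7.h894.Mit

/-!
# The incidence theorem: numbers
-/

namespace Run7.h894

open MvPolynomial

theorem numeric_hit {M x g : ℝ} {k : ℕ} (hM : 1 ≤ M) (hg : 0 < g) (hgx : g ≤ x)
    (hk : x / g * Real.log M < k) : M * (x - g) ^ k < x ^ k := by
  have hx : 0 < x := lt_of_lt_of_le hg hgx
  have hM0 : 0 < M := by linarith
  have h1 : x - g ≤ x * Real.exp (-(g / x)) := by
    have := Real.add_one_le_exp (-(g / x))
    have h2 : x * (-(g / x) + 1) ≤ x * Real.exp (-(g / x)) := mul_le_mul_of_nonneg_left this hx.le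
    have h3 : x * (-(g / x) + 1) = x - g := by
      field_simp
      ring
    linarith
  have h4 : (x - g) ^ k ≤ (x * Real.exp (-(g / x))) ^ k :=
    pow_le_pow_left₀ (by linarith) h1 k
  have h5 : (x * Real.exp (-(g / x))) ^ k = x ^ k * Real.exp (-(g / x) * k) := by
    rw [mul_pow, ← Real.exp_nat_mul]
    ring_nf
  have h6 : Real.log M < g / x * k := by
    have h7 : x / g * Real.log M * (g / x) < k * (g / x) :=
      mul_lt_mul_of_pos_right hk (by positivity)
    have h8 : x / g * Real.log M * (g / x) = Real.log M := by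
      field_simp
    linarith
  have h9 : M < Real.exp (g / x * k) := by
    rw [← Real.exp_log hM0]
    exact Real.exp_lt_exp.mpr h6
  have h10 : M * Real.exp (-(g / x) * k) < 1 := by
    have : Real.exp (g / x * k) * Real.exp (-(g / x) * k) = 1 := by
      rw [← Real.exp_add]
      ring_nf
      exact Real.exp_zero
    calc M * Real.exp (-(g / x) * k) < Real.exp (g / x * k) * Real.exp (-(g / x) * k) :=
          mul_lt_mul_of_pos_right h9 (Real.exp_pos _)
      _ = 1 := this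
  calc M * (x - g) ^ k ≤ M * (x ^ k * Real.exp (-(g / x) * k)) := by
        rw [← h5]
        exact mul_le_mul_of_nonneg_left h4 hM0.le
    _ = x ^ k * (M * Real.exp (-(g / x) * k)) := by ring
    _ < x ^ k * 1 := mul_lt_mul_of_pos_left h10 (by positivity)
    _ = x ^ k := mul_one _

theorem aux_sq {Λ L w v : ℝ} (hL1 : 1 ≤ L) (hv : 0 ≤ v) (hvw : v ≤ w)
    (hΛL : 60000 * L * w ≤ Λ) : 60000 * 60000 * (v * v * L) ≤ Λ * Λ := by
  have hw : 0 ≤ w := hv.trans hvw
  have h9 : (60000 * L * w) * (60000 * L * w) ≤ Λ * Λ :=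
    mul_le_mul hΛL hΛL (by positivity) (le_trans (by positivity) hΛL)
  have h7 : v * v ≤ w * w := mul_le_mul hvw hvw hv hw
  have h12 : v * v * L ≤ w * w * L := mul_le_mul_of_nonneg_right h7 (by linarith)
  have h13 : w * w * L * 1 ≤ w * w * L * L := mul_le_mul_of_nonneg_left hL1 (by positivity)
  nlinarith

theorem aux_deg {Λ L w u v h : ℝ} (hΛpos : 0 < Λ) (hL1 : 1 ≤ L) (hu : 1 ≤ u) (hv : 1 ≤ v)
    (hvw : v ≤ w) (hΛL : 60000 * L * w ≤ Λ) (hhΛ : h * Λ = u * v * L) :
    904 * h ≤ Λ * u / (2 * v) := by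
  rw [le_div_iff₀ (by positivity)]
  have h5 : 904 * h * (2 * v) * Λ ≤ Λ * u * Λ := by
    have h6 : 904 * h * (2 * v) * Λ = 1808 * u * (v * v * L) := by
      calc 904 * h * (2 * v) * Λ = 1808 * v * (h * Λ) := by ring
        _ = _ := by rw [hhΛ]; ring
    rw [h6]
    have h7 := aux_sq hL1 (by linarith) hvw hΛL
    have h8 : 0 ≤ v * v * L := by positivity
    have h9 : 1808 * (v * v * L) ≤ Λ * Λ := by linarith
    have h10 := mul_le_mul_of_nonneg_left h9 (show (0:ℝ) ≤ u by linarith)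
    linarith
  exact le_of_mul_le_mul_right h5 hΛpos

theorem aux_three {E h k e' : ℝ} (hh : 1 ≤ h) (hE : 900 * h + 1 ≤ E) (hk : k ≤ 7 * E * h)
    (he : E = 3 * e' + 1) : k * E < (e' + 1) ^ 3 := by
  have hEpos : 0 < E := by linarith
  have h6 : E / 3 ≤ e' + 1 := by rw [he]; linarith
  have h7 : (E / 3) ^ 3 ≤ (e' + 1) ^ 3 := pow_le_pow_left₀ (by positivity) h6 3
  refine lt_of_lt_of_le ?_ h7
  have h8 : k * E ≤ 7 * E * h * E := mul_le_mul_of_nonneg_right hk hEpos.le
  refine lt_of_le_of_lt h8 ?_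
  have h9 : 189 * h < E := by linarith
  have h10 : 0 < E * E := by positivity
  have h11 := mul_lt_mul_of_pos_left h9 h10
  nlinarith

theorem aux_sq2 {Λ L w u v h D : ℝ} (hL1 : 1 ≤ L) (hw : 0 ≤ w) (hD0 : 0 ≤ D)
    (hD : D ≤ 904 * h) (hΛL : 60000 * L * w ≤ Λ) (hhΛ : h * Λ = u * v * L) :
    3 * D ^ 2 * (60000 * 60000 * w ^ 2) ≤ 3 * 904 ^ 2 * (u ^ 2 * v ^ 2) := by
  have h5 : D ^ 2 ≤ (904 * h) ^ 2 := pow_le_pow_left₀ hD0 hD 2
  have h6 : (h * Λ) ^ 2 = u ^ 2 * v ^ 2 * L ^ 2 := by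
    rw [hhΛ]; ring
  have h7 : (60000 * L * w) ^ 2 ≤ Λ ^ 2 := pow_le_pow_left₀ (by positivity) hΛL 2
  have h8 : h ^ 2 * (60000 * L * w) ^ 2 ≤ u ^ 2 * v ^ 2 * L ^ 2 := by
    have h81 : h ^ 2 * (60000 * L * w) ^ 2 ≤ h ^ 2 * Λ ^ 2 :=
      mul_le_mul_of_nonneg_left h7 (by positivity)
    have h82 : h ^ 2 * Λ ^ 2 = (h * Λ) ^ 2 := by ring
    rw [h82, h6] at h81
    exact h81
  have h9 : h ^ 2 * (60000 * 60000 * w ^ 2) * L ^ 2 ≤ u ^ 2 * v ^ 2 * L ^ 2 := by
    calc h ^ 2 * (60000 * 60000 * w ^ 2) * L ^ 2 = h ^ 2 * (60000 * L * w) ^ 2 := by ring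
      _ ≤ _ := h8
  have h10 : h ^ 2 * (60000 * 60000 * w ^ 2) ≤ u ^ 2 * v ^ 2 :=
    le_of_mul_le_mul_right h9 (by positivity)
  have h11 : (0:ℝ) ≤ 60000 * 60000 * w ^ 2 := by positivity
  calc 3 * D ^ 2 * (60000 * 60000 * w ^ 2)
      ≤ 3 * (904 * h) ^ 2 * (60000 * 60000 * w ^ 2) := by
        have := mul_le_mul_of_nonneg_right h5 h11
        linarith
    _ = 3 * 904 ^ 2 * (h ^ 2 * (60000 * 60000 * w ^ 2)) := by ring
    _ ≤ 3 * 904 ^ 2 * (u ^ 2 * v ^ 2) := mul_le_mul_of_nonneg_left h10 (by norm_num)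

theorem aux_sixtyfour {D x z n : ℝ} (hx : 0 ≤ x) (hn : 1 ≤ n) (hzn : z ≤ n)
    (h : 3 * D * (60000 * 60000 * n) ≤ 3 * 904 ^ 2 * (x * z)) : 3 * D ≤ x / 64 := by
  have h5 : 3 * D * (60000 * 60000 * n) ≤ x / 64 * (60000 * 60000 * n) := by
    refine h.trans ?_
    have h6 : x * z ≤ x * n := mul_le_mul_of_nonneg_left hzn hx
    have h7 : 0 ≤ x * n := by positivity
    nlinarith
  exact le_of_mul_le_mul_right h5 (by positivity)

theorem aux_theta {T u v h D : ℝ} (hT : 0 ≤ T) (hu : 0 < u) (hv : 0 < v) (hD : D ≤ 904 * h)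
    (hTh : 60000 * T * h ≤ u * v) : T * u / v * D ≤ u ^ 2 / 64 := by
  have h5 : T * u / v * D ≤ T * u / v * (904 * h) :=
    mul_le_mul_of_nonneg_left hD (by positivity)
  refine h5.trans ?_
  have h6 : T * u / v * (904 * h) = 904 / 60000 * (60000 * T * h) * (u / v) := by
    field_simp
  rw [h6]
  have h7 : 904 / 60000 * (60000 * T * h) * (u / v) ≤ 904 / 60000 * (u * v) * (u / v) := by
    apply mul_le_mul_of_nonneg_right _ (by positivity)
    apply mul_le_mul_of_nonneg_left hTh (by norm_num)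
  refine h7.trans ?_
  have h8 : 904 / 60000 * (u * v) * (u / v) = 904 / 60000 * u ^ 2 := by
    field_simp
  rw [h8]
  have : 0 ≤ u ^ 2 := by positivity
  linarith

theorem aux_fin {Λ L w x u v h n : ℝ} (hL1 : 1 ≤ L) (hn : 1 ≤ n) (hw : 0 ≤ w) (hww : w ^ 2 = n)
    (hxn : x ≤ n) (hΛpos : 0 < Λ) (hu : 0 < u) (hv : 0 < v)
    (hΛL : 60000 * L * w ≤ Λ) (hhΛ : h * Λ = u * v * L)
    (hfin : 3 / 5 * (Λ * (u * v)) ≤ 904 * h * x) : False := by
  have hfin2 : 3 / 5 * (Λ * (u * v)) * Λ ≤ 904 * (u * v * L) * x := by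
    rw [← hhΛ]
    have := mul_le_mul_of_nonneg_right hfin hΛpos.le
    linarith
  have huv : 0 < u * v := by positivity
  have hfin3 : 3 / 5 * (Λ * Λ) ≤ 904 * L * x := by
    have : 3 / 5 * (Λ * Λ) * (u * v) ≤ 904 * L * x * (u * v) := by linarith
    exact le_of_mul_le_mul_right this huv
  have h9 := aux_sq hL1 hw le_rfl hΛL
  have h11 : L * x ≤ L * n := mul_le_mul_of_nonneg_left hxn (by linarith)
  have h12 : w * w * L = L * n := by
    rw [← hww]; ring
  have h13 : 0 < L * n := by positivity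
  rw [h12] at h9
  linarith

variable {K : Type} [Field K]

open Classical in
/-- **The incidence theorem for red and blue lines.** -/
theorem mit (h4 : S_P4) [Infinite K] (p : ℕ) [Fact p.Prime] [CharP K p]
    (R B : Finset (K × K × K)) (G : K × K × K → K × K × K → Prop)
    (hG : ∀ a ∈ R, ∀ b ∈ B, G a b → Cross a b)
    (hRu : ∀ a ∈ R, ∀ b ∈ B, ∀ b' ∈ B, Cross a b → Cross a b' → b.1 = b'.1 → b = b')
    (hBu : ∀ b ∈ B, ∀ a ∈ R, ∀ a' ∈ R, Cross a b → Cross a' b → a.1 = a'.1 → a = a')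
    (T : ℝ) (hT : 0 ≤ T)
    (hrich : ∀ q : K × K × K × K,
      T ^ 2 < ((R.filter (fun a => RedOn q a)).card : ℝ) * (B.filter (fun b => BlueOn q b)).card →
      ∀ a ∈ R, ∀ b ∈ B, RedOn q a → BlueOn q b → ¬ G a b)
    (n : ℝ) (hn : 1 ≤ n) (hRn : (R.card : ℝ) ≤ n) (hBn : (B.card : ℝ) ≤ n)
    (hnp : Real.sqrt n ≤ p) (Λ₀ : ℝ)
    (h1 : 60000 * (1 + Real.log n) * Real.sqrt n ≤ Λ₀)
    (h2 : 60000 * (1 + Real.log n) * T ≤ Λ₀) :
    ∀ X ⊆ R, ∀ Z ⊆ B, (eG G X Z : ℝ) ≤ Λ₀ * Real.sqrt (X.card * Z.card) := by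
  by_contra hcon
  push Not at hcon
  have hL1 : 1 ≤ 1 + Real.log n := by
    have := Real.log_nonneg hn
    linarith
  have hw1 : 1 ≤ Real.sqrt n := Real.one_le_sqrt.mpr hn
  have hΛ₀ : 0 ≤ Λ₀ := le_trans (by positivity) h1
  obtain ⟨X₁, hX₁, Z₁, hZ₁, hlt⟩ := hcon
  obtain ⟨Λ, hΛ, X, hX, Z, hZ, hXne, hZne, he, hmax⟩ :=
    exists_densest G R B Λ₀ hΛ₀ ⟨X₁, hX₁, Z₁, hZ₁, hlt⟩
  -- notation
  set L := 1 + Real.log n with hLdef
  set w := Real.sqrt n with hwdef
  have hww : w ^ 2 = n := Real.sq_sqrt (by linarith)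
  set x : ℝ := (X.card : ℝ) with hx
  set z : ℝ := (Z.card : ℝ) with hz
  have hx1 : 1 ≤ x := by
    rw [hx]; exact_mod_cast hXne.card_pos
  have hz1 : 1 ≤ z := by
    rw [hz]; exact_mod_cast hZne.card_pos
  have hxn : x ≤ n := le_trans (by rw [hx]; exact_mod_cast Finset.card_le_card hX) hRn
  have hzn : z ≤ n := le_trans (by rw [hz]; exact_mod_cast Finset.card_le_card hZ) hBn
  set u := Real.sqrt x with hu
  set v := Real.sqrt z with hv
  have huu : u ^ 2 = x := Real.sq_sqrt (by linarith)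
  have hvv : v ^ 2 = z := Real.sq_sqrt (by linarith)
  have hu1 : 1 ≤ u := Real.one_le_sqrt.mpr hx1
  have hv1 : 1 ≤ v := Real.one_le_sqrt.mpr hz1
  have huw : u ≤ w := Real.sqrt_le_sqrt hxn
  have hvw : v ≤ w := Real.sqrt_le_sqrt hzn
  have hs : Real.sqrt (x * z) = u * v := Real.sqrt_mul (by linarith) z
  rw [hs] at he
  have hΛL : 60000 * L * w ≤ Λ := h1.trans hΛ.le
  have hΛT : 60000 * L * T ≤ Λ := h2.trans hΛ.le
  have hΛpos : 0 < Λ := lt_of_lt_of_le (by positivity) hΛL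
  have hΛuv : Λ ≤ u * v := by
    have h3 : (eG G X Z : ℝ) ≤ x * z := by
      rw [hx, hz]; exact_mod_cast eG_le_mul G X Z
    have h5 : Λ * (u * v) ≤ (u * v) * (u * v) := by
      rw [← he]
      refine h3.trans (le_of_eq ?_)
      rw [← huu, ← hvv]; ring
    exact le_of_mul_le_mul_right h5 (by positivity)
  set h := u * v * L / Λ with hh
  have hhΛ : h * Λ = u * v * L := by
    rw [hh]; field_simp
  have hh1 : 1 ≤ h := by
    rw [hh, le_div_iff₀ hΛpos, one_mul]
    exact hΛuv.trans (le_mul_of_one_le_right (by positivity) hL1)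
  -- h ≤ w / 60000
  have hhw : 60000 * h ≤ w := by
    have h3 : 60000 * h * Λ ≤ w * Λ := by
      have : 60000 * h * Λ = 60000 * (u * v * L) := by rw [mul_assoc, hhΛ]
      rw [this]
      have h5 : u * v ≤ w * w := mul_le_mul huw hvw (by linarith) (by linarith)
      calc 60000 * (u * v * L) ≤ 60000 * (w * w * L) := by
            have := mul_le_mul_of_nonneg_right h5 (show (0:ℝ) ≤ L by linarith)
            linarith
        _ = w * (60000 * L * w) := by ring
        _ ≤ w * Λ := mul_le_mul_of_nonneg_left hΛL (by linarith)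
    exact le_of_mul_le_mul_right h3 hΛpos
  -- the parameter e
  set e := ⌈300 * h⌉₊ with hedef
  have he1 : 300 * h ≤ (e : ℝ) := Nat.le_ceil _
  have he2 : (e : ℝ) ≤ 301 * h := by
    have := (Nat.ceil_lt_add_one (show (0:ℝ) ≤ 300 * h by positivity)).le
    linarith
  set E : ℝ := 3 * (e : ℝ) + 1 with hE
  have hE1 : 900 * h + 1 ≤ E := by rw [hE]; linarith
  have hE2 : E ≤ 904 * h := by rw [hE]; linarith
  have hEpos : 0 < E := by linarith
  have hd : ((3 * e : ℕ) : ℝ) ≤ 904 * h := by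
    push_cast
    linarith
  -- the parameter g
  set A : ℝ := Λ * (u * v) / (2 * z) with hA
  have hA' : A = Λ * u / (2 * v) := by
    rw [hA, ← hvv]
    field_simp
  have hAE : E ≤ A := by
    refine hE2.trans ?_
    rw [hA']
    exact aux_deg hΛpos hL1 hu1 hv1 hvw hΛL hhΛ
  have hApos : 0 < A := lt_of_lt_of_le hEpos hAE
  set g := ⌊A / E⌋₊ with hg
  have hAE1 : 1 ≤ A / E := by rw [le_div_iff₀ hEpos]; linarith
  have hg1 : 1 ≤ g := Nat.one_le_floor_iff _ |>.mpr hAE1
  have hg1' : (1 : ℝ) ≤ g := by exact_mod_cast hg1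
  have hg2 : (g : ℝ) ≤ A / E := Nat.floor_le (by positivity)
  have hg3 : A / E ≤ 2 * g := by
    have := (Nat.lt_floor_add_one (A / E)).le
    rw [← hg] at this
    linarith
  have hdegR : ∀ b ∈ Z, A ≤ (X.filter (fun a => G a b)).card := by
    intro b hb
    have := deg_right G hΛpos.le hX hZ (by rw [he, hs]) hmax b hb
    rw [hs] at this
    exact this
  have hdegL : ∀ a ∈ X, Λ * (u * v) / (2 * x) ≤ (Z.filter (fun b => G a b)).card := by
    intro a ha
    have := deg_left G hΛpos.le hX hZ (by rw [he, hs]) hmax a ha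
    rw [hs] at this
    exact this
  have H1 : ∀ b ∈ Z, (3 * e + 1) * g ≤ (X.filter (fun a => G a b)).card := by
    intro b hb
    have h5 : E * g ≤ A := by
      have := mul_le_mul_of_nonneg_left hg2 hEpos.le
      rwa [mul_div_cancel₀ _ hEpos.ne'] at this
    have h6 := h5.trans (hdegR b hb)
    rw [hE] at h6
    exact_mod_cast h6
  -- the parameter k
  have hEg : (g : ℝ) ≤ x := by
    obtain ⟨b, hb⟩ := hZne
    have h5 := H1 b hb
    have h6 : (X.filter (fun a => G a b)).card ≤ X.card := Finset.card_filter_le _ _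
    have h7 : g ≤ X.card := by
      have : 1 * g ≤ (3 * e + 1) * g := Nat.mul_le_mul_right _ (by omega)
      omega
    rw [hx]; exact_mod_cast h7
  set M : ℝ := z * E with hM
  have hM1 : 1 ≤ M := by
    rw [hM]
    have : 1 ≤ E := by linarith
    exact one_le_mul_of_one_le_of_one_le hz1 this
  have hMlog : Real.log M ≤ 3 / 2 * L := by
    have h5 : M ≤ w ^ 3 := by
      have h6 : E ≤ w := by linarith
      calc M = z * E := rfl
        _ ≤ n * w := mul_le_mul hzn h6 hEpos.le (by linarith)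
        _ = w ^ 3 := by rw [← hww]; ring
    have h7 : Real.log M ≤ Real.log (w ^ 3) := Real.log_le_log (by linarith) h5
    rw [Real.log_pow] at h7
    have h8 : Real.log w = Real.log n / 2 := by
      rw [hwdef, Real.log_sqrt (by linarith)]
    rw [h8] at h7
    push_cast at h7
    rw [hLdef]
    linarith
  set k := ⌊x / g * Real.log M⌋₊ + 1 with hk
  have hk1 : x / g * Real.log M < (k : ℝ) := by
    rw [hk]
    push_cast
    exact Nat.lt_floor_add_one _
  have hlogM : 0 ≤ Real.log M := Real.log_nonneg hM1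
  have hk2 : (k : ℝ) ≤ x / g * Real.log M + 1 := by
    rw [hk]
    push_cast
    have := Nat.floor_le (show 0 ≤ x / g * Real.log M by positivity)
    linarith
  have H2 : Z.card * (3 * e + 1) * (X.card - g) ^ k < X.card ^ k := by
    have h5 := numeric_hit hM1 (by linarith : (0:ℝ) < g) hEg hk1
    have h6 : g ≤ X.card := by
      have : (g : ℝ) ≤ (X.card : ℝ) := hEg
      exact_mod_cast this
    have h7 : ((Z.card * (3 * e + 1) * (X.card - g) ^ k : ℕ) : ℝ) < ((X.card ^ k : ℕ) : ℝ) := by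
      push_cast [Nat.cast_sub h6]
      exact h5
    exact_mod_cast h7
  have hxg : x / g ≤ 4 * E * (u * v) / Λ := by
    rw [div_le_div_iff₀ (by linarith) hΛpos]
    -- x Λ ≤ 4 E u v g,  A = Λ u / (2 v) ≤ 2 g E
    have h5 : A ≤ 2 * g * E := by
      have := mul_le_mul_of_nonneg_right hg3 hEpos.le
      rwa [div_mul_cancel₀ _ hEpos.ne'] at this
    rw [hA', div_le_iff₀ (by positivity)] at h5
    -- Λ u ≤ 2 g E (2 v)
    have h6 := mul_le_mul_of_nonneg_left h5 (show (0:ℝ) ≤ u by linarith)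
    calc x * Λ = u * (Λ * u) := by rw [← huu]; ring
      _ ≤ u * (2 * g * E * (2 * v)) := h6
      _ = 4 * E * (u * v) * g := by ring
  have hk3 : (k : ℝ) ≤ 7 * E * h := by
    have h5 : x / g * Real.log M ≤ 4 * E * (u * v) / Λ * (3 / 2 * L) :=
      mul_le_mul hxg hMlog hlogM (by positivity)
    have h6 : 4 * E * (u * v) / Λ * (3 / 2 * L) = 6 * E * h := by
      rw [hh]
      field_simp
      ring
    have h7 : 1 ≤ E * h := one_le_mul_of_one_le_of_one_le (by linarith) hh1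
    linarith
  have H3 : k * (3 * e + 1) < (e + 1) ^ 3 := by
    have h5 : (k : ℝ) * E < ((e : ℝ) + 1) ^ 3 := aux_three hh1 hE1 hk3 hE
    have h6 : ((k * (3 * e + 1) : ℕ) : ℝ) < (((e + 1) ^ 3 : ℕ) : ℝ) := by
      push_cast
      exact h5
    exact_mod_cast h6
  have H4 : ∀ a ∈ X, 3 * e < (Z.filter (fun b => G a b)).card := by
    intro a ha
    have h5 := hdegL a ha
    have h6 : ((3 * e : ℕ) : ℝ) < Λ * (u * v) / (2 * x) := by
      have h7 : ((3 * e : ℕ) : ℝ) < E := by rw [hE]; push_cast; linarith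
      refine lt_of_lt_of_le h7 (hE2.trans ?_)
      rw [← huu]
      have h8 : Λ * (u * v) / (2 * u ^ 2) = Λ * v / (2 * u) := by field_simp
      rw [h8, le_div_iff₀ (by positivity)]
      have h9 := aux_deg (h := h) hΛpos hL1 hv1 hu1 huw hΛL (by rw [hhΛ]; ring)
      rwa [le_div_iff₀ (by positivity)] at h9
    have h7 : ((3 * e : ℕ) : ℝ) < ((Z.filter (fun b => G a b)).card : ℝ) := lt_of_lt_of_le h6 h5
    exact_mod_cast h7
  -- the polynomial
  obtain ⟨f, hf0, hfd, hfX, hfZ⟩ := exists_vanishing G X Z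
    (fun a ha b hb => hG a (hX ha) b (hZ hb))
    (fun a ha b hb b' hb' => hRu a (hX ha) b (hZ hb) b' (hZ hb'))
    (fun b hb a ha a' ha' => hBu b (hZ hb) a (hX ha) a' (hX ha')) e g k H1 H2 H3 H4
  -- the thresholds
  have hθ : (T * u / v) * (T * v / u) = T ^ 2 := by
    field_simp
  have hdp : 3 * e < p := by
    have h5 : ((3 * e : ℕ) : ℝ) < p := by
      refine lt_of_le_of_lt hd (lt_of_lt_of_le ?_ hnp)
      linarith
    exact_mod_cast h5
  obtain ⟨Xb, hXb, Zb, hZb, hcX, hcZ, hcount⟩ := count_edges G X Z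
    (fun a ha b hb => hG a (hX ha) b (hZ hb))
    (fun a ha b hb b' hb' => hRu a (hX ha) b (hZ hb) b' (hZ hb'))
    f hf0 (3 * e) hfd hfZ (T * u / v) (T * v / u) (by positivity) (by positivity) (by
      intro g' hirr hgd hgX hgZ a ha b hb hag hbg
      have hu0 : (0:ℝ) ≤ T * u / v := by positivity
      have hv0 : (0:ℝ) ≤ T * v / u := by positivity
      obtain ⟨q, hq⟩ := h4 K p g' (X.filter (fun a => rsub a g' = 0))
        (Z.filter (fun b => bsub b g' = 0)) hirr (lt_of_le_of_lt hgd hdp)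
        (fun l hl => (Finset.mem_filter.mp hl).2) (fun l hl => (Finset.mem_filter.mp hl).2)
        (by
          have : (3 * (g'.totalDegree : ℝ) ^ 2) <
              ((X.filter (fun a => rsub a g' = 0)).card : ℝ) := by linarith
          exact_mod_cast this)
        (by
          have : (3 * (g'.totalDegree : ℝ) ^ 2) <
              ((Z.filter (fun b => bsub b g' = 0)).card : ℝ) := by linarith
          exact_mod_cast this)
      refine hrich q ?_ a (hX ha) b (hZ hb) (redOn_of_dvd hq hag) (blueOn_of_dvd hq hbg)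
      have hcR : ((X.filter (fun a => rsub a g' = 0)).card : ℝ) ≤
          ((R.filter (fun a => RedOn q a)).card : ℝ) := by
        have : (X.filter (fun a => rsub a g' = 0)) ⊆ (R.filter (fun a => RedOn q a)) := by
          intro l hl
          rw [Finset.mem_filter] at hl ⊢
          exact ⟨hX hl.1, redOn_of_dvd hq hl.2⟩
        exact_mod_cast Finset.card_le_card this
      have hcB : ((Z.filter (fun b => bsub b g' = 0)).card : ℝ) ≤
          ((B.filter (fun b => BlueOn q b)).card : ℝ) := by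
        have : (Z.filter (fun b => bsub b g' = 0)) ⊆ (B.filter (fun b => BlueOn q b)) := by
          intro l hl
          rw [Finset.mem_filter] at hl ⊢
          exact ⟨hZ hl.1, blueOn_of_dvd hq hl.2⟩
        exact_mod_cast Finset.card_le_card this
      rw [← hθ]
      have hsq : (0:ℝ) ≤ 3 * (g'.totalDegree : ℝ) ^ 2 := by positivity
      exact mul_lt_mul'' (by linarith) (by linarith) hu0 hv0)
  -- the sizes of the bad sets
  have hd0 : (0:ℝ) ≤ ((3 * e : ℕ) : ℝ) := Nat.cast_nonneg _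
  have h3d2 : 3 * ((3 * e : ℕ) : ℝ) ^ 2 * (60000 * 60000 * n) ≤ 3 * 904 ^ 2 * (x * z) := by
    rw [← hww, ← huu, ← hvv]
    exact aux_sq2 hL1 (by linarith) hd0 hd hΛL hhΛ
  have hx3 : 3 * ((3 * e : ℕ) : ℝ) ^ 2 ≤ x / 64 :=
    aux_sixtyfour (by linarith) hn hzn h3d2
  have hz3 : 3 * ((3 * e : ℕ) : ℝ) ^ 2 ≤ z / 64 :=
    aux_sixtyfour (by linarith) hn hxn (by rw [mul_comm z x]; exact h3d2)
  have hTh : 60000 * T * h ≤ u * v := by
    have h5 : 60000 * T * h * Λ ≤ u * v * Λ := by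
      calc 60000 * T * h * Λ = (60000 * L * T) * (u * v) := by
            rw [mul_assoc, hhΛ]; ring
        _ ≤ Λ * (u * v) := mul_le_mul_of_nonneg_right hΛT (by positivity)
        _ = u * v * Λ := by ring
    exact le_of_mul_le_mul_right h5 hΛpos
  have hu0 : 0 < u := by linarith
  have hv0 : 0 < v := by linarith
  have hxT : T * u / v * ((3 * e : ℕ) : ℝ) ≤ x / 64 := by
    rw [← huu]
    exact aux_theta hT hu0 hv0 hd hTh
  have hzT : T * v / u * ((3 * e : ℕ) : ℝ) ≤ z / 64 := by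
    rw [← hvv]
    exact aux_theta hT hv0 hu0 hd (by rw [mul_comm v u]; exact hTh)
  have hXb' : (Xb.card : ℝ) ≤ x / 32 := by linarith
  have hZb' : (Zb.card : ℝ) ≤ z / 32 := by linarith
  -- edges
  have hE1' : (eG G Xb Z : ℝ) ≤ Λ * (u * v / 5) := by
    refine (hmax Xb (hXb.trans hX) Z hZ).trans ?_
    apply mul_le_mul_of_nonneg_left _ hΛpos.le
    rw [Real.sqrt_le_left (by positivity)]
    have : (Xb.card : ℝ) * z ≤ x / 32 * z := mul_le_mul_of_nonneg_right hXb' (by linarith)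
    calc (Xb.card : ℝ) * z ≤ x / 32 * z := this
      _ = u ^ 2 * v ^ 2 / 32 := by rw [huu, hvv]; ring
      _ ≤ (u * v / 5) ^ 2 := by
        have : 0 ≤ u ^ 2 * v ^ 2 := by positivity
        nlinarith
  have hE2' : (eG G X Zb : ℝ) ≤ Λ * (u * v / 5) := by
    refine (hmax X hX Zb (hZb.trans hZ)).trans ?_
    apply mul_le_mul_of_nonneg_left _ hΛpos.le
    rw [Real.sqrt_le_left (by positivity)]
    have : x * (Zb.card : ℝ) ≤ x * (z / 32) := mul_le_mul_of_nonneg_left hZb' (by linarith)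
    calc x * (Zb.card : ℝ) ≤ x * (z / 32) := this
      _ = u ^ 2 * v ^ 2 / 32 := by rw [huu, hvv]; ring
      _ ≤ (u * v / 5) ^ 2 := by
        have : 0 ≤ u ^ 2 * v ^ 2 := by positivity
        nlinarith
  have hE3' : (eG G (X \ Xb) (Z \ Zb) : ℝ) ≤ 904 * h * x := by
    have h5 : (eG G (X \ Xb) (Z \ Zb) : ℝ) ≤ ((3 * e : ℕ) : ℝ) * x := by
      rw [hx]; exact_mod_cast hcount
    exact h5.trans (mul_le_mul_of_nonneg_right hd (by linarith))
  have hsum : (eG G X Z : ℝ) ≤ eG G (X \ Xb) (Z \ Zb) + eG G X Zb + eG G Xb Z := by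
    have h5 := eG_split_left G X Xb Z hXb
    have h6 := eG_split_right G (X \ Xb) Z Zb hZb
    have h7 : eG G (X \ Xb) Zb ≤ eG G X Zb := eG_mono G X (X \ Xb) Zb Zb Finset.sdiff_subset
      (Finset.Subset.refl _)
    have h8 : eG G X Z ≤ eG G (X \ Xb) (Z \ Zb) + eG G X Zb + eG G Xb Z := by omega
    exact_mod_cast h8
  rw [he] at hsum
  have hfin : 3 / 5 * (Λ * (u * v)) ≤ 904 * h * x := by linarith
  exact aux_fin hL1 hn (by linarith) hww hxn hΛpos hu0 hv0 hΛL hhΛ hfin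

end Run7.h894
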