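import Pool.Agent.Run7.h894.SurfA
import Pool.Agent.Run7.h894.Mit

/-!
# Surfaces with many red and many blue lines, part 2
-/

namespace Run7.h894

open MvPolynomial

variable {K : Type} [Field K]

/-- base point and direction of a red line -/
def redL (l : K × K × K) : (Fin 3 → K) × (Fin 3 → K) := (![l.1, 0, l.2.1], ![0, 1, l.2.2])

/-- base point and direction of a blue line -/
def blueL (l : K × K × K) : (Fin 3 → K) × (Fin 3 → K) := (![0, l.1, l.2.1], ![1, 0, l.2.2])

theorem redL_injective : Function.Injective (redL : K × K × K → _) := by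
  intro l l' h
  have h1 := congrArg (fun x => x.1 0) h
  have h2 := congrArg (fun x => x.1 2) h
  have h3 := congrArg (fun x => x.2 2) h
  simp [redL] at h1 h2 h3
  exact Prod.ext h1 (Prod.ext h2 h3)

theorem blueL_injective : Function.Injective (blueL : K × K × K → _) := by
  intro l l' h
  have h1 := congrArg (fun x => x.1 1) h
  have h2 := congrArg (fun x => x.1 2) h
  have h3 := congrArg (fun x => x.2 2) h
  simp [blueL] at h1 h2 h3
  exact Prod.ext h1 (Prod.ext h2 h3)

theorem rsub_X0 (l : K × K × K) : rsub l (X 0) = Polynomial.C l.1 := by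
  simp [rsub, lsub]

theorem rsub_X1 (l : K × K × K) : rsub l (X 1) = Polynomial.X := by
  simp [rsub, lsub]

theorem rsub_X2 (l : K × K × K) :
    rsub l (X 2) = Polynomial.C l.2.1 + Polynomial.C l.2.2 * Polynomial.X := by
  simp [rsub, lsub]

theorem bsub_X0 (l : K × K × K) : bsub l (X 0) = Polynomial.X := by
  simp [bsub, lsub]

theorem bsub_X1 (l : K × K × K) : bsub l (X 1) = Polynomial.C l.1 := by
  simp [bsub, lsub]

theorem bsub_X2 (l : K × K × K) :
    bsub l (X 2) = Polynomial.C l.2.1 + Polynomial.C l.2.2 * Polynomial.X := by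
  simp [bsub, lsub]

theorem rsub_C (l : K × K × K) (c : K) : rsub l (C c) = Polynomial.C c := by
  simp [rsub, lsub]

theorem bsub_C (l : K × K × K) (c : K) : bsub l (C c) = Polynomial.C c := by
  simp [bsub, lsub]

theorem deg_sep (a b : K) (i j : Fin 3) :
    (X i - C a - C b * X j : MvPolynomial (Fin 3) K).totalDegree ≤ 1 := by
  refine (totalDegree_sub _ _).trans (max_le ((totalDegree_sub _ _).trans (max_le ?_ ?_)) ?_)
  · rw [totalDegree_X]
  · rw [totalDegree_C]; exact Nat.zero_le _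
  · refine (totalDegree_mul _ _).trans ?_
    rw [totalDegree_C, totalDegree_X]

theorem C_add_C_mul_X_eq_zero {a b : K}
    (h : Polynomial.C a + Polynomial.C b * Polynomial.X = 0) : a = 0 ∧ b = 0 := by
  have c0 := congrArg (fun P => Polynomial.coeff P 0) h
  have c1 := congrArg (fun P => Polynomial.coeff P 1) h
  simp at c0 c1
  exact ⟨c0, c1⟩

theorem red_bezout (f g : MvPolynomial (Fin 3) K) (S : Finset (K × K × K)) (hf : Irreducible f)
    (hfg : ¬ f ∣ g) (h1 : ∀ l ∈ S, rsub l f = 0) (h2 : ∀ l ∈ S, rsub l g = 0) :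
    S.card ≤ f.totalDegree * g.totalDegree := by
  classical
  have h := p1 K f g (S.image redL) hf hfg ?_ ?_ ?_ ?_
  · rwa [Finset.card_image_of_injective _ redL_injective] at h
  · intro l hl
    obtain ⟨l, _, rfl⟩ := Finset.mem_image.mp hl
    intro h0
    have := congrFun h0 1
    simp [redL] at this
  · intro l hl l' hl' hne
    obtain ⟨l, _, rfl⟩ := Finset.mem_image.mp hl
    obtain ⟨l', _, rfl⟩ := Finset.mem_image.mp hl'
    have hne' : l ≠ l' := fun h => hne (by rw [h])
    by_cases hr : l.1 = l'.1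
    · refine ⟨X 2 - C l'.2.1 - C l'.2.2 * X 1, deg_sep _ _ _ _, ?_, ?_⟩
      · change rsub l' _ = 0
        simp only [map_sub, map_mul, rsub_X2, rsub_X1, rsub_C]
        ring
      · change rsub l _ ≠ 0
        simp only [map_sub, map_mul, rsub_X2, rsub_X1, rsub_C]
        intro h0
        have h3 : Polynomial.C (l.2.1 - l'.2.1) + Polynomial.C (l.2.2 - l'.2.2) * Polynomial.X
            = 0 := by
          rw [← h0, Polynomial.C_sub, Polynomial.C_sub]
          ring
        obtain ⟨h4, h5⟩ := C_add_C_mul_X_eq_zero h3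
        exact hne' (Prod.ext hr (Prod.ext (sub_eq_zero.mp h4) (sub_eq_zero.mp h5)))
    · refine ⟨X 0 - C l'.1 - C 0 * X 0, deg_sep _ _ _ _, ?_, ?_⟩
      · change rsub l' _ = 0
        simp only [map_sub, map_mul, rsub_X0, rsub_C]
        simp
      · change rsub l _ ≠ 0
        simp only [map_sub, map_mul, rsub_X0, rsub_C]
        rw [Polynomial.C_0, zero_mul, sub_zero, ← Polynomial.C_sub]
        intro h0
        exact hr (sub_eq_zero.mp (Polynomial.C_eq_zero.mp h0))
  · intro l hl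
    obtain ⟨l, hl', rfl⟩ := Finset.mem_image.mp hl
    exact h1 l hl'
  · intro l hl
    obtain ⟨l, hl', rfl⟩ := Finset.mem_image.mp hl
    exact h2 l hl'

theorem blue_bezout (f g : MvPolynomial (Fin 3) K) (S : Finset (K × K × K)) (hf : Irreducible f)
    (hfg : ¬ f ∣ g) (h1 : ∀ l ∈ S, bsub l f = 0) (h2 : ∀ l ∈ S, bsub l g = 0) :
    S.card ≤ f.totalDegree * g.totalDegree := by
  classical
  have h := p1 K f g (S.image blueL) hf hfg ?_ ?_ ?_ ?_
  · rwa [Finset.card_image_of_injective _ blueL_injective] at h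
  · intro l hl
    obtain ⟨l, _, rfl⟩ := Finset.mem_image.mp hl
    intro h0
    have := congrFun h0 0
    simp [blueL] at this
  · intro l hl l' hl' hne
    obtain ⟨l, _, rfl⟩ := Finset.mem_image.mp hl
    obtain ⟨l', _, rfl⟩ := Finset.mem_image.mp hl'
    have hne' : l ≠ l' := fun h => hne (by rw [h])
    by_cases hr : l.1 = l'.1
    · refine ⟨X 2 - C l'.2.1 - C l'.2.2 * X 0, deg_sep _ _ _ _, ?_, ?_⟩
      · change bsub l' _ = 0
        simp only [map_sub, map_mul, bsub_X2, bsub_X0, bsub_C]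
        ring
      · change bsub l _ ≠ 0
        simp only [map_sub, map_mul, bsub_X2, bsub_X0, bsub_C]
        intro h0
        have h3 : Polynomial.C (l.2.1 - l'.2.1) + Polynomial.C (l.2.2 - l'.2.2) * Polynomial.X
            = 0 := by
          rw [← h0, Polynomial.C_sub, Polynomial.C_sub]
          ring
        obtain ⟨h4, h5⟩ := C_add_C_mul_X_eq_zero h3
        exact hne' (Prod.ext hr (Prod.ext (sub_eq_zero.mp h4) (sub_eq_zero.mp h5)))
    · refine ⟨X 1 - C l'.1 - C 0 * X 0, deg_sep _ _ _ _, ?_, ?_⟩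
      · change bsub l' _ = 0
        simp only [map_sub, map_mul, bsub_X1, bsub_C]
        simp
      · change bsub l _ ≠ 0
        simp only [map_sub, map_mul, bsub_X1, bsub_C]
        rw [Polynomial.C_0, zero_mul, sub_zero, ← Polynomial.C_sub]
        intro h0
        exact hr (sub_eq_zero.mp (Polynomial.C_eq_zero.mp h0))
  · intro l hl
    obtain ⟨l, hl', rfl⟩ := Finset.mem_image.mp hl
    exact h1 l hl'
  · intro l hl
    obtain ⟨l, hl', rfl⟩ := Finset.mem_image.mp hl
    exact h2 l hl'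

theorem red_infinite (f g : MvPolynomial (Fin 3) K) (S : Set (K × K × K)) (hS : S.Infinite)
    (hf : Irreducible f) (h1 : ∀ l ∈ S, rsub l f = 0) (h2 : ∀ l ∈ S, rsub l g = 0) : f ∣ g := by
  by_contra hfg
  obtain ⟨T, hT, hc⟩ := hS.exists_subset_card_eq (f.totalDegree * g.totalDegree + 1)
  have := red_bezout f g T hf hfg (fun l hl => h1 l (hT hl)) (fun l hl => h2 l (hT hl))
  omega

theorem blue_infinite (f g : MvPolynomial (Fin 3) K) (S : Set (K × K × K)) (hS : S.Infinite)
    (hf : Irreducible f) (h1 : ∀ l ∈ S, bsub l f = 0) (h2 : ∀ l ∈ S, bsub l g = 0) : f ∣ g := by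
  by_contra hfg
  obtain ⟨T, hT, hc⟩ := hS.exists_subset_card_eq (f.totalDegree * g.totalDegree + 1)
  have := blue_bezout f g T hf hfg (fun l hl => h1 l (hT hl)) (fun l hl => h2 l (hT hl))
  omega

/-- Step 2: the polynomial involves `U`. -/
theorem pderiv_two_ne_zero [Infinite K] (p : ℕ) [CharP K p] (f : MvPolynomial (Fin 3) K)
    (hf : Irreducible f) (hd : f.totalDegree < p) (l b : K × K × K) (hl : rsub l f = 0)
    (hb : bsub b f = 0) : pderiv 2 f ≠ 0 := by
  classical
  intro h0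
  have hs : ∀ s ∈ f.support, s 2 = 0 := by
    intro s hs
    by_contra hne
    have h1 : coeff (s - Finsupp.single 2 1) (pderiv 2 f) = 0 := by rw [h0, coeff_zero]
    rw [coeff_pderiv] at h1
    have h2 : s - Finsupp.single 2 1 + Finsupp.single 2 1 = s := by
      apply tsub_add_cancel_of_le
      rw [Finsupp.single_le_iff]
      exact Nat.one_le_iff_ne_zero.mpr hne
    rw [h2] at h1
    have h3 : ((s - Finsupp.single 2 1 : Fin 3 →₀ ℕ) 2 : K) + 1 = (s 2 : K) := by
      have : (s - Finsupp.single 2 1 : Fin 3 →₀ ℕ) 2 + 1 = s 2 := by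
        simp
        omega
      exact_mod_cast congrArg (Nat.cast : ℕ → K) this
    rw [h3] at h1
    have h4 : s 2 ≤ f.totalDegree := by
      refine le_trans ?_ (le_totalDegree hs)
      rw [Finsupp.sum]
      exact Finset.single_le_sum (f := fun i => s i) (fun _ _ => Nat.zero_le _)
        (Finsupp.mem_support_iff.mpr hne)
    rcases mul_eq_zero.mp h1 with h5 | h5
    · exact (mem_support_iff.mp hs) h5
    · exact cast_ne_zero_of_lt p (Nat.pos_of_ne_zero hne) (lt_of_le_of_lt h4 hd) h5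
  have hind : ∀ s' t' : K, rsub (l.1, s', t') f = rsub l f := by
    intro s' t'
    unfold rsub lsub
    rw [aeval_def, eval₂_eq', aeval_def, eval₂_eq']
    apply Finset.sum_congr rfl
    intro s hs'
    congr 1
    apply Finset.prod_congr rfl
    intro i _
    fin_cases i
    · simp
    · simp
    · simp [hs s hs']
  have hdvd : f ∣ X 0 - C l.1 := by
    apply red_infinite f (X 0 - C l.1) (Set.range (fun s' : K => ((l.1, s', 0) : K × K × K)))
    · apply Set.infinite_range_of_injective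
      intro s s' h
      simpa using h
    · exact hf
    · rintro _ ⟨s', rfl⟩
      rw [hind, hl]
    · rintro _ ⟨s', rfl⟩
      rw [map_sub, rsub_X0, rsub_C]
      simp
  obtain ⟨w, hw⟩ := hdvd
  have h1 : bsub b (X 0 - C l.1) = 0 := by rw [hw, map_mul, hb, zero_mul]
  rw [map_sub, bsub_X0, bsub_C] at h1
  exact Polynomial.X_sub_C_ne_zero _ h1

/-- Step 4 for the blue direction, at points. -/
theorem key_blue (p : ℕ) [CharP K p] (f : MvPolynomial (Fin 3) K) (hdvd : f ∣ gg 0 f)
    (hd : f.totalDegree < p) (x y u : K) (h0 : eval ![x, y, u] f = 0)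
    (h1 : eval ![x, y, u] (pderiv 2 f) ≠ 0) :
    ∃ m : K, ∀ x' : K, eval ![x', y, u + m * (x' - x)] f = 0 := by
  refine ⟨-(eval ![x, y, u] (pderiv 0 f)) / eval ![x, y, u] (pderiv 2 f), fun x' => ?_⟩
  have h := key_line p (isDir_zero (-(eval ![x, y, u] (pderiv 0 f)) /
    eval ![x, y, u] (pderiv 2 f))) ![x, y, u] f hdvd hd h0 h1 (by
      field_simp
      ring)
  have h2 := eval_lsub ![x, y, u] ![1, 0, -(eval ![x, y, u] (pderiv 0 f)) /
    eval ![x, y, u] (pderiv 2 f)] f (x' - x)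
  rw [h, Polynomial.eval_zero] at h2
  rw [h2]
  congr 1
  congr 1
  funext i
  fin_cases i <;> simp

/-- Step 4 for the red direction, at points. -/
theorem key_red (p : ℕ) [CharP K p] (f : MvPolynomial (Fin 3) K) (hdvd : f ∣ gg 1 f)
    (hd : f.totalDegree < p) (x y u : K) (h0 : eval ![x, y, u] f = 0)
    (h1 : eval ![x, y, u] (pderiv 2 f) ≠ 0) :
    ∃ m : K, ∀ y' : K, eval ![x, y', u + m * (y' - y)] f = 0 := by
  refine ⟨-(eval ![x, y, u] (pderiv 1 f)) / eval ![x, y, u] (pderiv 2 f), fun y' => ?_⟩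
  have h := key_line p (isDir_one (-(eval ![x, y, u] (pderiv 1 f)) /
    eval ![x, y, u] (pderiv 2 f))) ![x, y, u] f hdvd hd h0 h1 (by
      field_simp
      ring)
  have h2 := eval_lsub ![x, y, u] ![0, 1, -(eval ![x, y, u] (pderiv 1 f)) /
    eval ![x, y, u] (pderiv 2 f)] f (y' - y)
  rw [h, Polynomial.eval_zero] at h2
  rw [h2]
  congr 1
  congr 1
  funext i
  fin_cases i <;> simp

theorem poly_zero_of_eval [Infinite K] {q : Polynomial K} (h : ∀ x, q.eval x = 0) : q = 0 :=
  Polynomial.funext (fun x => by rw [h x, Polynomial.eval_zero])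

/-- **P4.** -/
theorem p4 : S_P4 := by
  classical
  intro K _ _ p _ _ f RR BB hf hd hR hB cR cB
  have hd1 := one_le_totalDegree_of_irreducible hf
  -- Step 1
  have hg0 : f ∣ gg 0 f := by
    by_contra hn
    have h1 := blue_bezout f (gg 0 f) BB hf hn hB (fun l hl => gg_line (isDir_zero _) _ f (hB l hl))
    have h2 := totalDegree_gg_le 0 f
    have h3 : f.totalDegree * (gg 0 f).totalDegree ≤ f.totalDegree * (3 * f.totalDegree) :=
      Nat.mul_le_mul_left _ h2
    have h4 : f.totalDegree * (3 * f.totalDegree) = 3 * f.totalDegree ^ 2 := by ring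
    omega
  have hg1 : f ∣ gg 1 f := by
    by_contra hn
    have h1 := red_bezout f (gg 1 f) RR hf hn hR (fun l hl => gg_line (isDir_one _) _ f (hR l hl))
    have h2 := totalDegree_gg_le 1 f
    have h3 : f.totalDegree * (gg 1 f).totalDegree ≤ f.totalDegree * (3 * f.totalDegree) :=
      Nat.mul_le_mul_left _ h2
    have h4 : f.totalDegree * (3 * f.totalDegree) = 3 * f.totalDegree ^ 2 := by ring
    omega
  -- Step 2
  obtain ⟨l₁, hl₁⟩ : RR.Nonempty := Finset.card_pos.mp (by omega)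
  obtain ⟨b₁, hb₁⟩ : BB.Nonempty := Finset.card_pos.mp (by omega)
  have hU : pderiv 2 f ≠ 0 := pderiv_two_ne_zero p f hf hd l₁ b₁ (hR l₁ hl₁) (hB b₁ hb₁)
  -- Step 3
  have hnU : ¬ f ∣ pderiv 2 f := by
    rintro ⟨w, hw⟩
    have hw0 : w ≠ 0 := by
      rintro rfl
      rw [mul_zero] at hw
      exact hU hw
    have h1 := totalDegree_pderiv_lt f 2 hU
    rw [hw, totalDegree_mul_of_isDomain hf.ne_zero hw0] at h1
    omega
  obtain ⟨l₀, hl₀, hl₀U⟩ : ∃ l ∈ RR, rsub l (pderiv 2 f) ≠ 0 := by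
    by_contra hcon
    push Not at hcon
    have h1 := red_bezout f (pderiv 2 f) RR hf hnU hR hcon
    have h2 : f.totalDegree * (pderiv 2 f).totalDegree ≤ f.totalDegree * f.totalDegree :=
      Nat.mul_le_mul_left _ (totalDegree_pderiv_le f 2)
    have h3 : 3 * f.totalDegree ^ 2 = 3 * (f.totalDegree * f.totalDegree) := by ring
    have h4 : f.totalDegree * f.totalDegree ≤ 3 * (f.totalDegree * f.totalDegree) := by omega
    omega
  obtain ⟨y₀, hy₀⟩ : ∃ y, (rsub l₀ (pderiv 2 f)).eval y ≠ 0 := by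
    by_contra hcon
    push Not at hcon
    exact hl₀U (poly_zero_of_eval hcon)
  set x₀ := l₀.1 with hx₀
  set u₀ := l₀.2.1 + l₀.2.2 * y₀ with hu₀
  have hP0 : eval ![x₀, y₀, u₀] f = 0 := by
    rw [← eval_rsub, hR l₀ hl₀, Polynomial.eval_zero]
  have hP1 : eval ![x₀, y₀, u₀] (pderiv 2 f) ≠ 0 := by
    rw [← eval_rsub]; exact hy₀
  -- Step 5
  obtain ⟨m, hm⟩ := key_blue p f hg0 hd x₀ y₀ u₀ hP0 hP1
  let V₀ : K → K := fun x => u₀ + m * (x - x₀)
  let Ξ : Set K := {x | eval ![x, y₀, V₀ x] (pderiv 2 f) ≠ 0}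
  have hΞc : (Ξᶜ).Finite := by
    let q := lsub ![x₀, y₀, u₀] ![1, 0, m] (pderiv 2 f)
    have hq0 : q ≠ 0 := by
      intro h
      apply hP1
      have h1 := eval_lsub ![x₀, y₀, u₀] ![1, 0, m] (pderiv 2 f) 0
      change q.eval 0 = _ at h1
      rw [h, Polynomial.eval_zero] at h1
      rw [h1]
      congr 1
      congr 1
      funext i
      simp
    refine Set.Finite.subset ((q.roots.toFinset.finite_toSet).image (fun τ => x₀ + τ)) ?_
    intro x hx
    have hx' : eval ![x, y₀, V₀ x] (pderiv 2 f) = 0 := by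
      by_contra h
      exact hx h
    refine ⟨x - x₀, ?_, by ring⟩
    rw [Finset.mem_coe, Multiset.mem_toFinset, Polynomial.mem_roots hq0, Polynomial.IsRoot.def]
    change (lsub ![x₀, y₀, u₀] ![1, 0, m] (pderiv 2 f)).eval (x - x₀) = 0
    rw [eval_lsub]
    refine Eq.trans ?_ hx'
    congr 1
    congr 1
    funext i
    fin_cases i <;> simp [V₀]
  have hΞ : Ξ.Infinite := by
    intro h
    exact Set.infinite_univ (α := K) (by
      have := h.union hΞc
      rwa [Set.union_compl_self] at this)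
  have hn : ∀ x ∈ Ξ, ∃ n : K, ∀ y, eval ![x, y, V₀ x + n * (y - y₀)] f = 0 := by
    intro x hx
    exact key_red p f hg1 hd x y₀ (V₀ x) (hm x) hx
  choose! n hn using hn
  -- pigeonhole for y₁
  obtain ⟨Hs, hHs, hHc⟩ : ∃ Hs : Finset K, (∀ y ∈ Hs, y ≠ y₀) ∧ f.totalDegree < Hs.card := by
    have h1 : ({y₀}ᶜ : Set K).Infinite := (Set.finite_singleton y₀).infinite_compl
    obtain ⟨T, hT, hc⟩ := h1.exists_subset_card_eq (f.totalDegree + 1)
    exact ⟨T, fun y hy => hT hy, by omega⟩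
  have hex : ∀ x ∈ Ξ, ∃ y ∈ Hs, eval ![x, y, V₀ x + n x * (y - y₀)] (pderiv 2 f) ≠ 0 := by
    intro x hx
    by_contra hcon
    push Not at hcon
    let q := lsub ![x, y₀, V₀ x] ![0, 1, n x] (pderiv 2 f)
    have hqe : ∀ y, q.eval (y - y₀) = eval ![x, y, V₀ x + n x * (y - y₀)] (pderiv 2 f) := by
      intro y
      change (lsub ![x, y₀, V₀ x] ![0, 1, n x] (pderiv 2 f)).eval (y - y₀) = _
      rw [eval_lsub]
      congr 1
      congr 1
      funext i
      fin_cases i <;> simp
    have hq0 : q = 0 := by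
      apply eq_zero_of_card (Z := Hs.image (fun y => y - y₀))
      · intro z hz
        obtain ⟨y, hy, rfl⟩ := Finset.mem_image.mp hz
        rw [hqe, hcon y hy]
      · rw [Finset.card_image_of_injective _ (sub_left_injective)]
        exact lt_of_le_of_lt ((natDegree_lsub_le _ _ _).trans (totalDegree_pderiv_le f 2)) hHc
    apply hx
    have h1 := hqe y₀
    rw [hq0, Polynomial.eval_zero, sub_self, mul_zero, add_zero] at h1
    exact h1.symm
  obtain ⟨y₁, hy₁, hΞ₁⟩ : ∃ y₁ ∈ Hs,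
      {x ∈ Ξ | eval ![x, y₁, V₀ x + n x * (y₁ - y₀)] (pderiv 2 f) ≠ 0}.Infinite := by
    by_contra hcon
    apply hΞ
    have h1 : (⋃ y ∈ (Hs : Set K), {x ∈ Ξ | eval ![x, y, V₀ x + n x * (y - y₀)]
        (pderiv 2 f) ≠ 0}).Finite := by
      apply Set.Finite.biUnion Hs.finite_toSet
      intro y hy
      by_contra h
      exact hcon ⟨y, hy, h⟩
    refine h1.subset (fun x hx => ?_)
    obtain ⟨y, hy, h⟩ := hex x hx
    exact Set.mem_biUnion (Finset.mem_coe.mpr hy) ⟨hx, h⟩
  have hy₁₀ : y₁ ≠ y₀ := hHs y₁ hy₁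
  set Ξ₁ := {x ∈ Ξ | eval ![x, y₁, V₀ x + n x * (y₁ - y₀)] (pderiv 2 f) ≠ 0} with hΞ₁def
  have hm₁ : ∀ x ∈ Ξ₁, ∃ m₁ : K, ∀ x', eval ![x', y₁, V₀ x + n x * (y₁ - y₀) + m₁ * (x' - x)] f
      = 0 := by
    intro x hx
    exact key_blue p f hg0 hd x y₁ _ (hn x hx.1 y₁) hx.2
  choose! m₁ hm₁ using hm₁
  -- finitely many blue lines in the plane y = y₁
  let β : K → K × K × K := fun x => (y₁, V₀ x + n x * (y₁ - y₀) - m₁ x * x, m₁ x)
  have hβ : ∀ x ∈ Ξ₁, bsub (β x) f = 0 := by
    intro x hx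
    apply poly_zero_of_eval
    intro x'
    rw [eval_bsub, ← hm₁ x hx x']
    congr 1
    congr 1
    funext i
    fin_cases i
    · rfl
    · rfl
    · simp [β]
      ring
  have hfin : (β '' Ξ₁).Finite := by
    by_contra hinf
    have hdvd : f ∣ X 1 - C y₁ := by
      apply blue_infinite f (X 1 - C y₁) (β '' Ξ₁) hinf hf
      · rintro _ ⟨x, hx, rfl⟩
        exact hβ x hx
      · rintro _ ⟨x, hx, rfl⟩
        rw [map_sub, bsub_X1, bsub_C]
        simp [β]
    obtain ⟨w, hw⟩ := hdvd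
    have h1 := congrArg (fun P => eval ![x₀, y₀, u₀] P) hw
    simp only [map_mul, map_sub, eval_X, eval_C, hP0, zero_mul] at h1
    simp at h1
    exact hy₁₀ (sub_eq_zero.mp h1).symm
  obtain ⟨b, hb, hΞ₂⟩ : ∃ b ∈ β '' Ξ₁, {x ∈ Ξ₁ | β x = b}.Infinite := by
    by_contra hcon
    apply hΞ₁
    have h1 : (⋃ b ∈ β '' Ξ₁, {x ∈ Ξ₁ | β x = b}).Finite := by
      apply Set.Finite.biUnion hfin
      intro b hb
      by_contra h
      exact hcon ⟨b, hb, h⟩
    refine h1.subset (fun x hx => ?_)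
    exact Set.mem_biUnion (Set.mem_image_of_mem β hx) ⟨hx, rfl⟩
  -- the surface
  have hδ : y₁ - y₀ ≠ 0 := sub_ne_zero.mpr hy₁₀
  set ν₀ := (b.2.1 - (u₀ - m * x₀)) / (y₁ - y₀) with hν₀
  set ν₁ := (b.2.2 - m) / (y₁ - y₀) with hν₁
  refine ⟨(u₀ - m * x₀ - ν₀ * y₀, m - ν₁ * y₀, ν₀, ν₁), ?_⟩
  have hnx : ∀ x ∈ {x ∈ Ξ₁ | β x = b}, n x = ν₀ + ν₁ * x := by
    rintro x ⟨_, hx⟩
    have h1 : V₀ x + n x * (y₁ - y₀) - m₁ x * x = b.2.1 := by rw [← hx]
    have h2 : m₁ x = b.2.2 := by rw [← hx]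
    rw [h2] at h1
    rw [hν₀, hν₁]
    field_simp
    simp only [V₀] at h1
    linear_combination h1
  apply red_infinite f _ ((fun x => ((x, V₀ x - n x * y₀, n x) : K × K × K)) ''
    {x ∈ Ξ₁ | β x = b})
  · apply hΞ₂.image
    intro x _ x' _ h
    exact (Prod.ext_iff.mp h).1
  · exact hf
  · rintro _ ⟨x, hx, rfl⟩
    apply poly_zero_of_eval
    intro y
    rw [eval_rsub, ← hn x hx.1.1 y]
    congr 1
    congr 1
    funext i
    fin_cases i
    · rfl
    · rfl
    · simp
      ring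
  · rintro _ ⟨x, hx, rfl⟩
    have h1 := hnx x hx
    unfold bil
    simp only [map_sub, map_mul, rsub_X0, rsub_X1, rsub_X2, rsub_C]
    rw [h1]
    simp only [V₀, Polynomial.C_sub, Polynomial.C_mul, Polynomial.C_add]
    ring

end Run7.h894
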