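import Pool.Agent.Run7.h894.Arcs
import Pool.Agent.Run7.h894.SurfB
import Pool.Agent.Run7.h894.Layer
import Pool.Agent.Run7.h894.Fam

/-!
# The bound for a pair of fibres
-/

namespace Run7.h894

theorem eG_image {α β α' β' : Type*} [DecidableEq α'] [DecidableEq β'] (G : α' → β' → Prop) (G' : α → β → Prop) (f : α → α')
    (g : β → β') (hf : Function.Injective f) (hg : Function.Injective g) (X : Finset α)
    (Z : Finset β) (h : ∀ u ∈ X, ∀ v ∈ Z, (G (f u) (g v) ↔ G' u v)) :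
    eG G (X.image f) (Z.image g) = eG G' X Z := by
  classical
  rw [eG_left, eG_left, Finset.sum_image (fun a _ b _ h => hf h)]
  apply Finset.sum_congr rfl
  intro u hu
  rw [Finset.filter_image, Finset.card_image_of_injective _ hg]
  congr 1
  apply Finset.filter_congr
  intro v hv
  exact h u hu v hv

section

variable {p : ℕ} [Fact p.Prime] {K : Type} [Field K] [Algebra (ZMod p) K]

open Classical in
/-- the arc in the fibre `S` -/
noncomputable def Wr (ω : K) (μ κ : ZMod p) (S : Finset ((ZMod p × ZMod p) × ZMod p))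
    (q : K × K × K × K) : Finset ((ZMod p × ZMod p) × ZMod p) :=
  S.filter (fun u => arc ω μ κ q u)

/-- the pair of arcs is large -/
def Rich (ω : K) (μ κ : ZMod p) (S₁ S₂ : Finset ((ZMod p × ZMod p) × ZMod p))
    (q : K × K × K × K) : Prop :=
  4 * Real.sqrt ((S₁.card : ℝ) * S₂.card) <
    ((Wr ω μ κ S₁ q).card : ℝ) * (Wr ω μ (-κ) S₂ (star q)).card

/-- the pair lies on a large pair of arcs -/
def Reg (ω : K) (μ κ : ZMod p) (S₁ S₂ : Finset ((ZMod p × ZMod p) × ZMod p))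
    (u v : (ZMod p × ZMod p) × ZMod p) : Prop :=
  ∃ q : K × K × K × K, Rich ω μ κ S₁ S₂ q ∧ u ∈ Wr ω μ κ S₁ q ∧ v ∈ Wr ω μ (-κ) S₂ (star q)

variable {ω : K} {μ : ZMod p}

open Classical in
/-- **The generic part for a pair of fibres.** -/
theorem pair_gen [Infinite K] [CharP K p] (hω : ω ^ 2 = am K μ) (hμ : ¬ IsSquare μ)
    (h2 : (2 : ZMod p) ≠ 0) {κ : ZMod p} (hκ : κ ≠ 0)
    (S₁ S₂ : Finset ((ZMod p × ZMod p) × ZMod p)) (n : ℝ) (hn : 1 ≤ n)
    (h₁ : (S₁.card : ℝ) ≤ n) (h₂ : (S₂.card : ℝ) ≤ n) (hnp : Real.sqrt n ≤ p) (J : ℕ)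
    (hJ : n ≤ 4 ^ J) (x y : (ZMod p × ZMod p) × ZMod p → ℝ) (hx : ∀ u, 0 ≤ x u)
    (hy : ∀ u, 0 ≤ y u) :
    ∑ u ∈ S₁, ∑ v ∈ S₂, (if NullR μ κ u v ∧ ¬ Reg ω μ κ S₁ S₂ u v then x u * y v else 0) ≤
      5 * (J + 1) * (120000 * (1 + Real.log n) * Real.sqrt n) *
        (Real.sqrt (∑ u ∈ S₁, x u ^ 2) * Real.sqrt (∑ v ∈ S₂, y v ^ 2)) := by
  have hlog : 0 ≤ Real.log n := Real.log_nonneg hn
  have hrinj := redP_injective (K := K) hω hμ h2 hκ
  have hbinj := blueP_injective (K := K) hω hμ h2 hκ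
  set T : ℝ := Real.sqrt (4 * Real.sqrt ((S₁.card : ℝ) * S₂.card)) with hT
  have hT2 : T ^ 2 = 4 * Real.sqrt ((S₁.card : ℝ) * S₂.card) := Real.sq_sqrt (by positivity)
  have hTn : T ≤ 2 * Real.sqrt n := by
    rw [hT, Real.sqrt_le_left (by positivity), mul_pow, Real.sq_sqrt (by linarith)]
    have : Real.sqrt ((S₁.card : ℝ) * S₂.card) ≤ n := by
      rw [Real.sqrt_le_left (by linarith), sq]
      exact mul_le_mul h₁ h₂ (Nat.cast_nonneg _) (by linarith)
    linarith
  let G : K × K × K → K × K × K → Prop := fun a b => ∃ u ∈ S₁, ∃ v ∈ S₂,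
    a = redP ω μ κ u ∧ b = blueP ω μ κ v ∧ NullR μ κ u v ∧ ¬ Reg ω μ κ S₁ S₂ u v
  have hG' : ∀ u ∈ S₁, ∀ v ∈ S₂, (G (redP ω μ κ u) (blueP ω μ κ v) ↔
      (NullR μ κ u v ∧ ¬ Reg ω μ κ S₁ S₂ u v)) := by
    intro u hu v hv
    constructor
    · rintro ⟨u', _, v', _, e1, e2, h3⟩
      rw [hrinj e1, hbinj e2]
      exact h3
    · intro h
      exact ⟨u, hu, v, hv, rfl, rfl, h⟩
  have hcardR : ∀ q : K × K × K × K,
      ((S₁.image (redP ω μ κ)).filter (fun a => RedOn q a)).card = (Wr ω μ κ S₁ q).card := by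
    intro q
    rw [Finset.filter_image, Finset.card_image_of_injective _ hrinj]
    rfl
  have hcardB : ∀ q : K × K × K × K,
      ((S₂.image (blueP ω μ κ)).filter (fun a => BlueOn q a)).card
        = (Wr ω μ (-κ) S₂ (star q)).card := by
    intro q
    rw [Finset.filter_image, Finset.card_image_of_injective _ hbinj]
    congr 1
    unfold Wr
    apply Finset.filter_congr
    intro v _
    exact blueOn_iff κ q v
  have hmit := mit (K := K) p4 p (S₁.image (redP ω μ κ)) (S₂.image (blueP ω μ κ)) G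
    (by
      intro a _ b _ hab
      obtain ⟨u, _, v, _, rfl, rfl, h, _⟩ := hab
      exact (cross_iff hω κ u v).mpr h)
    (by
      intro a ha b hb b' hb' h h' he
      obtain ⟨u, _, rfl⟩ := Finset.mem_image.mp ha
      obtain ⟨v, _, rfl⟩ := Finset.mem_image.mp hb
      obtain ⟨v', _, rfl⟩ := Finset.mem_image.mp hb'
      exact blue_unique hω hμ u v v' h h' he)
    (by
      intro b hb a ha a' ha' h h' he
      obtain ⟨v, _, rfl⟩ := Finset.mem_image.mp hb
      obtain ⟨u, _, rfl⟩ := Finset.mem_image.mp ha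
      obtain ⟨u', _, rfl⟩ := Finset.mem_image.mp ha'
      exact red_unique hω hμ v u u' h h' he)
    T (Real.sqrt_nonneg _)
    (by
      intro q hq a ha b hb hra hbb hab
      obtain ⟨u, hu, rfl⟩ := Finset.mem_image.mp ha
      obtain ⟨v, hv, rfl⟩ := Finset.mem_image.mp hb
      have h3 := ((hG' u hu v hv).mp hab).2
      apply h3
      refine ⟨q, ?_, ?_, ?_⟩
      · unfold Rich
        rw [← hT2, ← hcardR q, ← hcardB q]
        exact hq
      · exact Finset.mem_filter.mpr ⟨hu, hra⟩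
      · exact Finset.mem_filter.mpr ⟨hv, (blueOn_iff κ q v).mp hbb⟩)
    n hn (by rw [Finset.card_image_of_injective _ hrinj]; exact h₁)
    (by rw [Finset.card_image_of_injective _ hbinj]; exact h₂) hnp
    (120000 * (1 + Real.log n) * Real.sqrt n)
    (by
      have : 0 ≤ (1 + Real.log n) * Real.sqrt n := by positivity
      linarith)
    (by
      have h3 := mul_le_mul_of_nonneg_left hTn (show 0 ≤ 60000 * (1 + Real.log n) by positivity)
      linarith)
  have hcard : ∀ S : Finset ((ZMod p × ZMod p) × ZMod p), (S.card : ℝ) ≤ n → S.card ≤ 4 ^ J := by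
    intro S hS
    have : (S.card : ℝ) ≤ 4 ^ J := hS.trans hJ
    exact_mod_cast this
  have hlay := layering (fun u v => NullR μ κ u v ∧ ¬ Reg ω μ κ S₁ S₂ u v) S₁ S₂
    (120000 * (1 + Real.log n) * Real.sqrt n) (by positivity) (by
      intro X hX Z hZ
      have h3 := hmit (X.image (redP ω μ κ)) (Finset.image_subset_image hX)
        (Z.image (blueP ω μ κ)) (Finset.image_subset_image hZ)
      rw [eG_image G (fun u v => NullR μ κ u v ∧ ¬ Reg ω μ κ S₁ S₂ u v) _ _ hrinj hbinj X Z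
        (fun u hu v hv => hG' u (hX hu) v (hZ hv)), Finset.card_image_of_injective _ hrinj,
        Finset.card_image_of_injective _ hbinj] at h3
      exact h3) J (hcard _ h₁) (hcard _ h₂)
    x (fun a _ => hx a) y (fun b _ => hy b)
  convert hlay

theorem star_injective : Function.Injective (star : K × K × K × K → K × K × K × K) := by
  intro q q' h
  rw [← star_star q, h, star_star]

/-- rich pairs of arcs are determined by the sets -/
theorem rich_injOn (hω : ω ^ 2 = am K μ) (hμ : ¬ IsSquare μ)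
    (h2 : (2 : ZMod p) ≠ 0) {κ : ZMod p} (hκ : κ ≠ 0)
    (S₁ S₂ : Finset ((ZMod p × ZMod p) × ZMod p)) :
    Set.InjOn (fun q : K × K × K × K => (Wr ω μ κ S₁ q, Wr ω μ (-κ) S₂ (star q)))
      {q | Rich ω μ κ S₁ S₂ q} := by
  classical
  intro q hq q' hq' h
  have e1 : Wr ω μ κ S₁ q = Wr ω μ κ S₁ q' := congrArg (fun z => z.1) h
  have e2 : Wr ω μ (-κ) S₂ (star q) = Wr ω μ (-κ) S₂ (star q') := congrArg (fun z => z.2) h
  by_cases hc : 2 < (Wr ω μ κ S₁ q).card
  · obtain ⟨u, v, w, hu, hv, hw, huv, huw, hvw⟩ := Finset.two_lt_card_iff.mp hc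
    have hu' := hu
    have hv' := hv
    have hw' := hw
    rw [e1] at hu' hv' hw'
    unfold Wr at hu hv hw hu' hv' hw'
    rw [Finset.mem_filter] at hu hv hw hu' hv' hw'
    exact (arc_inter hω hμ h2 hκ hκ huv huw hvw hu.2 hv.2 hw.2 hu'.2 hv'.2 hw'.2).2
  · by_cases hc' : 2 < (Wr ω μ (-κ) S₂ (star q)).card
    · obtain ⟨u, v, w, hu, hv, hw, huv, huw, hvw⟩ := Finset.two_lt_card_iff.mp hc'
      have hu' := hu
      have hv' := hv
      have hw' := hw
      rw [e2] at hu' hv' hw'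
      unfold Wr at hu hv hw hu' hv' hw'
      rw [Finset.mem_filter] at hu hv hw hu' hv' hw'
      exact star_injective (arc_inter hω hμ h2 (neg_ne_zero.mpr hκ) (neg_ne_zero.mpr hκ)
        huv huw hvw hu.2 hv.2 hw.2 hu'.2 hv'.2 hw'.2).2
    · exfalso
      have hr : 4 * Real.sqrt ((S₁.card : ℝ) * S₂.card) <
        ((Wr ω μ κ S₁ q).card : ℝ) * (Wr ω μ (-κ) S₂ (star q)).card := hq
      have h4 : (Wr ω μ κ S₁ q).card * (Wr ω μ (-κ) S₂ (star q)).card ≤ 2 * 2 :=
        Nat.mul_le_mul (by omega) (by omega)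
      have h4' : ((Wr ω μ κ S₁ q).card : ℝ) * (Wr ω μ (-κ) S₂ (star q)).card ≤ 4 := by
        exact_mod_cast h4
      have hpos : 0 < ((Wr ω μ κ S₁ q).card : ℝ) * (Wr ω μ (-κ) S₂ (star q)).card :=
        lt_of_le_of_lt (by positivity) hr
      have hS1 : 1 ≤ S₁.card := by
        by_contra h0
        have : (Wr ω μ κ S₁ q).card ≤ S₁.card := Finset.card_filter_le _ _
        have h5 : (Wr ω μ κ S₁ q).card = 0 := by omega
        rw [h5] at hpos
        simp at hpos
      have hS2 : 1 ≤ S₂.card := by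
        by_contra h0
        have : (Wr ω μ (-κ) S₂ (star q)).card ≤ S₂.card := Finset.card_filter_le _ _
        have h5 : (Wr ω μ (-κ) S₂ (star q)).card = 0 := by omega
        rw [h5] at hpos
        simp at hpos
      have h6 : (1 : ℝ) ≤ (S₁.card : ℝ) * S₂.card := by
        have : 1 * 1 ≤ S₁.card * S₂.card := Nat.mul_le_mul hS1 hS2
        exact_mod_cast this
      have h7 := Real.one_le_sqrt.mpr h6
      linarith

theorem rich_finite (hω : ω ^ 2 = am K μ) (hμ : ¬ IsSquare μ)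
    (h2 : (2 : ZMod p) ≠ 0) {κ : ZMod p} (hκ : κ ≠ 0)
    (S₁ S₂ : Finset ((ZMod p × ZMod p) × ZMod p)) :
    {q : K × K × K × K | Rich ω μ κ S₁ S₂ q}.Finite := by
  apply Set.Finite.of_finite_image _ (rich_injOn hω hμ h2 hκ S₁ S₂)
  exact Set.toFinite _

theorem rich_star {κ : ZMod p} {S₁ S₂ : Finset ((ZMod p × ZMod p) × ZMod p)}
    {q : K × K × K × K} (h : Rich ω μ κ S₁ S₂ q) : Rich ω μ (-κ) S₂ S₁ (star q) := by
  unfold Rich at h ⊢
  rw [star_star, neg_neg, mul_comm (S₂.card : ℝ), mul_comm ((Wr ω μ (-κ) S₂ (star q)).card : ℝ)]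
  exact h

end

end Run7.h894
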