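import Pool.Agent.Run7.h894.Final

/-!
# The choice of the parameters
-/

namespace Run7.h894

/-- the window for the prime `p`: `10^20 m d (log d)^4 ≤ p^5 ≤ 10^24 m d (log d)^4` -/
def InWindow (m d p : ℕ) : Prop :=
  (10 : ℝ) ^ 20 * (m * d * (Real.log d) ^ 4) ≤ (p : ℝ) ^ 5 ∧
    (p : ℝ) ^ 5 ≤ (10 : ℝ) ^ 24 * (m * d * (Real.log d) ^ 4)

/-- the range of the parameters -/
structure InRange (m d : ℕ) : Prop where
  two_le : 2 ≤ d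
  le_pow : d ≤ m ^ 4
  large : (10 : ℝ) ^ 52 * (m ^ 3 * (Real.log d) ^ 12) ≤ (d : ℝ) ^ 2

theorem InRange.m_pos {m d : ℕ} (h : InRange m d) : 1 ≤ m := by
  by_contra h0
  have h1 : m = 0 := by omega
  have h2 := h.le_pow
  have h3 := h.two_le
  rw [h1] at h2
  simp at h2
  omega

theorem log_two_half : 1 / 2 ≤ Real.log 2 := by
  have := Real.log_two_gt_d9
  linarith

theorem InRange.d_large {m d : ℕ} (h : InRange m d) : (10 : ℝ) ^ 20 ≤ d := by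
  have hd : (2 : ℝ) ≤ d := by exact_mod_cast h.two_le
  have hm : (1 : ℝ) ≤ m := by exact_mod_cast h.m_pos
  have h1 : 1 / 2 ≤ Real.log d := log_two_half.trans (Real.log_le_log (by norm_num) hd)
  have h2 : (1 / 2 : ℝ) ^ 12 ≤ (Real.log d) ^ 12 := pow_le_pow_left₀ (by norm_num) h1 12
  have h3 : (1 : ℝ) ≤ (m : ℝ) ^ 3 := one_le_pow₀ hm
  have h4 : (1 / 2 : ℝ) ^ 12 ≤ (m : ℝ) ^ 3 * (Real.log d) ^ 12 := by
    calc (1 / 2 : ℝ) ^ 12 ≤ (Real.log d) ^ 12 := h2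
      _ ≤ (m : ℝ) ^ 3 * (Real.log d) ^ 12 := le_mul_of_one_le_left (by positivity) h3
  have h5 : ((10 : ℝ) ^ 20) ^ 2 ≤ (d : ℝ) ^ 2 := by
    refine le_trans ?_ h.large
    calc ((10 : ℝ) ^ 20) ^ 2 ≤ 10 ^ 52 * (1 / 2 : ℝ) ^ 12 := by norm_num
      _ ≤ _ := mul_le_mul_of_nonneg_left h4 (by positivity)
  exact le_of_sq_le_sq h5 (by positivity)

theorem InRange.log_large {m d : ℕ} (h : InRange m d) : 1 ≤ Real.log d := by
  have h1 := h.d_large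
  exact (one_lt_log (by linarith [show (3 : ℝ) ≤ 10 ^ 20 by norm_num])).le

/-- the basic quantities -/
theorem window_facts {m d p : ℕ} (h : InRange m d) (hw : InWindow m d p) :
    (10 : ℝ) ^ 4 * d ≤ (p : ℝ) ^ 4 ∧ (10 : ℝ) ^ 4 ≤ p ∧ Real.log p ≤ 3 * Real.log d ∧
    (162 : ℝ) * 10 ^ 16 * (m * (Real.log d) ^ 4) ≤ (p : ℝ) ^ 2 := by
  have hd20 := h.d_large
  have hℓ := h.log_large
  have hm : (1 : ℝ) ≤ m := by exact_mod_cast h.m_pos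
  set ℓ := Real.log d with hℓdef
  have hd : (1 : ℝ) ≤ d := le_trans (by norm_num) hd20
  have hle : (d : ℝ) ≤ (m : ℝ) ^ 4 := by exact_mod_cast h.le_pow
  have hp0 : (0 : ℝ) ≤ p := Nat.cast_nonneg _
  have hℓ4 : 1 ≤ ℓ ^ 4 := one_le_pow₀ hℓ
  have hmd : (1 : ℝ) ≤ m * d := by nlinarith
  have hT : (10 : ℝ) ^ 20 * (m * d) ≤ (p : ℝ) ^ 5 := by
    refine le_trans ?_ hw.1
    have : (m : ℝ) * d ≤ m * d * ℓ ^ 4 := le_mul_of_one_le_right (by positivity) hℓ4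
    exact mul_le_mul_of_nonneg_left this (by positivity)
  have hp4 : (10 : ℝ) ^ 4 ≤ p := by
    have : ((10 : ℝ) ^ 4) ^ 5 ≤ (p : ℝ) ^ 5 := by
      refine le_trans ?_ hT
      calc ((10 : ℝ) ^ 4) ^ 5 = (10 : ℝ) ^ 20 * 1 := by norm_num
        _ ≤ (10 : ℝ) ^ 20 * ((m : ℝ) * d) := mul_le_mul_of_nonneg_left hmd (by positivity)
    exact le_of_pow_le_pow_left₀ (by norm_num) hp0 this
  refine ⟨?_, hp4, ?_, ?_⟩
  · have h1 : ((10 : ℝ) ^ 4 * d) ^ 5 ≤ ((p : ℝ) ^ 4) ^ 5 := by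
      calc ((10 : ℝ) ^ 4 * (d : ℝ)) ^ 5 = (10 : ℝ) ^ 20 * (d : ℝ) ^ 4 * (d : ℝ) := by ring
        _ ≤ (10 : ℝ) ^ 20 * (d : ℝ) ^ 4 * (m : ℝ) ^ 4 :=
            mul_le_mul_of_nonneg_left hle (by positivity)
        _ ≤ (10 : ℝ) ^ 80 * (d : ℝ) ^ 4 * (m : ℝ) ^ 4 := by
            have : (0 : ℝ) ≤ (d : ℝ) ^ 4 * (m : ℝ) ^ 4 := by positivity
            nlinarith
        _ = ((10 : ℝ) ^ 20 * ((m : ℝ) * d)) ^ 4 := by ring
        _ ≤ ((p : ℝ) ^ 5) ^ 4 := pow_le_pow_left₀ (by positivity) hT 4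
        _ = ((p : ℝ) ^ 4) ^ 5 := by ring
    exact le_of_pow_le_pow_left₀ (by norm_num) (by positivity) h1
  · have hℓd : ℓ ≤ d := by
      have := Real.log_le_sub_one_of_pos (show (0 : ℝ) < d by linarith)
      linarith
    have hmd' : (m : ℝ) ≤ d := by
      by_contra hcon
      push Not at hcon
      have h1 : (d : ℝ) ^ 2 < (m : ℝ) ^ 2 := pow_lt_pow_left₀ hcon (by linarith) (by norm_num)
      have h2 : (m : ℝ) ^ 2 ≤ (m : ℝ) ^ 3 := pow_le_pow_right₀ hm (by norm_num)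
      have h3 : (1 : ℝ) ≤ ℓ ^ 12 := one_le_pow₀ hℓ
      have h4 : (m : ℝ) ^ 3 ≤ m ^ 3 * ℓ ^ 12 := le_mul_of_one_le_right (by positivity) h3
      have h5 : (m : ℝ) ^ 3 * ℓ ^ 12 ≤ 10 ^ 52 * (m ^ 3 * ℓ ^ 12) :=
        le_mul_of_one_le_left (by positivity) (by norm_num)
      have h6 := h.large
      rw [← hℓdef] at h6
      linarith
    have h1 : (p : ℝ) ^ 5 ≤ (d : ℝ) ^ 15 := by
      refine hw.2.trans ?_
      have h2 : (m : ℝ) * d * ℓ ^ 4 ≤ d * d * d ^ 4 := by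
        have h3 : ℓ ^ 4 ≤ (d : ℝ) ^ 4 := pow_le_pow_left₀ (by linarith) hℓd 4
        exact mul_le_mul (mul_le_mul_of_nonneg_right hmd' (by linarith)) h3 (by positivity)
          (by positivity)
      have h4 : (10 : ℝ) ^ 24 ≤ (d : ℝ) ^ 9 := by
        calc (10 : ℝ) ^ 24 ≤ ((10 : ℝ) ^ 20) ^ 9 := by norm_num
          _ ≤ (d : ℝ) ^ 9 := pow_le_pow_left₀ (by norm_num) hd20 9
      calc (10 : ℝ) ^ 24 * (m * d * ℓ ^ 4) ≤ d ^ 9 * (d * d * d ^ 4) :=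
            mul_le_mul h4 h2 (by positivity) (by positivity)
        _ = (d : ℝ) ^ 15 := by ring
    have h2 : (p : ℝ) ≤ (d : ℝ) ^ 3 := by
      have h3 : (p : ℝ) ^ 5 ≤ ((d : ℝ) ^ 3) ^ 5 := by
        refine h1.trans (le_of_eq ?_)
        ring
      exact le_of_pow_le_pow_left₀ (by norm_num) (by positivity) h3
    have h3 := Real.log_le_log (by linarith [show (0 : ℝ) < 10 ^ 4 by norm_num]) h2
    rw [Real.log_pow] at h3
    exact_mod_cast h3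
  · have h1 : ((162 : ℝ) * 10 ^ 16 * (m * ℓ ^ 4)) ^ 5 ≤ ((p : ℝ) ^ 2) ^ 5 := by
      have h2 : ((162 : ℝ) * 10 ^ 16) ^ 5 ≤ 10 ^ 40 * 10 ^ 52 := by norm_num
      have h3 : (0 : ℝ) ≤ (m * ℓ ^ 4) ^ 5 := by positivity
      have h4 := h.large
      rw [← hℓdef] at h4
      calc ((162 : ℝ) * 10 ^ 16 * (m * ℓ ^ 4)) ^ 5
          = ((162 : ℝ) * 10 ^ 16) ^ 5 * (m * ℓ ^ 4) ^ 5 := by ring
        _ ≤ 10 ^ 40 * 10 ^ 52 * (m * ℓ ^ 4) ^ 5 := mul_le_mul_of_nonneg_right h2 h3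
        _ = 10 ^ 40 * (m ^ 2 * ℓ ^ 8) * (10 ^ 52 * (m ^ 3 * ℓ ^ 12)) := by ring
        _ ≤ 10 ^ 40 * (m ^ 2 * ℓ ^ 8) * (d : ℝ) ^ 2 := mul_le_mul_of_nonneg_left h4 (by positivity)
        _ = ((10 : ℝ) ^ 20 * (m * d * ℓ ^ 4)) ^ 2 := by ring
        _ ≤ ((p : ℝ) ^ 5) ^ 2 := pow_le_pow_left₀ (by positivity) hw.1 2
        _ = ((p : ℝ) ^ 2) ^ 5 := by ring
    exact le_of_pow_le_pow_left₀ (by norm_num) (by positivity) h1

/-- there is a prime in the window -/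
theorem window_exists {m d : ℕ} (h : InRange m d) : ∃ p : ℕ, p.Prime ∧ InWindow m d p := by
  have hd20 := h.d_large
  have hℓ := h.log_large
  have hm : (1 : ℝ) ≤ m := by exact_mod_cast h.m_pos
  set ℓ := Real.log d with hℓdef
  have hd : (1 : ℝ) ≤ d := le_trans (by norm_num) hd20
  have hmd : (1 : ℝ) ≤ m * d := by nlinarith
  have hT : (1 : ℝ) ≤ m * d * ℓ ^ 4 :=
    hmd.trans (le_mul_of_one_le_right (by positivity) (one_le_pow₀ hℓ))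
  set T : ℝ := (10 : ℝ) ^ 20 * (m * d * ℓ ^ 4) with hTdef
  have hT1 : (1 : ℝ) ≤ T := by
    rw [hTdef]
    nlinarith
  set P : ℝ := T ^ ((1 : ℝ) / 5) with hP
  have hP1 : 1 ≤ P := Real.one_le_rpow hT1 (by norm_num)
  have hP5 : P ^ 5 = T := by
    rw [hP, ← Real.rpow_natCast, ← Real.rpow_mul (by linarith)]
    norm_num
  have hn0 : ⌈P⌉₊ ≠ 0 := by
    have : 0 < ⌈P⌉₊ := Nat.ceil_pos.mpr (by linarith)
    omega
  obtain ⟨p, hp, hlt, hle⟩ := Nat.exists_prime_lt_and_le_two_mul ⌈P⌉₊ hn0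
  have h1 : P ≤ ⌈P⌉₊ := Nat.le_ceil P
  have h2 : (⌈P⌉₊ : ℝ) < P + 1 := Nat.ceil_lt_add_one (by linarith)
  have h3 : (⌈P⌉₊ : ℝ) < p := by exact_mod_cast hlt
  have h4 : (p : ℝ) ≤ 2 * ⌈P⌉₊ := by exact_mod_cast hle
  have h5 : (p : ℝ) ≤ 4 * P := by linarith
  refine ⟨p, hp, ?_, ?_⟩
  · rw [← hℓdef, ← hTdef, ← hP5]
    exact pow_le_pow_left₀ (by linarith) (by linarith) 5
  · rw [← hℓdef]
    calc (p : ℝ) ^ 5 ≤ (4 * P) ^ 5 := pow_le_pow_left₀ (Nat.cast_nonneg _) h5 5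
      _ = 4 ^ 5 * P ^ 5 := by ring
      _ = 4 ^ 5 * T := by rw [hP5]
      _ ≤ (10 : ℝ) ^ 24 * (m * d * ℓ ^ 4) := by
          rw [hTdef]
          nlinarith

/-- the parameters satisfy the conditions of `rip_phi` -/
theorem params_ok {m d p : ℕ} (h : InRange m d) (hw : InWindow m d p) :
    d / (p / 30 * p ^ 2) + 1 ≤ p ∧ 30 * (p / 30) ≤ p ∧
    (10 : ℝ) ^ 16 * (m * ((d / (p / 30 * p ^ 2) + 1 : ℕ) : ℝ) * (Real.log p) ^ 4) ≤ (p : ℝ) ^ 2 ∧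
    d ≤ (d / (p / 30 * p ^ 2) + 1) * (p * (p * (p / 30))) := by
  obtain ⟨h1, h2, h3, h4⟩ := window_facts h hw
  have hm : (1 : ℝ) ≤ m := by exact_mod_cast h.m_pos
  have hℓ := h.log_large
  have hd20 := h.d_large
  set ℓ := Real.log d with hℓdef
  have hd : (1 : ℝ) ≤ d := le_trans (by norm_num) hd20
  have hp : 10 ^ 4 ≤ p := by exact_mod_cast h2
  set A := p / 30 with hA
  have hA1 : 1 ≤ A := by omega
  have hA60 : p ≤ 60 * A := by omega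
  have hA60' : (p : ℝ) ≤ 60 * A := by exact_mod_cast hA60
  have hp0 : (0 : ℝ) < p := by linarith [show (0 : ℝ) < 10 ^ 4 by norm_num]
  have hAp : 0 < A * p ^ 2 := by positivity
  set Q := d / (A * p ^ 2) with hQ
  have hQ1 : (Q : ℝ) * (A * p ^ 2) ≤ d := by
    have : Q * (A * p ^ 2) ≤ d := Nat.div_mul_le_self _ _
    exact_mod_cast this
  have hQ2 : (Q : ℝ) * p ^ 3 ≤ 60 * d := by
    calc (Q : ℝ) * (p : ℝ) ^ 3 = (Q : ℝ) * ((p : ℝ) * (p : ℝ) ^ 2) := by ring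
      _ ≤ (Q : ℝ) * (60 * (A : ℝ) * (p : ℝ) ^ 2) := by
          apply mul_le_mul_of_nonneg_left _ (Nat.cast_nonneg _)
          exact mul_le_mul_of_nonneg_right hA60' (by positivity)
      _ = 60 * ((Q : ℝ) * ((A : ℝ) * (p : ℝ) ^ 2)) := by ring
      _ ≤ 60 * (d : ℝ) := by linarith
  refine ⟨?_, by omega, ?_, ?_⟩
  · have h5 : (Q : ℝ) * p ^ 3 ≤ (p - 1) * p ^ 3 := by
      refine hQ2.trans ?_
      have h6 : (p : ℝ) ^ 4 = p * p ^ 3 := by ring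
      have h7 : (10 : ℝ) ^ 4 * p ^ 3 ≤ p * p ^ 3 := mul_le_mul_of_nonneg_right h2 (by positivity)
      nlinarith
    have h6 : (Q : ℝ) ≤ p - 1 := le_of_mul_le_mul_right h5 (by positivity)
    have h7 : (Q : ℝ) + 1 ≤ p := by linarith
    exact_mod_cast h7
  · have hlogp : 0 ≤ Real.log p := Real.log_nonneg (by linarith [show (1 : ℝ) ≤ 10 ^ 4 by norm_num])
    have h5 : (Real.log p) ^ 4 ≤ 81 * ℓ ^ 4 := by
      calc (Real.log p) ^ 4 ≤ (3 * ℓ) ^ 4 := pow_le_pow_left₀ hlogp h3 4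
        _ = 81 * ℓ ^ 4 := by ring
    have h6 : (10 : ℝ) ^ 16 * (m * ((Q + 1 : ℕ) : ℝ) * (Real.log p) ^ 4) ≤
        81 * 10 ^ 16 * (m * Q * ℓ ^ 4) + 81 * 10 ^ 16 * (m * ℓ ^ 4) := by
      push_cast
      have h7 : (m : ℝ) * (Q + 1) * (Real.log p) ^ 4 ≤ m * (Q + 1) * (81 * ℓ ^ 4) :=
        mul_le_mul_of_nonneg_left h5 (by positivity)
      nlinarith
    have h8 : 162 * (10 : ℝ) ^ 16 * (m * Q * ℓ ^ 4) * p ^ 3 ≤ (p : ℝ) ^ 2 * p ^ 3 := by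
      calc 162 * (10 : ℝ) ^ 16 * (m * Q * ℓ ^ 4) * p ^ 3
          = 162 * 10 ^ 16 * (m * ℓ ^ 4) * (Q * p ^ 3) := by ring
        _ ≤ 162 * 10 ^ 16 * (m * ℓ ^ 4) * (60 * d) :=
            mul_le_mul_of_nonneg_left hQ2 (by positivity)
        _ = 9720 * 10 ^ 16 * (m * d * ℓ ^ 4) := by ring
        _ ≤ 10 ^ 20 * (m * d * ℓ ^ 4) :=
            mul_le_mul_of_nonneg_right (by norm_num) (by positivity)
        _ ≤ (p : ℝ) ^ 5 := hw.1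
        _ = (p : ℝ) ^ 2 * p ^ 3 := by ring
    have h9 : 162 * (10 : ℝ) ^ 16 * (m * Q * ℓ ^ 4) ≤ (p : ℝ) ^ 2 :=
      le_of_mul_le_mul_right h8 (by positivity)
    linarith
  · have h5 : d < (d / (A * p ^ 2) + 1) * (A * p ^ 2) := by
      have := Nat.lt_div_mul_add (a := d) hAp
      rw [add_mul, one_mul]
      exact this
    have h6 : (Q + 1) * (A * p ^ 2) = (Q + 1) * (p * (p * A)) := by ring
    rw [← hQ, h6] at h5
    exact h5.le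

/-- the number of rows -/
theorem rows_le {m d p : ℕ} (h : InRange m d) (hw : InWindow m d p) :
    (p : ℝ) ^ 3 ≤ 10 ^ 15 * ((m : ℝ) * d) ^ ((3 : ℝ) / 5) * (Real.log d) ^ ((12 : ℝ) / 5) := by
  have hℓ := h.log_large
  have hd20 := h.d_large
  have hd : (1 : ℝ) ≤ d := le_trans (by norm_num) hd20
  have hm : (1 : ℝ) ≤ m := by exact_mod_cast h.m_pos
  set ℓ := Real.log d with hℓdef
  have h1 := hw.2
  rw [← hℓdef] at h1
  have h2 : ((p : ℝ) ^ 5) ^ ((3 : ℝ) / 5) ≤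
      ((10 : ℝ) ^ 24 * (m * d * ℓ ^ 4)) ^ ((3 : ℝ) / 5) :=
    Real.rpow_le_rpow (by positivity) h1 (by norm_num)
  have h3 : ((p : ℝ) ^ 5) ^ ((3 : ℝ) / 5) = (p : ℝ) ^ 3 := by
    rw [← Real.rpow_natCast, ← Real.rpow_mul (Nat.cast_nonneg _), ← Real.rpow_natCast]
    norm_num
  have h4 : ((10 : ℝ) ^ 24 * (m * d * ℓ ^ 4)) ^ ((3 : ℝ) / 5) =
      ((10 : ℝ) ^ 24) ^ ((3 : ℝ) / 5) * (((m : ℝ) * d) ^ ((3 : ℝ) / 5) *
        ℓ ^ ((12 : ℝ) / 5)) := by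
    rw [Real.mul_rpow (by positivity) (by positivity), Real.mul_rpow (by positivity) (by positivity)]
    congr 2
    rw [← Real.rpow_natCast ℓ 4, ← Real.rpow_mul (by linarith)]
    norm_num
  have h5 : ((10 : ℝ) ^ 24) ^ ((3 : ℝ) / 5) ≤ 10 ^ 15 := by
    have : ((10 : ℝ) ^ 24) ^ ((3 : ℝ) / 5) ≤ ((10 : ℝ) ^ 25) ^ ((3 : ℝ) / 5) :=
      Real.rpow_le_rpow (by positivity) (by norm_num) (by norm_num)
    refine this.trans (le_of_eq ?_)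
    rw [← Real.rpow_natCast, ← Real.rpow_mul (by norm_num), ← Real.rpow_natCast]
    norm_num
  rw [h3, h4] at h2
  refine h2.trans ?_
  calc _ ≤ (10 : ℝ) ^ 15 * (((m : ℝ) * d) ^ ((3 : ℝ) / 5) * ℓ ^ ((12 : ℝ) / 5)) :=
        mul_le_mul_of_nonneg_right h5 (by positivity)
    _ = _ := by ring

end Run7.h894
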