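import Pool.Agent.Run7.h894.Pair

/-!
# The regular part
-/

namespace Run7.h894

section

variable {p : ℕ} [Fact p.Prime] {K : Type} [Field K] [Algebra (ZMod p) K]

/-- the arc of a triple `((c, c'), q)` -/
noncomputable def Wt (ω : K) (μ : ZMod p) (Fb : ZMod p → Finset ((ZMod p × ZMod p) × ZMod p))
    (t : (ZMod p × ZMod p) × (K × K × K × K)) : Finset ((ZMod p × ZMod p) × ZMod p) :=
  Wr ω μ (t.1.1 - t.1.2) (Fb t.1.1) t.2

/-- the involution on triples -/
def sg (t : (ZMod p × ZMod p) × (K × K × K × K)) : (ZMod p × ZMod p) × (K × K × K × K) :=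
  ((t.1.2, t.1.1), star t.2)

omit [Fact p.Prime] [Algebra (ZMod p) K] in
theorem sg_sg (t : (ZMod p × ZMod p) × (K × K × K × K)) : sg (sg t) = t := by
  unfold sg
  simp [star_star]

/-- rich triples -/
def RichT (ω : K) (μ : ZMod p) (Fb : ZMod p → Finset ((ZMod p × ZMod p) × ZMod p))
    (C₀ : Finset (ZMod p)) (t : (ZMod p × ZMod p) × (K × K × K × K)) : Prop :=
  t.1.1 ∈ C₀ ∧ t.1.2 ∈ C₀ ∧ t.1.1 ≠ t.1.2 ∧
    Rich ω μ (t.1.1 - t.1.2) (Fb t.1.1) (Fb t.1.2) t.2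

variable {ω : K} {μ : ZMod p}

theorem richT_sg {Fb : ZMod p → Finset ((ZMod p × ZMod p) × ZMod p)}
    {C₀ : Finset (ZMod p)} {t : (ZMod p × ZMod p) × (K × K × K × K)}
    (h : RichT ω μ Fb C₀ t) : RichT ω μ Fb C₀ (sg t) := by
  obtain ⟨h1, h2, h3, h4⟩ := h
  refine ⟨h2, h1, fun h => h3 h.symm, ?_⟩
  have h5 := rich_star h4
  rw [neg_sub] at h5
  exact h5

theorem richT_finite (hω : ω ^ 2 = am K μ) (hμ : ¬ IsSquare μ)
    (h2 : (2 : ZMod p) ≠ 0) (Fb : ZMod p → Finset ((ZMod p × ZMod p) × ZMod p))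
    (C₀ : Finset (ZMod p)) :
    {t : (ZMod p × ZMod p) × (K × K × K × K) | RichT ω μ Fb C₀ t}.Finite := by
  classical
  have h1 : (⋃ e ∈ (((C₀ ×ˢ C₀).filter (fun e => e.1 ≠ e.2) :
      Finset (ZMod p × ZMod p)) : Set (ZMod p × ZMod p)),
      ((fun q => (e, q)) '' {q : K × K × K × K | Rich ω μ (e.1 - e.2) (Fb e.1) (Fb e.2) q})).Finite := by
    apply Set.Finite.biUnion (Finset.finite_toSet _)
    intro e he
    apply Set.Finite.image
    rw [Finset.mem_coe, Finset.mem_filter] at he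
    exact rich_finite hω hμ h2 (sub_ne_zero.mpr he.2) _ _
  refine h1.subset ?_
  intro t ht
  obtain ⟨h3, h4, h5, h6⟩ := ht
  simp only [Set.mem_iUnion]
  refine ⟨t.1, ?_, ⟨t.2, h6, rfl⟩⟩
  rw [Finset.mem_coe, Finset.mem_filter, Finset.mem_product]
  exact ⟨⟨h3, h4⟩, h5⟩

theorem Wt_subset (Fb : ZMod p → Finset ((ZMod p × ZMod p) × ZMod p))
    (t : (ZMod p × ZMod p) × (K × K × K × K)) : Wt ω μ Fb t ⊆ Fb t.1.1 := by
  classical
  unfold Wt Wr
  exact Finset.filter_subset _ _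

theorem Wt_inter (hω : ω ^ 2 = am K μ) (hμ : ¬ IsSquare μ)
    (h2 : (2 : ZMod p) ≠ 0) (Fb : ZMod p → Finset ((ZMod p × ZMod p) × ZMod p))
    {t t' : (ZMod p × ZMod p) × (K × K × K × K)} (h : t.1.1 ≠ t.1.2) (h' : t'.1.1 ≠ t'.1.2)
    (he : t.1.1 = t'.1.1) (hne : t ≠ t') :
    (((Wt ω μ Fb t ∩ Wt ω μ Fb t').card : ℕ) : ℝ) ≤ 2 := by
  have h1 : (t.1.1 - t.1.2, t.2) ≠ (t'.1.1 - t'.1.2, t'.2) := by
    intro h0
    apply hne
    rw [Prod.mk.injEq, ← he] at h0
    refine Prod.ext (Prod.ext he ?_) h0.2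
    exact sub_right_injective h0.1
  have h3 := arc_inter_card hω hμ h2 (sub_ne_zero.mpr h) (sub_ne_zero.mpr h') h1 (Fb t.1.1)
  have h4 : (Wt ω μ Fb t ∩ Wt ω μ Fb t').card ≤ 2 := by
    unfold Wt Wr
    rw [← he] at h3 ⊢
    convert h3
  exact_mod_cast h4

open Classical in
/-- the number of rich triples -/
theorem richT_card (hω : ω ^ 2 = am K μ) (hμ : ¬ IsSquare μ)
    (h2 : (2 : ZMod p) ≠ 0) (Fb : ZMod p → Finset ((ZMod p × ZMod p) × ZMod p))
    (C₀ : Finset (ZMod p)) (T : Finset ((ZMod p × ZMod p) × (K × K × K × K)))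
    (hT : ∀ t, t ∈ T ↔ RichT ω μ Fb C₀ t) :
    (T.card : ℝ) ≤ 2 * ∑ c ∈ C₀, Real.sqrt ((Fb c).card) := by
  set T1 := T.filter (fun t => 2 * Real.sqrt ((Fb t.1.1).card) < ((Wt ω μ Fb t).card : ℝ))
    with hT1
  have hsub : T ⊆ T1 ∪ T1.image sg := by
    intro t ht
    rw [Finset.mem_union]
    by_cases h : 2 * Real.sqrt ((Fb t.1.1).card) < ((Wt ω μ Fb t).card : ℝ)
    · left
      rw [hT1, Finset.mem_filter]
      exact ⟨ht, h⟩
    · right
      rw [Finset.mem_image]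
      refine ⟨sg t, ?_, sg_sg t⟩
      rw [hT1, Finset.mem_filter]
      refine ⟨(hT _).mpr (richT_sg ((hT t).mp ht)), ?_⟩
      by_contra h'
      push Not at h h'
      have h3 := ((hT t).mp ht).2.2.2
      unfold Rich at h3
      rw [neg_sub, Real.sqrt_mul (Nat.cast_nonneg _)] at h3
      have h4 : ((Wt ω μ Fb t).card : ℝ) * (Wt ω μ Fb (sg t)).card ≤
          (2 * Real.sqrt ((Fb t.1.1).card)) * (2 * Real.sqrt ((Fb (sg t).1.1).card)) :=
        mul_le_mul h h' (Nat.cast_nonneg _) (by positivity)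
      have h5 : ((Wt ω μ Fb t).card : ℝ) * (Wt ω μ Fb (sg t)).card =
          ((Wr ω μ (t.1.1 - t.1.2) (Fb t.1.1) t.2).card : ℝ) *
            (Wr ω μ (t.1.2 - t.1.1) (Fb t.1.2) (star t.2)).card := rfl
      rw [h5] at h4
      have h6 : (sg t).1.1 = t.1.2 := rfl
      rw [h6] at h4
      linarith
  have hcard : T.card ≤ T1.card + T1.card :=
    (Finset.card_le_card hsub).trans ((Finset.card_union_le _ _).trans
      (Nat.add_le_add_left Finset.card_image_le _))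
  have hcard' : (T.card : ℝ) ≤ T1.card + T1.card := by exact_mod_cast hcard
  have hmem : ∀ t ∈ T1, t.1.1 ∈ C₀ := fun t ht =>
    ((hT t).mp (Finset.mem_filter.mp ht).1).1
  have h7 : T1.card = ∑ c ∈ C₀, (T1.filter (fun t => t.1.1 = c)).card :=
    Finset.card_eq_sum_card_fiberwise hmem
  have h8 : (T1.card : ℝ) ≤ ∑ c ∈ C₀, Real.sqrt ((Fb c).card) := by
    rw [h7]
    push_cast
    apply Finset.sum_le_sum
    intro c _
    rcases Nat.eq_zero_or_pos (Fb c).card with h0 | hpos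
    · have h9 : T1.filter (fun t => t.1.1 = c) = ∅ := by
        apply Finset.filter_eq_empty_iff.mpr
        intro t ht hc
        have h10 := (Finset.mem_filter.mp ht).2
        have h11 : (Wt ω μ Fb t).card ≤ (Fb t.1.1).card := Finset.card_le_card (Wt_subset Fb t)
        rw [hc, h0] at h11
        have h12 : (Wt ω μ Fb t).card = 0 := by omega
        rw [h12, hc, h0] at h10
        simp at h10
      rw [h9]
      simp
    · have hpos' : (0 : ℝ) < (Fb c).card := by exact_mod_cast hpos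
      have h9 := fam_count (T1.filter (fun t => t.1.1 = c)) (fun t => Wt ω μ Fb t) (Fb c)
        (by
          intro t ht
          have hc := (Finset.mem_filter.mp ht).2
          rw [← hc]
          exact Wt_subset Fb t)
        (2 * Real.sqrt ((Fb c).card)) (by positivity)
        (by
          intro t ht
          have hc := (Finset.mem_filter.mp ht)
          have h10 := (Finset.mem_filter.mp hc.1).2
          rw [hc.2] at h10
          exact h10.le)
        (by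
          rw [mul_pow, Real.sq_sqrt hpos'.le]
          linarith)
        (by
          intro t ht t' ht' hne
          have hc := (Finset.mem_filter.mp ht)
          have hc' := (Finset.mem_filter.mp ht')
          have hr := (hT t).mp (Finset.mem_filter.mp hc.1).1
          have hr' := (hT t').mp (Finset.mem_filter.mp hc'.1).1
          have := Wt_inter hω hμ h2 Fb hr.2.2.1 hr'.2.2.1 (hc.2.trans hc'.2.symm) hne
          convert this)
      have hs : 0 < Real.sqrt ((Fb c).card) := Real.sqrt_pos.mpr hpos'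
      have hss : ((Fb c).card : ℝ) = Real.sqrt ((Fb c).card) * Real.sqrt ((Fb c).card) :=
        (Real.mul_self_sqrt hpos'.le).symm
      have h10 : ((T1.filter (fun t => t.1.1 = c)).card : ℝ) * (2 * Real.sqrt ((Fb c).card)) ≤
          Real.sqrt ((Fb c).card) * (2 * Real.sqrt ((Fb c).card)) := by
        calc _ ≤ 2 * ((Fb c).card : ℝ) := h9
          _ = 2 * (Real.sqrt ((Fb c).card) * Real.sqrt ((Fb c).card)) := congrArg (2 * ·) hss
          _ = _ := by ring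
      exact le_of_mul_le_mul_right h10 (mul_pos two_pos hs)
  linarith

open Classical in
/-- the sum of squares over the rich triples -/
theorem richT_sum (hω : ω ^ 2 = am K μ) (hμ : ¬ IsSquare μ)
    (h2 : (2 : ZMod p) ≠ 0) (Fb : ZMod p → Finset ((ZMod p × ZMod p) × ZMod p))
    (C₀ : Finset (ZMod p)) (T : Finset ((ZMod p × ZMod p) × (K × K × K × K)))
    (hT : ∀ t, t ∈ T ↔ RichT ω μ Fb C₀ t) (A₀ : Finset (ZMod p))
    (hA : ∀ c ∈ C₀, ∀ u ∈ Fb c, u.2 ∈ A₀) (x : ZMod p → (ZMod p × ZMod p) × ZMod p → ℝ) :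
    ∑ t ∈ T, (∑ u ∈ Wt ω μ Fb t, x t.1.1 u) * (∑ v ∈ Wt ω μ Fb (sg t), x t.1.2 v) ≤
      (2 * A₀.card + 4 * ∑ c ∈ C₀, Real.sqrt ((Fb c).card)) *
        ∑ c ∈ C₀, ∑ u ∈ Fb c, x c u ^ 2 := by
  have h1 : ∑ t ∈ T, (∑ u ∈ Wt ω μ Fb t, x t.1.1 u) * (∑ v ∈ Wt ω μ Fb (sg t), x t.1.2 v) ≤
      ∑ t ∈ T, ((∑ u ∈ Wt ω μ Fb t, x t.1.1 u) ^ 2 / 2 +
        (∑ v ∈ Wt ω μ Fb (sg t), x (sg t).1.1 v) ^ 2 / 2) := by
    apply Finset.sum_le_sum
    intro t _
    have h3 : (sg t).1.1 = t.1.2 := rfl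
    rw [h3]
    nlinarith [sq_nonneg ((∑ u ∈ Wt ω μ Fb t, x t.1.1 u) - (∑ v ∈ Wt ω μ Fb (sg t), x t.1.2 v))]
  rw [Finset.sum_add_distrib] at h1
  have h3 : ∑ t ∈ T, (∑ v ∈ Wt ω μ Fb (sg t), x (sg t).1.1 v) ^ 2 / 2
      = ∑ t ∈ T, (∑ v ∈ Wt ω μ Fb t, x t.1.1 v) ^ 2 / 2 := by
    apply Finset.sum_nbij' sg sg
    · intro t ht
      exact (hT _).mpr (richT_sg ((hT t).mp ht))
    · intro t ht
      exact (hT _).mpr (richT_sg ((hT t).mp ht))
    · intro t _
      exact sg_sg t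
    · intro t _
      exact sg_sg t
    · intro t _
      rfl
  rw [h3, ← Finset.sum_add_distrib] at h1
  have h4 : ∑ t ∈ T, ((∑ u ∈ Wt ω μ Fb t, x t.1.1 u) ^ 2 / 2 +
      (∑ u ∈ Wt ω μ Fb t, x t.1.1 u) ^ 2 / 2)
      = ∑ c ∈ C₀, ∑ t ∈ T.filter (fun t => t.1.1 = c), (∑ u ∈ Wt ω μ Fb t, x c u) ^ 2 := by
    rw [← Finset.sum_fiberwise_of_maps_to (s := T) (t := C₀) (g := fun t => t.1.1)
      (fun t ht => ((hT t).mp ht).1)]
    apply Finset.sum_congr rfl
    intro c _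
    apply Finset.sum_congr rfl
    intro t ht
    rw [(Finset.mem_filter.mp ht).2]
    ring
  rw [h4] at h1
  refine h1.trans ?_
  rw [Finset.mul_sum]
  apply Finset.sum_le_sum
  intro c hc
  have hX0 : 0 ≤ ∑ u ∈ Fb c, x c u ^ 2 := Finset.sum_nonneg (fun i _ => sq_nonneg _)
  have h5 := fam_bound (T.filter (fun t => t.1.1 = c)) (fun t => Wt ω μ Fb t) (Fb c)
    (by
      intro t ht
      have hc := (Finset.mem_filter.mp ht).2
      rw [← hc]
      exact Wt_subset Fb t)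
    (2 * A₀.card) 2 (by positivity) (by norm_num)
    (by
      intro t ht
      have hc' := (Finset.mem_filter.mp ht)
      have hr := (hT t).mp hc'.1
      have h6 := arc_card hω hμ h2 (sub_ne_zero.mpr hr.2.2.1) t.2 (Fb t.1.1) A₀
        (hA _ hr.1)
      have h7 : (Wt ω μ Fb t).card ≤ 2 * A₀.card := by
        unfold Wt Wr
        convert h6
      exact_mod_cast h7)
    (by
      intro t ht t' ht' hne
      have hc := (Finset.mem_filter.mp ht)
      have hc' := (Finset.mem_filter.mp ht')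
      have hr := (hT t).mp hc.1
      have hr' := (hT t').mp hc'.1
      have := Wt_inter hω hμ h2 Fb hr.2.2.1 hr'.2.2.1 (hc.2.trans hc'.2.symm) hne
      convert this)
    (x c)
  refine h5.trans (mul_le_mul_of_nonneg_right ?_ hX0)
  have h6 : ((T.filter (fun t => t.1.1 = c)).card : ℝ) ≤ T.card := by
    exact_mod_cast Finset.card_filter_le _ _
  have h7 := richT_card hω hμ h2 Fb C₀ T hT
  linarith

open Classical in
/-- **The regular part.** -/
theorem reg_total (hω : ω ^ 2 = am K μ) (hμ : ¬ IsSquare μ)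
    (h2 : (2 : ZMod p) ≠ 0) (Fb : ZMod p → Finset ((ZMod p × ZMod p) × ZMod p))
    (C₀ : Finset (ZMod p)) (A₀ : Finset (ZMod p))
    (hA : ∀ c ∈ C₀, ∀ u ∈ Fb c, u.2 ∈ A₀) (x : ZMod p → (ZMod p × ZMod p) × ZMod p → ℝ)
    (hx : ∀ c u, 0 ≤ x c u) :
    ∑ e ∈ (C₀ ×ˢ C₀).filter (fun e => e.1 ≠ e.2), ∑ u ∈ Fb e.1, ∑ v ∈ Fb e.2,
      (if NullR μ (e.1 - e.2) u v ∧ Reg ω μ (e.1 - e.2) (Fb e.1) (Fb e.2) u v
        then x e.1 u * x e.2 v else 0) ≤
      (2 * A₀.card + 4 * ∑ c ∈ C₀, Real.sqrt ((Fb c).card)) *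
        ∑ c ∈ C₀, ∑ u ∈ Fb c, x c u ^ 2 := by
  set T : Finset ((ZMod p × ZMod p) × (K × K × K × K)) :=
    (richT_finite hω hμ h2 Fb C₀).toFinset with hTdef
  have hT : ∀ t, t ∈ T ↔ RichT ω μ Fb C₀ t := by
    intro t
    rw [hTdef, Set.Finite.mem_toFinset]
    rfl
  refine le_trans ?_ (richT_sum hω hμ h2 Fb C₀ T hT A₀ hA x)
  rw [← Finset.sum_fiberwise_of_maps_to (s := T)
    (t := (C₀ ×ˢ C₀).filter (fun e => e.1 ≠ e.2)) (g := fun t => t.1)
    (fun t ht => by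
      have := (hT t).mp ht
      rw [Finset.mem_filter, Finset.mem_product]
      exact ⟨⟨this.1, this.2.1⟩, this.2.2.1⟩)]
  apply Finset.sum_le_sum
  intro e he
  rw [Finset.mem_filter, Finset.mem_product] at he
  have h1 : ∑ t ∈ T.filter (fun t => t.1 = e),
      (∑ u ∈ Wt ω μ Fb t, x t.1.1 u) * (∑ v ∈ Wt ω μ Fb (sg t), x t.1.2 v)
      = ∑ u ∈ Fb e.1, ∑ v ∈ Fb e.2, ∑ t ∈ T.filter (fun t => t.1 = e),
        (if u ∈ Wt ω μ Fb t ∧ v ∈ Wt ω μ Fb (sg t) then x e.1 u * x e.2 v else 0) := by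
    have h3 : ∀ u ∈ Fb e.1, ∑ v ∈ Fb e.2, ∑ t ∈ T.filter (fun t => t.1 = e),
        (if u ∈ Wt ω μ Fb t ∧ v ∈ Wt ω μ Fb (sg t) then x e.1 u * x e.2 v else 0)
        = ∑ t ∈ T.filter (fun t => t.1 = e), ∑ v ∈ Fb e.2,
        (if u ∈ Wt ω μ Fb t ∧ v ∈ Wt ω μ Fb (sg t) then x e.1 u * x e.2 v else 0) :=
      fun u _ => Finset.sum_comm
    rw [Finset.sum_congr rfl h3, Finset.sum_comm]
    apply Finset.sum_congr rfl
    intro t ht
    have hte := (Finset.mem_filter.mp ht).2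
    have h4 : Wt ω μ Fb t = (Fb e.1).filter (fun u => u ∈ Wt ω μ Fb t) := by
      ext u
      rw [Finset.mem_filter]
      constructor
      · intro h
        refine ⟨?_, h⟩
        rw [← hte]
        exact Wt_subset Fb t h
      · intro h
        exact h.2
    have h5 : Wt ω μ Fb (sg t) = (Fb e.2).filter (fun u => u ∈ Wt ω μ Fb (sg t)) := by
      ext u
      rw [Finset.mem_filter]
      constructor
      · intro h
        refine ⟨?_, h⟩
        rw [← hte]
        exact Wt_subset Fb (sg t) h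
      · intro h
        exact h.2
    conv_lhs => rw [h4, h5]
    rw [hte, Finset.sum_mul_sum, Finset.sum_filter]
    apply Finset.sum_congr rfl
    intro u _
    by_cases hu : u ∈ Wt ω μ Fb t
    · rw [if_pos hu, Finset.sum_filter]
      apply Finset.sum_congr rfl
      intro v _
      by_cases hv : v ∈ Wt ω μ Fb (sg t)
      · rw [if_pos hv, if_pos ⟨hu, hv⟩]
      · rw [if_neg hv, if_neg (fun h => hv h.2)]
    · rw [if_neg hu]
      symm
      apply Finset.sum_eq_zero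
      intro v _
      rw [if_neg (fun h => hu h.1)]
  rw [h1]
  apply Finset.sum_le_sum
  intro u hu
  apply Finset.sum_le_sum
  intro v hv
  have hnn : ∀ t ∈ T.filter (fun t => t.1 = e),
      0 ≤ (if u ∈ Wt ω μ Fb t ∧ v ∈ Wt ω μ Fb (sg t) then x e.1 u * x e.2 v else 0) := by
    intro t _
    split_ifs
    · exact mul_nonneg (hx _ _) (hx _ _)
    · exact le_rfl
  by_cases hreg : NullR μ (e.1 - e.2) u v ∧ Reg ω μ (e.1 - e.2) (Fb e.1) (Fb e.2) u v
  · rw [if_pos hreg]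
    obtain ⟨q, hq, hqu, hqv⟩ := hreg.2
    have ht : (e, q) ∈ T.filter (fun t => t.1 = e) := by
      rw [Finset.mem_filter]
      exact ⟨(hT _).mpr ⟨he.1.1, he.1.2, he.2, hq⟩, rfl⟩
    rw [neg_sub] at hqv
    have h3 := Finset.single_le_sum hnn ht
    have h4 : u ∈ Wt ω μ Fb (e, q) ∧ v ∈ Wt ω μ Fb (sg (e, q)) := ⟨hqu, hqv⟩
    rw [if_pos h4] at h3
    exact h3
  · rw [if_neg hreg]
    exact Finset.sum_nonneg hnn

end

end Run7.h894
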