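import Pool.Agent.Run7.h894.Gram

/-!
# The restricted isometry property of `Phi`
-/

namespace Run7.h894

section

variable {D : Type*} [Fintype D]

theorem sum_supp (x : D → ℂ) (F : D → ℝ) (hF : ∀ j, x j = 0 → F j = 0) :
    ∑ j, F j = ∑ j ∈ supp x, F j := by
  classical
  symm
  apply Finset.sum_subset (Finset.subset_univ _)
  intro j _ hj
  apply hF
  by_contra h
  apply hj
  unfold supp
  rw [Finset.mem_filter]
  exact ⟨Finset.mem_univ _, h⟩

theorem l1_bound (x : D → ℂ) (n : ℕ) (hn : (supp x).card ≤ n) :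
    (∑ j, ‖x j‖) ^ 2 ≤ n * ∑ j, ‖x j‖ ^ 2 := by
  rw [sum_supp x (fun j => ‖x j‖) (fun j h => by rw [h]; simp),
    sum_supp x (fun j => ‖x j‖ ^ 2) (fun j h => by rw [h]; simp)]
  refine sq_sum_le_card_mul_sum_sq.trans ?_
  apply mul_le_mul_of_nonneg_right _ (Finset.sum_nonneg (fun _ _ => sq_nonneg _))
  exact_mod_cast hn

omit [Fintype D] in
/-- double sums over fibres -/
theorem fib_sum {C : Type*} [DecidableEq C] (S : Finset D) (f : D → C) (C₀ : Finset C)
    (hf : ∀ j ∈ S, f j ∈ C₀) (H : D → D → ℝ) :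
    ∑ j ∈ S, ∑ j' ∈ S, (if f j ≠ f j' then H j j' else 0) =
      ∑ e ∈ (C₀ ×ˢ C₀).filter (fun e => e.1 ≠ e.2), ∑ j ∈ S.filter (fun j => f j = e.1),
        ∑ j' ∈ S.filter (fun j => f j = e.2), H j j' := by
  rw [Finset.sum_filter, Finset.sum_product,
    ← Finset.sum_fiberwise_of_maps_to (s := S) (t := C₀) (g := f) hf]
  apply Finset.sum_congr rfl
  intro c _
  have h1 : ∀ j ∈ S.filter (fun j => f j = c), ∑ j' ∈ S, (if f j ≠ f j' then H j j' else 0) =
      ∑ c' ∈ C₀, ∑ j' ∈ S.filter (fun j => f j = c'), (if c ≠ c' then H j j' else 0) := by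
    intro j hj
    rw [← Finset.sum_fiberwise_of_maps_to (s := S) (t := C₀) (g := f) hf]
    apply Finset.sum_congr rfl
    intro c' _
    apply Finset.sum_congr rfl
    intro j' hj'
    rw [(Finset.mem_filter.mp hj).2, (Finset.mem_filter.mp hj').2]
  rw [Finset.sum_congr rfl h1, Finset.sum_comm]
  apply Finset.sum_congr rfl
  intro c' _
  by_cases h : c = c'
  · simp [h]
  · simp [h]

end

section

variable {p : ℕ} [Fact p.Prime]

open Classical in
/-- cliques inside a fibre -/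
theorem clique_bound {L A : ℕ} (hL : L ≤ p)
    (y : Fin L × ZMod p × ZMod p × Fin A → ℝ) :
    ∑ j, ∑ j', (if fc (p := p) j = fc j' ∧ (fu j).1 = (fu j').1 then (1 : ℝ) else 0) *
      (y j * y j') ≤ A * ∑ j, y j ^ 2 := by
  have h1 : ∀ j j' : Fin L × ZMod p × ZMod p × Fin A,
      (if fc (p := p) j = fc j' ∧ (fu j).1 = (fu j').1 then (1 : ℝ) else 0) * (y j * y j') ≤
      (if fc (p := p) j = fc j' ∧ (fu j).1 = (fu j').1 then y j ^ 2 / 2 else 0) +
      (if fc (p := p) j = fc j' ∧ (fu j).1 = (fu j').1 then y j' ^ 2 / 2 else 0) := by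
    intro j j'
    split_ifs
    · nlinarith [sq_nonneg (y j - y j')]
    · simp
  refine (Finset.sum_le_sum (fun j _ => Finset.sum_le_sum (fun j' _ => h1 j j'))).trans ?_
  simp only [Finset.sum_add_distrib]
  have hcount : ∀ j : Fin L × ZMod p × ZMod p × Fin A,
      (((Finset.univ : Finset (Fin L × ZMod p × ZMod p × Fin A)).filter
        (fun j' => fc (p := p) j = fc j' ∧ (fu j).1 = (fu j').1)).card : ℝ) ≤ A := by
    intro j
    have h2 : ((Finset.univ : Finset (Fin L × ZMod p × ZMod p × Fin A)).filter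
        (fun j' => fc (p := p) j = fc j' ∧ (fu j).1 = (fu j').1)).card ≤
        (Finset.univ : Finset (Fin A)).card := by
      apply Finset.card_le_card_of_injOn (fun j' => j'.2.2.2) (fun _ _ => Finset.mem_univ _)
      intro a ha b hb hab
      rw [Finset.coe_filter, Set.mem_ofPred_eq] at ha hb
      have h3 : fc (p := p) a = fc b := ha.2.1.symm.trans hb.2.1
      have h4 : (fu a : (ZMod p × ZMod p) × ZMod p).1 = (fu b).1 := ha.2.2.symm.trans hb.2.2
      unfold fc at h3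
      unfold fu at h4
      have h5 := Prod.ext_iff.mp h4
      exact Prod.ext (cast_fin_inj hL h3) (Prod.ext h5.1 (Prod.ext h5.2 hab))
    rw [Finset.card_univ, Fintype.card_fin] at h2
    exact_mod_cast h2
  have h2 : ∑ j : Fin L × ZMod p × ZMod p × Fin A, ∑ j' : Fin L × ZMod p × ZMod p × Fin A,
      (if fc (p := p) j = fc j' ∧ (fu j).1 = (fu j').1
      then y j ^ 2 / 2 else 0) ≤ A * (∑ j, y j ^ 2) / 2 := by
    rw [Finset.mul_sum, Finset.sum_div]
    apply Finset.sum_le_sum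
    intro j _
    rw [← Finset.sum_filter, Finset.sum_const, nsmul_eq_mul]
    have := mul_le_mul_of_nonneg_right (hcount j) (show 0 ≤ y j ^ 2 / 2 by positivity)
    linarith
  have h3 : ∑ j : Fin L × ZMod p × ZMod p × Fin A, ∑ j' : Fin L × ZMod p × ZMod p × Fin A,
      (if fc (p := p) j = fc j' ∧ (fu j).1 = (fu j').1
      then y j' ^ 2 / 2 else 0) ≤ A * (∑ j, y j ^ 2) / 2 := by
    rw [Finset.sum_comm]
    refine le_trans (le_of_eq ?_) h2
    apply Finset.sum_congr rfl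
    intro j _
    apply Finset.sum_congr rfl
    intro j' _
    congr 1
    apply propext
    exact ⟨fun h => ⟨h.1.symm, h.2.symm⟩, fun h => ⟨h.1.symm, h.2.symm⟩⟩
  linarith

open Classical in
/-- the null graph for the columns -/
theorem null_cols (hp : p ≠ 2) {L A : ℕ} (hL : L ≤ p) (hA : A ≤ p) (ν : ZMod p)
    (hν : ¬ IsSquare ν) (x : Fin L × ZMod p × ZMod p × Fin A → ℂ) (n : ℕ) (hn1 : 1 ≤ n)
    (hn : (supp x).card ≤ n) (hnp : Real.sqrt n ≤ p) (J : ℕ) (hJ : (n : ℝ) ≤ 4 ^ J) :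
    ∑ j, ∑ j', (if fc j ≠ fc j' ∧ NullR ν⁻¹ (fc j - fc j') (fu j) (fu j') then (1 : ℝ) else 0) *
      (‖x j‖ * ‖x j'‖) ≤
      (2 * A + 4 * Real.sqrt (L * n) +
        5 * (J + 1) * (120000 * (1 + Real.log n)) * (2 * Real.sqrt (L * n))) *
        ∑ j, ‖x j‖ ^ 2 := by
  obtain ⟨ω, hω⟩ := IsAlgClosed.exists_pow_nat_eq
    (am (AlgebraicClosure (ZMod p)) (ν⁻¹ : ZMod p)) (n := 2) (by norm_num)
  have hμ : ¬ IsSquare (ν⁻¹ : ZMod p) := by
    rw [isSquare_inv]
    exact hν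
  have h2 : (2 : ZMod p) ≠ 0 := by
    intro h
    have h' : ((2 : ℕ) : ZMod p) = 0 := by exact_mod_cast h
    rw [ZMod.natCast_eq_zero_iff] at h'
    have := (Nat.prime_dvd_prime_iff_eq (Fact.out : p.Prime) Nat.prime_two).mp h'
    exact hp this
  set S := supp x with hS
  set C₀ : Finset (ZMod p) := Finset.univ.image (fun l : Fin L => ((l : ℕ) : ZMod p)) with hC₀
  set A₀ : Finset (ZMod p) := Finset.univ.image (fun l : Fin A => ((l : ℕ) : ZMod p)) with hA₀
  set Fb : ZMod p → Finset ((ZMod p × ZMod p) × ZMod p) :=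
    fun c => (S.filter (fun j => fc j = c)).image fu with hFb
  set w : ZMod p → (ZMod p × ZMod p) × ZMod p → ℝ := fun c u =>
    if h : ∃ j : Fin L × ZMod p × ZMod p × Fin A, fc j = c ∧ fu j = u then ‖x h.choose‖ else 0
    with hw
  have hw0 : ∀ c u, 0 ≤ w c u := by
    intro c u
    rw [hw]
    simp only
    split_ifs
    · exact norm_nonneg _
    · exact le_rfl
  have hwj : ∀ j, w (fc j) (fu j) = ‖x j‖ := by
    intro j
    have hex : ∃ j' : Fin L × ZMod p × ZMod p × Fin A, fc (p := p) j' = fc j ∧ fu j' = fu j :=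
      ⟨j, rfl, rfl⟩
    rw [hw]
    simp only
    rw [dif_pos hex]
    have h3 := hex.choose_spec
    rw [col_inj hL hA h3.1 h3.2]
  have hinj : ∀ c : ZMod p, Set.InjOn (fu : Fin L × ZMod p × ZMod p × Fin A → _)
      ((S.filter (fun j => fc j = c) : Finset _) : Set _) := by
    intro c a ha b hb hab
    rw [Finset.coe_filter, Set.mem_ofPred_eq] at ha hb
    exact col_inj hL hA (ha.2.trans hb.2.symm) hab
  have hsumF : ∀ (c : ZMod p) (F : (ZMod p × ZMod p) × ZMod p → ℝ),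
      ∑ u ∈ Fb c, F u = ∑ j ∈ S.filter (fun j => fc j = c), F (fu j) := by
    intro c F
    rw [hFb]
    simp only
    rw [Finset.sum_image (hinj c)]
  have hmaps : ∀ j ∈ S, fc j ∈ C₀ := by
    intro j _
    rw [hC₀, Finset.mem_image]
    exact ⟨j.1, Finset.mem_univ _, rfl⟩
  have hcardC : (C₀.card : ℝ) ≤ L := by
    have : C₀.card ≤ (Finset.univ : Finset (Fin L)).card := Finset.card_image_le
    rw [Finset.card_univ, Fintype.card_fin] at this
    exact_mod_cast this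
  have hcardA : (A₀.card : ℝ) ≤ A := by
    have : A₀.card ≤ (Finset.univ : Finset (Fin A)).card := Finset.card_image_le
    rw [Finset.card_univ, Fintype.card_fin] at this
    exact_mod_cast this
  have hAmem : ∀ c ∈ C₀, ∀ u ∈ Fb c, u.2 ∈ A₀ := by
    intro c _ u hu
    rw [hFb] at hu
    simp only at hu
    rw [Finset.mem_image] at hu
    obtain ⟨j, _, rfl⟩ := hu
    rw [hA₀, Finset.mem_image]
    exact ⟨j.2.2.2, Finset.mem_univ _, rfl⟩
  have hcardF : ∑ c ∈ C₀, ((Fb c).card : ℝ) ≤ n := by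
    have h3 : ∀ c ∈ C₀, ((Fb c).card : ℝ) = ((S.filter (fun j => fc j = c)).card : ℝ) := by
      intro c _
      rw [hFb]
      simp only
      rw [Finset.card_image_of_injOn (hinj c)]
    rw [Finset.sum_congr rfl h3]
    have h4 : S.card = ∑ c ∈ C₀, (S.filter (fun j => fc j = c)).card :=
      Finset.card_eq_sum_card_fiberwise hmaps
    have h5 : ∑ c ∈ C₀, (S.filter (fun j => fc j = c)).card ≤ n := h4 ▸ hn
    exact_mod_cast h5
  have hn1' : (1 : ℝ) ≤ n := by exact_mod_cast hn1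
  have hmain := null_total hω hμ h2 Fb C₀ A₀ hAmem (n : ℝ) hn1' hcardF hnp J hJ w hw0
  have hR : ∑ c ∈ C₀, ∑ u ∈ Fb c, w c u ^ 2 = ∑ j, ‖x j‖ ^ 2 := by
    rw [sum_supp x (fun j => ‖x j‖ ^ 2) (fun j h => by rw [h]; simp), ← hS,
      ← Finset.sum_fiberwise_of_maps_to (s := S) (t := C₀) (g := fc) hmaps]
    apply Finset.sum_congr rfl
    intro c _
    rw [hsumF]
    apply Finset.sum_congr rfl
    intro j hj
    rw [← (Finset.mem_filter.mp hj).2, hwj]
  have hLs : ∑ j, ∑ j', (if fc j ≠ fc j' ∧ NullR ν⁻¹ (fc j - fc j') (fu j) (fu j')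
        then (1 : ℝ) else 0) * (‖x j‖ * ‖x j'‖) =
      ∑ e ∈ (C₀ ×ˢ C₀).filter (fun e => e.1 ≠ e.2), ∑ u ∈ Fb e.1, ∑ v ∈ Fb e.2,
      (if NullR ν⁻¹ (e.1 - e.2) u v then w e.1 u * w e.2 v else 0) := by
    rw [sum_supp x _ (fun j h => by rw [h]; simp), ← hS]
    have h3 : ∀ j ∈ S, ∑ j', (if fc j ≠ fc j' ∧ NullR ν⁻¹ (fc j - fc j') (fu j) (fu j')
        then (1 : ℝ) else 0) * (‖x j‖ * ‖x j'‖) =
        ∑ j' ∈ S, (if fc j ≠ fc j' then
          (if NullR ν⁻¹ (fc j - fc j') (fu j) (fu j') then ‖x j‖ * ‖x j'‖ else 0) else 0) := by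
      intro j _
      rw [sum_supp x _ (fun j h => by rw [h]; simp), ← hS]
      apply Finset.sum_congr rfl
      intro j' _
      by_cases h4 : fc j ≠ fc j'
      · by_cases h5 : NullR ν⁻¹ (fc j - fc j') (fu j) (fu j')
        · rw [if_pos ⟨h4, h5⟩, if_pos h4, if_pos h5, one_mul]
        · rw [if_neg (fun h => h5 h.2), if_pos h4, if_neg h5, zero_mul]
      · rw [if_neg (fun h => h4 h.1), if_neg h4, zero_mul]
    rw [Finset.sum_congr rfl h3, fib_sum S fc C₀ hmaps]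
    apply Finset.sum_congr rfl
    intro e _
    rw [hsumF]
    apply Finset.sum_congr rfl
    intro j hj
    rw [hsumF]
    apply Finset.sum_congr rfl
    intro j' hj'
    rw [← (Finset.mem_filter.mp hj).2, ← (Finset.mem_filter.mp hj').2, hwj, hwj]
  rw [hLs, ← hR]
  refine hmain.trans (mul_le_mul_of_nonneg_right ?_
    (Finset.sum_nonneg (fun c _ => Finset.sum_nonneg (fun u _ => sq_nonneg _))))
  have h6 : Real.sqrt ((C₀.card : ℝ) * n) ≤ Real.sqrt (L * n) :=
    Real.sqrt_le_sqrt (mul_le_mul_of_nonneg_right hcardC (by linarith))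
  have hlog : 0 ≤ Real.log n := Real.log_nonneg hn1'
  have h7 : 5 * ((J : ℝ) + 1) * (120000 * (1 + Real.log n)) * (2 * Real.sqrt ((C₀.card : ℝ) * n)) ≤
      5 * (J + 1) * (120000 * (1 + Real.log n)) * (2 * Real.sqrt (L * n)) :=
    mul_le_mul_of_nonneg_left (by linarith) (by positivity)
  linarith

/-- **The main bound.** -/
theorem main_bound (hp : p ≠ 2) {L A : ℕ} (hL : L ≤ p) (hA : A ≤ p) (ν : ZMod p)
    (hν : ¬ IsSquare ν) (x : Fin L × ZMod p × ZMod p × Fin A → ℂ) (n : ℕ) (hn1 : 1 ≤ n)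
    (hn : (supp x).card ≤ n) (hnp : Real.sqrt n ≤ p) (J : ℕ) (hJ : (n : ℝ) ≤ 4 ^ J) :
    |∑ i, ‖∑ j, Phi p ν L A i j * x j‖ ^ 2 - ((p : ℝ) ^ 2 * (p - 1)) * ∑ j, ‖x j‖ ^ 2| ≤
      (p * n + (p : ℝ) ^ 2 * (A + (2 * A + 4 * Real.sqrt (L * n) +
        5 * (J + 1) * (120000 * (1 + Real.log n)) * (2 * Real.sqrt (L * n))))) *
        ∑ j, ‖x j‖ ^ 2 := by
  classical
  have h1 := gram_bound (Phi p ν L A) ((p : ℝ) ^ 2 * (p - 1))
    (fun j j' => (p : ℝ) + (p : ℝ) ^ 2 * ((if fc j ≠ fc j' ∧ NullR ν⁻¹ (fc j - fc j') (fu j) (fu j')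
        then 1 else 0) + (if fc j = fc j' ∧ (fu j).1 = (fu j').1 then 1 else 0)))
    (gram_diag hp ν hν) (fun j j' h => by
      have := gram_off hp hL hA ν hν j j' h
      convert this)
    (fun j => by positivity) x
  refine h1.trans ?_
  have h2 : ∑ j, ∑ j', ((p : ℝ) + (p : ℝ) ^ 2 * ((if fc j ≠ fc j' ∧
        NullR ν⁻¹ (fc j - fc j') (fu j) (fu j')
        then 1 else 0) + (if fc j = fc j' ∧ (fu j).1 = (fu j').1 then 1 else 0))) *
        (‖x j‖ * ‖x j'‖) =
      (p : ℝ) * (∑ j, ‖x j‖) ^ 2 + (p : ℝ) ^ 2 *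
        ((∑ j, ∑ j', (if fc j ≠ fc j' ∧ NullR ν⁻¹ (fc j - fc j') (fu j) (fu j')
          then (1 : ℝ) else 0) * (‖x j‖ * ‖x j'‖)) +
        ∑ j : Fin L × ZMod p × ZMod p × Fin A, ∑ j' : Fin L × ZMod p × ZMod p × Fin A,
          (if fc (p := p) j = fc j' ∧ (fu j).1 = (fu j').1 then (1 : ℝ) else 0) *
          (‖x j‖ * ‖x j'‖)) := by
    rw [pow_two (∑ j, ‖x j‖), Finset.sum_mul_sum, Finset.mul_sum, ← Finset.sum_add_distrib,
      Finset.mul_sum, ← Finset.sum_add_distrib]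
    apply Finset.sum_congr rfl
    intro j _
    rw [Finset.mul_sum, ← Finset.sum_add_distrib, Finset.mul_sum, ← Finset.sum_add_distrib]
    apply Finset.sum_congr rfl
    intro j' _
    ring
  have h3 := null_cols hp hL hA ν hν x n hn1 hn hnp J hJ
  have h4 := clique_bound (p := p) (A := A) hL (fun j => ‖x j‖)
  have h5 := l1_bound x n hn
  have hp0 : (0 : ℝ) ≤ p := Nat.cast_nonneg _
  have h6 := mul_le_mul_of_nonneg_left h5 hp0
  have h7 := mul_le_mul_of_nonneg_left (add_le_add h3 h4) (sq_nonneg (p : ℝ))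
  calc _ = _ := h2
    _ ≤ (p : ℝ) * (n * ∑ j, ‖x j‖ ^ 2) + (p : ℝ) ^ 2 * ((2 * A + 4 * Real.sqrt (L * n) +
        5 * (J + 1) * (120000 * (1 + Real.log n)) * (2 * Real.sqrt (L * n))) *
        ∑ j, ‖x j‖ ^ 2 + A * ∑ j, ‖x j‖ ^ 2) := add_le_add h6 (by convert h7)
    _ = _ := by ring

end

end Run7.h894
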