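import Pool.Agent.Run7.h894.Params

/-!
# Submatrices formed by columns
-/

namespace Run7.h894

theorem sum_extend {D E M : Type*} [Fintype D] [Fintype E] [AddCommMonoid M] (e : E → D)
    (he : Function.Injective e) (x : E → ℂ) (F : D → ℂ → M) (hF : ∀ j, F j 0 = 0) :
    ∑ j, F j (Function.extend e x 0 j) = ∑ a, F (e a) (x a) := by
  classical
  have h1 : ∑ a, F (e a) (x a) = ∑ a, F (e a) (Function.extend e x 0 (e a)) := by
    apply Finset.sum_congr rfl
    intro a _
    rw [he.extend_apply]
  rw [h1, ← Finset.sum_image (s := Finset.univ) (g := e)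
    (f := fun j => F j (Function.extend e x 0 j)) (fun a _ b _ h => he h)]
  symm
  apply Finset.sum_subset (Finset.subset_univ _)
  intro j _ hj
  rw [Function.extend_apply', Pi.zero_apply, hF]
  rintro ⟨a, rfl⟩
  exact hj (Finset.mem_image.mpr ⟨a, Finset.mem_univ _, rfl⟩)

theorem supp_extend {D E : Type*} [Fintype D] [Fintype E] (e : E → D)
    (he : Function.Injective e) (x : E → ℂ) :
    (supp (Function.extend e x 0)).card = (supp x).card := by
  classical
  have h1 := sum_extend e he x (fun _ z => if z ≠ 0 then 1 else 0) (fun _ => by simp)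
  have h2 : (supp (Function.extend e x 0)).card =
      ∑ j, if Function.extend e x 0 j ≠ 0 then 1 else 0 := by
    rw [supp, Finset.card_filter]
  have h3 : (supp x).card = ∑ j, if x j ≠ 0 then 1 else 0 := by
    rw [supp, Finset.card_filter]
  rw [h2, h3]
  exact h1

/-- the restricted isometry property passes to submatrices formed by columns -/
theorem HasRIP.sub {R D E : Type*} [Fintype R] [Fintype D] [Fintype E] {m : ℕ}
    {Φ : Matrix R D ℂ} (h : HasRIP m Φ) (e : E → D) (he : Function.Injective e) :
    HasRIP m (Φ.submatrix id e) := by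
  obtain ⟨s, hs, h1⟩ := h
  refine ⟨s, hs, ?_⟩
  intro x hx
  have h2 := h1 (Function.extend e x 0) (by rw [supp_extend e he]; exact hx)
  have h3 : ∑ j, ‖Function.extend e x 0 j‖ ^ 2 = ∑ a, ‖x a‖ ^ 2 :=
    sum_extend e he x (fun _ z => ‖z‖ ^ 2) (fun _ => by simp)
  have h4 : ∀ i, ∑ j, Φ i j * Function.extend e x 0 j = ∑ a, Φ.submatrix id e i a * x a := by
    intro i
    exact sum_extend e he x (fun j z => Φ i j * z) (fun _ => by simp)
  simp only [h3, h4] at h2
  exact h2

end Run7.h894
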