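import Pool.Agent.Run7.h894.LineBezout

/-!
# Surfaces with many red and many blue lines, part 1: the second order condition
-/

namespace Run7.h894

open MvPolynomial

variable {K : Type} [Field K]

theorem totalDegree_pderiv_lt (f : MvPolynomial (Fin 3) K) (i : Fin 3) (h : pderiv i f ≠ 0) :
    (pderiv i f).totalDegree < f.totalDegree := by
  classical
  obtain ⟨m, hm, hdeg⟩ : ∃ m ∈ (pderiv i f).support,
      (pderiv i f).totalDegree = m.sum fun _ e => e := by
    have hne : (pderiv i f).support.Nonempty := by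
      rw [Finset.nonempty_iff_ne_empty]
      intro h0
      exact h (support_eq_empty.mp h0)
    obtain ⟨m, hm, h1⟩ := Finset.exists_mem_eq_sup (pderiv i f).support hne
      (fun s => s.sum fun _ e => e)
    exact ⟨m, hm, h1⟩
  rw [hdeg]
  rw [mem_support_iff, coeff_pderiv] at hm
  have h1 : m + Finsupp.single i 1 ∈ f.support := by
    rw [mem_support_iff]
    exact left_ne_zero_of_mul hm
  have h2 := le_totalDegree h1
  rw [Finsupp.sum_add_index' (fun _ => rfl) (fun _ _ _ => rfl),
    Finsupp.sum_single_index rfl] at h2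
  omega

theorem totalDegree_pderiv_le (f : MvPolynomial (Fin 3) K) (i : Fin 3) :
    (pderiv i f).totalDegree ≤ f.totalDegree := by
  by_cases h : pderiv i f = 0
  · rw [h]; simp
  · exact (totalDegree_pderiv_lt f i h).le

/-- the chain rule -/
theorem derivative_lsub (a v : Fin 3 → K) (h : MvPolynomial (Fin 3) K) :
    Polynomial.derivative (lsub a v h) = ∑ k, Polynomial.C (v k) * lsub a v (pderiv k h) := by
  induction h using MvPolynomial.induction_on with
  | C c =>
    simp [lsub]
  | add p q hp hq =>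
    simp only [map_add, hp, hq, mul_add, Finset.sum_add_distrib]
  | mul_X p n hp =>
    have h1 : Polynomial.derivative (lsub a v (X n)) = Polynomial.C (v n) := by
      simp [lsub]
    rw [map_mul, Polynomial.derivative_mul, hp, h1]
    have h2 : ∀ k, lsub a v (pderiv k (p * X n)) =
        lsub a v (pderiv k p) * lsub a v (X n) + lsub a v p * (if k = n then 1 else 0) := by
      intro k
      rw [pderiv_mul, map_add, map_mul, map_mul]
      congr 1
      by_cases hk : k = n
      · rw [hk, pderiv_X_self, if_pos rfl, map_one]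
      · rw [pderiv_X_of_ne (fun h => hk h.symm), if_neg hk, map_zero]
    simp only [h2, mul_add, Finset.sum_add_distrib]
    congr 1
    · rw [Finset.sum_mul]
      apply Finset.sum_congr rfl
      intro k _
      ring
    · simp [mul_comm]

/-- the polynomial of the second fundamental form in the direction `i`. -/
noncomputable def gg (i : Fin 3) (f : MvPolynomial (Fin 3) K) : MvPolynomial (Fin 3) K :=
  pderiv i (pderiv i f) * (pderiv 2 f) ^ 2
    - (pderiv 2 (pderiv i f) + pderiv i (pderiv 2 f)) * (pderiv i f * pderiv 2 f)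
    + pderiv 2 (pderiv 2 f) * (pderiv i f) ^ 2

theorem totalDegree_gg_le (i : Fin 3) (f : MvPolynomial (Fin 3) K) :
    (gg i f).totalDegree ≤ 3 * f.totalDegree := by
  have h1 : ∀ j, (pderiv j f).totalDegree ≤ f.totalDegree := fun j => totalDegree_pderiv_le f j
  have h2 : ∀ j k, (pderiv j (pderiv k f)).totalDegree ≤ f.totalDegree := fun j k =>
    (totalDegree_pderiv_le _ j).trans (h1 k)
  have hsq : ∀ j, ((pderiv j f) ^ 2).totalDegree ≤ 2 * f.totalDegree := fun j =>
    (totalDegree_pow _ _).trans (Nat.mul_le_mul_left _ (h1 j))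
  have hm : ∀ A B : MvPolynomial (Fin 3) K, A.totalDegree ≤ f.totalDegree →
      B.totalDegree ≤ 2 * f.totalDegree → (A * B).totalDegree ≤ 3 * f.totalDegree := by
    intro A B hA hB
    refine (totalDegree_mul _ _).trans ?_
    omega
  unfold gg
  refine (totalDegree_add _ _).trans (max_le ((totalDegree_sub _ _).trans (max_le ?_ ?_)) ?_)
  · exact hm _ _ (h2 _ _) (hsq _)
  · apply hm
    · exact (totalDegree_add _ _).trans (max_le (h2 _ _) (h2 _ _))
    · refine (totalDegree_mul _ _).trans ?_
      have := h1 i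
      have := h1 2
      omega
  · exact hm _ _ (h2 _ _) (hsq _)

/-- `v` is the direction `e_i + m e_2`. -/
def IsDir (i : Fin 3) (m : K) (v : Fin 3 → K) : Prop :=
  i ≠ 2 ∧ v i = 1 ∧ v 2 = m ∧ ∀ k, k ≠ i → k ≠ 2 → v k = 0

theorem isDir_zero (m : K) : IsDir 0 m ![1, 0, m] := by
  refine ⟨by decide, rfl, rfl, ?_⟩
  intro k hk hk'
  fin_cases k
  · exact absurd rfl hk
  · rfl
  · exact absurd rfl hk'

theorem isDir_one (m : K) : IsDir 1 m ![0, 1, m] := by
  refine ⟨by decide, rfl, rfl, ?_⟩
  intro k hk hk'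
  fin_cases k
  · rfl
  · exact absurd rfl hk
  · exact absurd rfl hk'

theorem derivative_lsub_dir {i : Fin 3} {m : K} {v : Fin 3 → K} (hv : IsDir i m v) (a : Fin 3 → K)
    (h : MvPolynomial (Fin 3) K) :
    Polynomial.derivative (lsub a v h) =
      lsub a v (pderiv i h) + Polynomial.C m * lsub a v (pderiv 2 h) := by
  obtain ⟨hi, h1, h2, h3⟩ := hv
  rw [derivative_lsub]
  have : ∀ k, Polynomial.C (v k) * lsub a v (pderiv k h) =
      (if k = i then lsub a v (pderiv i h) else 0)
        + (if k = 2 then Polynomial.C m * lsub a v (pderiv 2 h) else 0) := by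
    intro k
    by_cases hk : k = i
    · rw [hk, if_pos rfl, if_neg hi, h1, Polynomial.C_1, one_mul, add_zero]
    · by_cases hk' : k = 2
      · rw [hk', if_neg (fun h => hi h.symm), if_pos rfl, h2, zero_add]
      · rw [if_neg hk, if_neg hk', h3 k hk hk', Polynomial.C_0, zero_mul, zero_add]
  simp only [this, Finset.sum_add_distrib, Finset.sum_ite_eq', Finset.mem_univ, if_true]

/-- the basic identity along a line -/
theorem gg_along {i : Fin 3} {m : K} {v : Fin 3 → K} (hv : IsDir i m v) (a : Fin 3 → K)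
    (f : MvPolynomial (Fin 3) K) :
    ∃ W : Polynomial K, lsub a v (gg i f) =
      (lsub a v (pderiv 2 f)) ^ 2 * Polynomial.derivative (Polynomial.derivative (lsub a v f))
        + Polynomial.derivative (lsub a v f) * W := by
  have e1 := derivative_lsub_dir hv a f
  have e2 : Polynomial.derivative (Polynomial.derivative (lsub a v f)) =
      lsub a v (pderiv i (pderiv i f)) + Polynomial.C m * lsub a v (pderiv 2 (pderiv i f))
        + Polynomial.C m * (lsub a v (pderiv i (pderiv 2 f))
          + Polynomial.C m * lsub a v (pderiv 2 (pderiv 2 f))) := by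
    rw [e1, Polynomial.derivative_add, Polynomial.derivative_C_mul,
      derivative_lsub_dir hv a (pderiv i f), derivative_lsub_dir hv a (pderiv 2 f)]
  refine ⟨-(lsub a v (pderiv 2 (pderiv i f)) + lsub a v (pderiv i (pderiv 2 f)))
      * lsub a v (pderiv 2 f)
      + lsub a v (pderiv 2 (pderiv 2 f)) * Polynomial.derivative (lsub a v f)
      - 2 * Polynomial.C m * lsub a v (pderiv 2 (pderiv 2 f)) * lsub a v (pderiv 2 f), ?_⟩
  have e3 : lsub a v (pderiv i f) =
      Polynomial.derivative (lsub a v f) - Polynomial.C m * lsub a v (pderiv 2 f) := by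
    rw [e1]; ring
  unfold gg
  simp only [map_add, map_sub, map_mul, map_pow]
  rw [e2, e3]
  ring

theorem gg_line {i : Fin 3} {m : K} {v : Fin 3 → K} (hv : IsDir i m v) (a : Fin 3 → K)
    (f : MvPolynomial (Fin 3) K) (h : lsub a v f = 0) : lsub a v (gg i f) = 0 := by
  obtain ⟨W, hW⟩ := gg_along hv a f
  rw [hW, h]
  simp

theorem cast_ne_zero_of_lt (p : ℕ) [CharP K p] {n : ℕ} (h0 : 0 < n) (hn : n < p) :
    (n : K) ≠ 0 := by
  intro h
  rw [CharP.cast_eq_zero_iff K p] at h
  exact absurd (Nat.le_of_dvd h0 h) (not_le.mpr hn)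

/-- **Key step.**  If `f` divides `gg i f` then through every point of `f = 0` where
`pderiv 2 f` is not zero there is a line of direction `e_i + m e_2` contained in `f = 0`. -/
theorem key_line (p : ℕ) [CharP K p] {i : Fin 3} {m : K} {v : Fin 3 → K} (hv : IsDir i m v)
    (a : Fin 3 → K) (f : MvPolynomial (Fin 3) K) (hdvd : f ∣ gg i f) (hd : f.totalDegree < p)
    (h0 : eval a f = 0) (h1 : eval a (pderiv 2 f) ≠ 0)
    (hm : eval a (pderiv i f) + m * eval a (pderiv 2 f) = 0) : lsub a v f = 0 := by
  have hev : ∀ h : MvPolynomial (Fin 3) K, (lsub a v h).eval 0 = eval a h := by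
    intro h
    rw [eval_lsub]
    simp
  by_contra hH
  obtain ⟨Q, hQ⟩ := hdvd
  obtain ⟨W, hW⟩ := gg_along hv a f
  rw [hQ, map_mul] at hW
  -- factor out the power
  obtain ⟨H₁, hH₁, hnd⟩ :=
    Polynomial.exists_eq_pow_rootMultiplicity_mul_and_not_dvd (lsub a v f) hH 0
  rw [Polynomial.C_0, sub_zero] at hH₁ hnd
  set e := Polynomial.rootMultiplicity 0 (lsub a v f) with he
  have hH₁0 : H₁.eval 0 ≠ 0 := by
    intro h
    exact hnd (Polynomial.X_dvd_iff.mpr (by rw [Polynomial.coeff_zero_eq_eval_zero]; exact h))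
  have hH₁ne : H₁ ≠ 0 := by
    rintro rfl
    simp at hH₁0
  have hdeg : e ≤ f.totalDegree := by
    refine le_trans ?_ (natDegree_lsub_le a v f)
    rw [hH₁, Polynomial.natDegree_mul (pow_ne_zero _ Polynomial.X_ne_zero) hH₁ne,
      Polynomial.natDegree_pow, Polynomial.natDegree_X, mul_one]
    exact Nat.le_add_right _ _
  have hval0 : (lsub a v f).eval 0 = 0 := by rw [hev, h0]
  have hval1 : (Polynomial.derivative (lsub a v f)).eval 0 = 0 := by
    rw [derivative_lsub_dir hv, Polynomial.eval_add, Polynomial.eval_mul, Polynomial.eval_C,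
      hev, hev, hm]
  -- e ≥ 2
  have he2 : 2 ≤ e := by
    by_contra hlt
    have h3 : e = 0 ∨ e = 1 := by omega
    rcases h3 with h3 | h3
    · rw [h3, pow_zero, one_mul] at hH₁
      rw [hH₁] at hval0
      exact hH₁0 hval0
    · rw [h3, pow_one] at hH₁
      rw [hH₁, Polynomial.derivative_mul, Polynomial.derivative_X, one_mul] at hval1
      simp only [Polynomial.eval_add, Polynomial.eval_mul, Polynomial.eval_X, zero_mul,
        add_zero] at hval1
      exact hH₁0 hval1
  obtain ⟨n, hn⟩ : ∃ n, e = n + 2 := ⟨e - 2, by omega⟩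
  rw [hn] at hH₁ hdeg
  set D₁ : Polynomial K := ((n + 2 : ℕ) : Polynomial K) * H₁
    + Polynomial.X * Polynomial.derivative H₁ with hD₁
  have hder1 : Polynomial.derivative (lsub a v f) = Polynomial.X ^ (n + 1) * D₁ := by
    rw [hH₁, Polynomial.derivative_mul, Polynomial.derivative_X_pow, hD₁]
    rw [show n + 2 - 1 = n + 1 by omega, pow_succ Polynomial.X (n + 1)]
    simp only [Polynomial.C_eq_natCast]
    ring
  have hder2 : Polynomial.derivative (Polynomial.derivative (lsub a v f)) =
      Polynomial.X ^ n * (((n + 1 : ℕ) : Polynomial K) * D₁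
        + Polynomial.X * Polynomial.derivative D₁) := by
    rw [hder1, Polynomial.derivative_mul, Polynomial.derivative_X_pow]
    rw [show n + 1 - 1 = n by omega, pow_succ Polynomial.X n]
    simp only [Polynomial.C_eq_natCast]
    ring
  rw [hder2, hder1, hH₁] at hW
  have hW2 : Polynomial.X ^ n * (Polynomial.X ^ 2 * H₁ * lsub a v Q) =
      Polynomial.X ^ n * ((lsub a v (pderiv 2 f)) ^ 2 * (((n + 1 : ℕ) : Polynomial K) * D₁
        + Polynomial.X * Polynomial.derivative D₁) + Polynomial.X * D₁ * W) := by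
    calc Polynomial.X ^ n * (Polynomial.X ^ 2 * H₁ * lsub a v Q)
        = Polynomial.X ^ (n + 2) * H₁ * lsub a v Q := by ring
      _ = _ := by rw [hW]; ring
  have hW3 := mul_left_cancel₀ (pow_ne_zero n Polynomial.X_ne_zero) hW2
  have hW4 := congrArg (fun P => Polynomial.eval 0 P) hW3
  simp only [Polynomial.eval_mul, Polynomial.eval_add, Polynomial.eval_pow, Polynomial.eval_X,
    Polynomial.eval_natCast, zero_mul, add_zero, ne_eq, OfNat.ofNat_ne_zero, not_false_eq_true,
    zero_pow, hev] at hW4
  have hD₁0 : D₁.eval 0 = ((n + 2 : ℕ) : K) * H₁.eval 0 := by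
    rw [hD₁]
    simp
  rw [hD₁0] at hW4
  have hn1 : ((n + 1 : ℕ) : K) ≠ 0 := cast_ne_zero_of_lt p (by omega) (by omega)
  have hn2 : ((n + 2 : ℕ) : K) ≠ 0 := cast_ne_zero_of_lt p (by omega) (by omega)
  have := mul_ne_zero (pow_ne_zero 2 h1) (mul_ne_zero hn1 (mul_ne_zero hn2 hH₁0))
  exact this hW4.symm

end Run7.h894
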