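import Pool.Agent.Run7.h894.Reg

/-!
# The bound for the null graph
-/

namespace Run7.h894

section

variable {p : ℕ} [Fact p.Prime] {K : Type} [Field K] [Algebra (ZMod p) K]

variable {ω : K} {μ : ZMod p}

open Classical in
/-- **The generic part.** -/
theorem gen_total [Infinite K] [CharP K p] (hω : ω ^ 2 = am K μ) (hμ : ¬ IsSquare μ)
    (h2 : (2 : ZMod p) ≠ 0) (Fb : ZMod p → Finset ((ZMod p × ZMod p) × ZMod p))
    (C₀ : Finset (ZMod p)) (N : ℝ) (hN : 1 ≤ N) (hFN : ∑ c ∈ C₀, ((Fb c).card : ℝ) ≤ N)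
    (hNp : Real.sqrt N ≤ p) (J : ℕ) (hJ : N ≤ 4 ^ J)
    (x : ZMod p → (ZMod p × ZMod p) × ZMod p → ℝ)
    (hx : ∀ c u, 0 ≤ x c u) :
    ∑ e ∈ (C₀ ×ˢ C₀).filter (fun e => e.1 ≠ e.2), ∑ u ∈ Fb e.1, ∑ v ∈ Fb e.2,
      (if NullR μ (e.1 - e.2) u v ∧ ¬ Reg ω μ (e.1 - e.2) (Fb e.1) (Fb e.2) u v
        then x e.1 u * x e.2 v else 0) ≤
      5 * (J + 1) * (120000 * (1 + Real.log N)) * (2 * Real.sqrt (C₀.card * N)) *
        ∑ c ∈ C₀, ∑ u ∈ Fb c, x c u ^ 2 := by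
  have hlog : 0 ≤ Real.log N := Real.log_nonneg hN
  have hle : ∀ c ∈ C₀, ((Fb c).card : ℝ) ≤ N := fun c hc =>
    (Finset.single_le_sum (f := fun c => ((Fb c).card : ℝ))
      (fun _ _ => Nat.cast_nonneg _) hc).trans hFN
  set X : ZMod p → ℝ := fun c => Real.sqrt (∑ u ∈ Fb c, x c u ^ 2) with hX
  have hX0 : ∀ c, 0 ≤ X c := fun c => Real.sqrt_nonneg _
  have hXX : ∀ c, X c ^ 2 = ∑ u ∈ Fb c, x c u ^ 2 := fun c =>
    Real.sq_sqrt (Finset.sum_nonneg (fun i _ => sq_nonneg _))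
  set Λ : ℝ := 5 * (J + 1) * (120000 * (1 + Real.log N)) with hΛ
  have hΛ0 : 0 ≤ Λ := by rw [hΛ]; positivity
  set s : ZMod p → ℝ := fun c => Real.sqrt ((Fb c).card) with hs
  have hs0 : ∀ c, 0 ≤ s c := fun c => Real.sqrt_nonneg _
  have hterm : ∀ e ∈ (C₀ ×ˢ C₀).filter (fun e => e.1 ≠ e.2),
      ∑ u ∈ Fb e.1, ∑ v ∈ Fb e.2,
      (if NullR μ (e.1 - e.2) u v ∧ ¬ Reg ω μ (e.1 - e.2) (Fb e.1) (Fb e.2) u v
        then x e.1 u * x e.2 v else 0) ≤ Λ * ((s e.1 + s e.2) * (X e.1 * X e.2)) := by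
    intro e he
    rw [Finset.mem_filter, Finset.mem_product] at he
    have hXe : 0 ≤ X e.1 * X e.2 := mul_nonneg (hX0 _) (hX0 _)
    by_cases hemp : Fb e.1 = ∅
    · rw [hemp, Finset.sum_empty]
      exact mul_nonneg hΛ0 (mul_nonneg (add_nonneg (hs0 _) (hs0 _)) hXe)
    · have hpos : 1 ≤ (Fb e.1).card :=
        Finset.card_pos.mpr (Finset.nonempty_iff_ne_empty.mpr hemp)
      set n : ℝ := max ((Fb e.1).card : ℝ) ((Fb e.2).card : ℝ) with hn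
      have hn1 : 1 ≤ n := by
        have : (1 : ℝ) ≤ (Fb e.1).card := by exact_mod_cast hpos
        exact this.trans (le_max_left _ _)
      have hnN : n ≤ N := max_le (hle _ he.1.1) (hle _ he.1.2)
      have h3 := pair_gen hω hμ h2 (sub_ne_zero.mpr he.2) (Fb e.1) (Fb e.2) n hn1
        (le_max_left _ _) (le_max_right _ _) ((Real.sqrt_le_sqrt hnN).trans hNp) J (hnN.trans hJ)
        (x e.1) (x e.2) (hx _) (hx _)
      refine h3.trans ?_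
      have h4 : Real.log n ≤ Real.log N := Real.log_le_log (by linarith) hnN
      have h5 : Real.sqrt n ≤ s e.1 + s e.2 := by
        rw [hn]
        rcases max_choice ((Fb e.1).card : ℝ) ((Fb e.2).card : ℝ) with h | h
        · rw [h]
          exact le_add_of_nonneg_right (hs0 _)
        · rw [h]
          exact le_add_of_nonneg_left (hs0 _)
      have h6 : 0 ≤ Real.log n := Real.log_nonneg hn1
      have h7 : 120000 * (1 + Real.log n) * Real.sqrt n ≤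
          120000 * (1 + Real.log N) * (s e.1 + s e.2) := by
        apply mul_le_mul _ h5 (Real.sqrt_nonneg _) (by positivity)
        linarith
      have h8 : (5 : ℝ) * (J + 1) * (120000 * (1 + Real.log n) * Real.sqrt n) ≤
          5 * (J + 1) * (120000 * (1 + Real.log N) * (s e.1 + s e.2)) :=
        mul_le_mul_of_nonneg_left h7 (by positivity)
      calc _ ≤ (5 : ℝ) * (J + 1) * (120000 * (1 + Real.log N) * (s e.1 + s e.2)) *
            (X e.1 * X e.2) := mul_le_mul_of_nonneg_right h8 hXe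
        _ = _ := by rw [hΛ]; ring
  refine (Finset.sum_le_sum hterm).trans ?_
  have hsub : ∑ e ∈ (C₀ ×ˢ C₀).filter (fun e => e.1 ≠ e.2),
      Λ * ((s e.1 + s e.2) * (X e.1 * X e.2)) ≤
      ∑ e ∈ C₀ ×ˢ C₀, Λ * ((s e.1 + s e.2) * (X e.1 * X e.2)) := by
    apply Finset.sum_le_sum_of_subset_of_nonneg (Finset.filter_subset _ _)
    intro e _ _
    exact mul_nonneg hΛ0 (mul_nonneg (add_nonneg (hs0 _) (hs0 _)) (mul_nonneg (hX0 _) (hX0 _)))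
  refine hsub.trans ?_
  have heq : ∑ e ∈ C₀ ×ˢ C₀, Λ * ((s e.1 + s e.2) * (X e.1 * X e.2)) =
      Λ * (2 * ((∑ c ∈ C₀, s c * X c) * (∑ c ∈ C₀, X c))) := by
    rw [Finset.sum_product, Finset.sum_mul_sum]
    have h9 : ∑ a ∈ C₀, ∑ b ∈ C₀, s a * X a * X b = ∑ a ∈ C₀, ∑ b ∈ C₀, s b * X b * X a :=
      Finset.sum_comm
    have h10 : ∑ a ∈ C₀, ∑ b ∈ C₀, Λ * ((s a + s b) * (X a * X b)) =
        Λ * (∑ a ∈ C₀, ∑ b ∈ C₀, s a * X a * X b + ∑ a ∈ C₀, ∑ b ∈ C₀, s b * X b * X a) := by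
      rw [← Finset.sum_add_distrib, Finset.mul_sum]
      apply Finset.sum_congr rfl
      intro a _
      rw [← Finset.sum_add_distrib, Finset.mul_sum]
      apply Finset.sum_congr rfl
      intro b _
      ring
    rw [h10, ← h9]
    ring
  rw [heq]
  have h11 : ∑ c ∈ C₀, s c * X c ≤ Real.sqrt N * Real.sqrt (∑ c ∈ C₀, X c ^ 2) := by
    rw [← Real.sqrt_mul (by linarith)]
    apply Real.le_sqrt_of_sq_le
    refine (Finset.sum_mul_sq_le_sq_mul_sq _ _ _).trans ?_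
    apply mul_le_mul_of_nonneg_right _ (Finset.sum_nonneg (fun _ _ => sq_nonneg _))
    refine le_trans (le_of_eq ?_) hFN
    apply Finset.sum_congr rfl
    intro c _
    exact Real.sq_sqrt (Nat.cast_nonneg _)
  have h12 : ∑ c ∈ C₀, X c ≤ Real.sqrt C₀.card * Real.sqrt (∑ c ∈ C₀, X c ^ 2) := by
    rw [← Real.sqrt_mul (Nat.cast_nonneg _)]
    apply Real.le_sqrt_of_sq_le
    exact sq_sum_le_card_mul_sum_sq
  have h13 : (∑ c ∈ C₀, s c * X c) * (∑ c ∈ C₀, X c) ≤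
      (Real.sqrt N * Real.sqrt (∑ c ∈ C₀, X c ^ 2)) *
        (Real.sqrt C₀.card * Real.sqrt (∑ c ∈ C₀, X c ^ 2)) :=
    mul_le_mul h11 h12 (Finset.sum_nonneg (fun c _ => hX0 c)) (by positivity)
  have h14 : (Real.sqrt N * Real.sqrt (∑ c ∈ C₀, X c ^ 2)) *
        (Real.sqrt C₀.card * Real.sqrt (∑ c ∈ C₀, X c ^ 2)) =
      Real.sqrt (C₀.card * N) * ∑ c ∈ C₀, ∑ u ∈ Fb c, x c u ^ 2 := by
    have h15 : Real.sqrt (∑ c ∈ C₀, X c ^ 2) * Real.sqrt (∑ c ∈ C₀, X c ^ 2) =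
        ∑ c ∈ C₀, X c ^ 2 := Real.mul_self_sqrt (Finset.sum_nonneg (fun _ _ => sq_nonneg _))
    have h16 : ∑ c ∈ C₀, X c ^ 2 = ∑ c ∈ C₀, ∑ u ∈ Fb c, x c u ^ 2 :=
      Finset.sum_congr rfl (fun c _ => hXX c)
    rw [Real.sqrt_mul (Nat.cast_nonneg _), ← h16]
    calc _ = Real.sqrt C₀.card * Real.sqrt N *
          (Real.sqrt (∑ c ∈ C₀, X c ^ 2) * Real.sqrt (∑ c ∈ C₀, X c ^ 2)) := by ring
      _ = _ := by rw [h15]
  rw [h14] at h13
  calc Λ * (2 * ((∑ c ∈ C₀, s c * X c) * (∑ c ∈ C₀, X c))) ≤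
      Λ * (2 * (Real.sqrt (C₀.card * N) * ∑ c ∈ C₀, ∑ u ∈ Fb c, x c u ^ 2)) :=
        mul_le_mul_of_nonneg_left (mul_le_mul_of_nonneg_left h13 (by norm_num)) hΛ0
    _ = _ := by ring

open Classical in
/-- **The null graph between different fibres.** -/
theorem null_total [Infinite K] [CharP K p] (hω : ω ^ 2 = am K μ) (hμ : ¬ IsSquare μ)
    (h2 : (2 : ZMod p) ≠ 0) (Fb : ZMod p → Finset ((ZMod p × ZMod p) × ZMod p))
    (C₀ : Finset (ZMod p)) (A₀ : Finset (ZMod p))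
    (hA : ∀ c ∈ C₀, ∀ u ∈ Fb c, u.2 ∈ A₀)
    (N : ℝ) (hN : 1 ≤ N) (hFN : ∑ c ∈ C₀, ((Fb c).card : ℝ) ≤ N)
    (hNp : Real.sqrt N ≤ p) (J : ℕ) (hJ : N ≤ 4 ^ J)
    (x : ZMod p → (ZMod p × ZMod p) × ZMod p → ℝ)
    (hx : ∀ c u, 0 ≤ x c u) :
    ∑ e ∈ (C₀ ×ˢ C₀).filter (fun e => e.1 ≠ e.2), ∑ u ∈ Fb e.1, ∑ v ∈ Fb e.2,
      (if NullR μ (e.1 - e.2) u v then x e.1 u * x e.2 v else 0) ≤
      (2 * A₀.card + 4 * Real.sqrt (C₀.card * N) +
        5 * (J + 1) * (120000 * (1 + Real.log N)) * (2 * Real.sqrt (C₀.card * N))) *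
        ∑ c ∈ C₀, ∑ u ∈ Fb c, x c u ^ 2 := by
  have h1 := gen_total hω hμ h2 Fb C₀ N hN hFN hNp J hJ x hx
  have h3 := reg_total hω hμ h2 Fb C₀ A₀ hA x hx
  have hX0 : 0 ≤ ∑ c ∈ C₀, ∑ u ∈ Fb c, x c u ^ 2 :=
    Finset.sum_nonneg (fun c _ => Finset.sum_nonneg (fun i _ => sq_nonneg _))
  have h4 : ∑ c ∈ C₀, Real.sqrt ((Fb c).card) ≤ Real.sqrt (C₀.card * N) := by
    apply Real.le_sqrt_of_sq_le
    refine sq_sum_le_card_mul_sum_sq.trans ?_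
    apply mul_le_mul_of_nonneg_left _ (Nat.cast_nonneg _)
    refine le_trans (le_of_eq ?_) hFN
    apply Finset.sum_congr rfl
    intro c _
    exact Real.sq_sqrt (Nat.cast_nonneg _)
  have h5 : ∑ e ∈ (C₀ ×ˢ C₀).filter (fun e => e.1 ≠ e.2), ∑ u ∈ Fb e.1, ∑ v ∈ Fb e.2,
      (if NullR μ (e.1 - e.2) u v then x e.1 u * x e.2 v else 0) =
      ∑ e ∈ (C₀ ×ˢ C₀).filter (fun e => e.1 ≠ e.2), ∑ u ∈ Fb e.1, ∑ v ∈ Fb e.2,
      (if NullR μ (e.1 - e.2) u v ∧ Reg ω μ (e.1 - e.2) (Fb e.1) (Fb e.2) u v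
        then x e.1 u * x e.2 v else 0) +
      ∑ e ∈ (C₀ ×ˢ C₀).filter (fun e => e.1 ≠ e.2), ∑ u ∈ Fb e.1, ∑ v ∈ Fb e.2,
      (if NullR μ (e.1 - e.2) u v ∧ ¬ Reg ω μ (e.1 - e.2) (Fb e.1) (Fb e.2) u v
        then x e.1 u * x e.2 v else 0) := by
    rw [← Finset.sum_add_distrib]
    apply Finset.sum_congr rfl
    intro e _
    rw [← Finset.sum_add_distrib]
    apply Finset.sum_congr rfl
    intro u _
    rw [← Finset.sum_add_distrib]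
    apply Finset.sum_congr rfl
    intro v _
    by_cases hn : NullR μ (e.1 - e.2) u v
    · by_cases hr : Reg ω μ (e.1 - e.2) (Fb e.1) (Fb e.2) u v
      · simp [hn, hr]
      · simp [hn, hr]
    · simp [hn]
  rw [h5]
  have h6 : (2 * (A₀.card : ℝ) + 4 * ∑ c ∈ C₀, Real.sqrt ((Fb c).card)) *
        ∑ c ∈ C₀, ∑ u ∈ Fb c, x c u ^ 2 ≤
      (2 * A₀.card + 4 * Real.sqrt (C₀.card * N)) * ∑ c ∈ C₀, ∑ u ∈ Fb c, x c u ^ 2 := by
    apply mul_le_mul_of_nonneg_right _ hX0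
    linarith
  calc _ ≤ (2 * (A₀.card : ℝ) + 4 * Real.sqrt (C₀.card * N)) *
          (∑ c ∈ C₀, ∑ u ∈ Fb c, x c u ^ 2) +
        5 * (J + 1) * (120000 * (1 + Real.log N)) * (2 * Real.sqrt (C₀.card * N)) *
          (∑ c ∈ C₀, ∑ u ∈ Fb c, x c u ^ 2) := add_le_add (h3.trans h6) h1
    _ = _ := by ring

end

end Run7.h894
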